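import Pool.Agent.Run7.h46.V.Defs

/-!
Piece V4 (helper921): the invariants are Borel.
-/

set_option autoImplicit false

namespace Pool.Agent.Run7.h921.V4

open _root_.Run7.h46.V Set Filter Function MeasureTheory

theorem ae_iff' {C : Type} (d : ℕ → ℕ → C) (x y : ℕ) :
    AE d x y ↔ ∃ m, ∀ v, m ≤ v → d x v = d y v := by
  unfold AE
  rw [Nat.cofinite_eq_atTop, eventually_atTop]

theorem lk_iff {C : Type} (d : ℕ → ℕ → C) (x y : ℕ) :
    Lk d x y ↔ ∀ m, ∃ y', m ≤ y' ∧ (AE d y' y ∧ ¬ d x y' = d x y) := by
  unfold Lk
  rw [Nat.cofinite_eq_atTop, frequently_atTop]

theorem main : StV4 := by
  intro C Y _ d hd n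
  have he : ∀ x y x' y', Measurable fun t => d t x y = d t x' y' := fun x y x' y' =>
    measurableSet_setOf.1 (hd x y x' y')
  have hAE : ∀ x y, Measurable fun t => AE (d t) x y := by
    intro x y
    simp only [ae_iff']
    exact Measurable.exists fun m => Measurable.forall fun v =>
      Measurable.imp measurable_const (he _ _ _ _)
  have hLk : ∀ x y, Measurable fun t => Lk (d t) x y := by
    intro x y
    simp only [lk_iff]
    exact Measurable.forall fun m => Measurable.exists fun y' =>
      Measurable.and measurable_const (Measurable.and (hAE _ _) (Measurable.not (he _ _ _ _)))
  have hTw : ∀ x y, Measurable fun t => Tw (d t) x y := by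
    intro x y
    unfold Tw
    exact Measurable.and (Measurable.forall fun v =>
      Measurable.imp measurable_const (Measurable.imp measurable_const (he _ _ _ _))) (he _ _ _ _)
  constructor
  · refine measurableSet_setOf.2 ?_
    unfold DD Cmp
    refine Measurable.exists fun F => Measurable.and measurable_const
      (Measurable.and measurable_const (Measurable.and ?_ ?_))
    · refine Measurable.forall fun G => Measurable.imp measurable_const
        (Measurable.imp measurable_const (Measurable.imp measurable_const ?_))
      exact Measurable.exists fun x => Measurable.and measurable_const
        (Measurable.exists fun y => Measurable.and measurable_const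
          (Measurable.and measurable_const (hLk _ _)))
    · exact Measurable.forall fun x => Measurable.imp measurable_const
        (Measurable.forall fun y => Measurable.imp measurable_const (Measurable.not (hLk _ _)))
  · refine measurableSet_setOf.2 ?_
    unfold TT TC
    refine Measurable.exists fun F => Measurable.and measurable_const
      (Measurable.and measurable_const (Measurable.and ?_ ?_))
    · exact Measurable.forall fun x => Measurable.imp measurable_const
        (Measurable.forall fun y => Measurable.imp measurable_const
          (Measurable.imp measurable_const (hTw _ _)))
    · exact Measurable.forall fun x => Measurable.imp measurable_const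
        (Measurable.forall fun y => Measurable.imp measurable_const (Measurable.not (hTw _ _)))

end Pool.Agent.Run7.h921.V4
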