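import Pool.Agent.Run7.h46.V.Defs

/-!
Piece V6 (helper921): locally finite graphs.
-/

set_option autoImplicit false

namespace Pool.Agent.Run7.h921.V6

open _root_.Run7.h46.V Set Filter Function

section
variable (nb : ℕ → Finset ℕ)

/-- balls -/
def ball (x : ℕ) : ℕ → Finset ℕ
  | 0 => {x}
  | k + 1 => ball x k ∪ (ball x k).biUnion nb

variable {nb}

theorem mem_succ (x k y : ℕ) : y ∈ ball nb x (k + 1) ↔ y ∈ ball nb x k ∨ ∃ z ∈ ball nb x k, y ∈ nb z := by
  show y ∈ ball nb x k ∪ (ball nb x k).biUnion nb ↔ _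
  rw [Finset.mem_union, Finset.mem_biUnion]

theorem mono1 (x k : ℕ) : ball nb x k ⊆ ball nb x (k + 1) := fun y hy => (mem_succ x k y).2 (Or.inl hy)

theorem mono (x : ℕ) {j k : ℕ} (h : j ≤ k) : ball nb x j ⊆ ball nb x k := by
  induction k, h using Nat.le_induction with
  | base => exact Finset.Subset.refl _
  | succ k _ ih => exact ih.trans (mono1 x k)

theorem self_mem (x k : ℕ) : x ∈ ball nb x k :=
  mono x (Nat.zero_le k) (Finset.mem_singleton_self x)

theorem shift (x z : ℕ) (h : z ∈ nb x) (k : ℕ) : ball nb z k ⊆ ball nb x (k + 1) := by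
  induction k with
  | zero =>
    intro y hy
    rw [show ball nb z 0 = {z} from rfl, Finset.mem_singleton] at hy
    rw [hy]
    exact (mem_succ x 0 z).2 (Or.inr ⟨x, Finset.mem_singleton_self x, h⟩)
  | succ k ih =>
    intro y hy
    rcases (mem_succ z k y).1 hy with h1 | ⟨w, hw, h1⟩
    · exact mono1 _ _ (ih h1)
    · exact (mem_succ x (k + 1) y).2 (Or.inr ⟨w, ih hw, h1⟩)

theorem symm (hs : ∀ x y, y ∈ nb x → x ∈ nb y) (x y k : ℕ) (h : y ∈ ball nb x k) :
    x ∈ ball nb y k := by
  induction k generalizing y with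
  | zero =>
    rw [show ball nb x 0 = {x} from rfl, Finset.mem_singleton] at h
    rw [h]
    exact Finset.mem_singleton_self x
  | succ k ih =>
    rcases (mem_succ x k y).1 h with h1 | ⟨z, hz, h1⟩
    · exact mono1 _ _ (ih y h1)
    · exact shift y z (hs z y h1) k (ih z hz)

theorem stable_next (x k : ℕ) (h : ball nb x (k + 1) = ball nb x k) :
    ball nb x (k + 2) = ball nb x (k + 1) := by
  show ball nb x (k + 1) ∪ (ball nb x (k + 1)).biUnion nb = ball nb x k ∪ (ball nb x k).biUnion nb
  rw [h]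

theorem card_or (x k : ℕ) : k + 1 ≤ (ball nb x k).card ∨ ball nb x (k + 1) = ball nb x k := by
  induction k with
  | zero =>
    left
    rw [show ball nb x 0 = {x} from rfl, Finset.card_singleton]
  | succ k ih =>
    rcases ih with h | h
    · by_cases h2 : ball nb x (k + 1) = ball nb x k
      · right
        exact stable_next x k h2
      · left
        have h3 : ball nb x k ⊂ ball nb x (k + 1) :=
          Finset.ssubset_iff_subset_ne.2 ⟨mono1 x k, fun h4 => h2 h4.symm⟩
        have := Finset.card_lt_card h3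
        omega
    · right
      exact stable_next x k h

theorem closed (x k : ℕ) (h : ball nb x (k + 1) = ball nb x k) (y z : ℕ) (hy : y ∈ ball nb x k)
    (hz : z ∈ nb y) : z ∈ ball nb x k := by
  rw [← h]
  exact (mem_succ x k z).2 (Or.inr ⟨y, hy, hz⟩)

theorem closed_ball (x k : ℕ) (h : ball nb x (k + 1) = ball nb x k) (y : ℕ)
    (hy : y ∈ ball nb x k) (j : ℕ) : ball nb y j ⊆ ball nb x k := by
  induction j with
  | zero =>
    intro w hw
    rw [show ball nb y 0 = {y} from rfl, Finset.mem_singleton] at hw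
    rw [hw]; exact hy
  | succ j ih =>
    intro w hw
    rcases (mem_succ y j w).1 hw with h1 | ⟨z, hz, h1⟩
    · exact ih h1
    · exact closed x k h z w (ih hz) h1

/-- an edge out of a set which contains the centre -/
theorem cut1 (x k : ℕ) (G : Finset ℕ) (hx : x ∈ G) (y : ℕ) (hy : y ∈ ball nb x k) (hyG : y ∉ G) :
    ∃ a ∈ G, a ∈ ball nb x k ∧ ∃ b ∈ ball nb x k, b ∉ G ∧ b ∈ nb a := by
  classical
  have hex : ∃ j, j ≤ k ∧ ∃ y ∈ ball nb x j, y ∉ G := ⟨k, le_rfl, y, hy, hyG⟩
  obtain ⟨hjk, b, hb, hbG⟩ := Nat.find_spec hex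
  set j := Nat.find hex with hj
  have hmin : ∀ i, i < j → ∀ w ∈ ball nb x i, w ∈ G := by
    intro i hi w hw
    by_contra h
    exact Nat.find_min hex hi ⟨by omega, w, hw, h⟩
  rcases Nat.eq_zero_or_pos j with h0 | h0
  · exfalso
    rw [h0, show ball nb x 0 = {x} from rfl, Finset.mem_singleton] at hb
    exact hbG (hb ▸ hx)
  · obtain ⟨i, hi⟩ : ∃ i, j = i + 1 := ⟨j - 1, by omega⟩
    rw [hi] at hb
    rcases (mem_succ x i b).1 hb with h1 | ⟨z, hz, h1⟩
    · exact absurd (hmin i (by omega) b h1) hbG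
    · exact ⟨z, hmin i (by omega) z hz, mono x (by omega) hz, b, mono x (by omega) hb, hbG, h1⟩

theorem cut (hs : ∀ x y, y ∈ nb x → x ∈ nb y) (x k : ℕ) (G : Finset ℕ) (hG : G ⊆ ball nb x k)
    (hne : G.Nonempty) (hneq : G ≠ ball nb x k) :
    ∃ a ∈ G, ∃ b ∈ ball nb x k, b ∉ G ∧ b ∈ nb a := by
  classical
  by_cases hx : x ∈ G
  · have : ∃ y ∈ ball nb x k, y ∉ G := by
      by_contra h
      push Not at h
      exact hneq (Finset.Subset.antisymm hG h)
    obtain ⟨y, hy, hyG⟩ := this
    obtain ⟨a, ha, -, b, hb, hbG, hab⟩ := cut1 x k G hx y hy hyG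
    exact ⟨a, ha, b, hb, hbG, hab⟩
  · obtain ⟨y, hy⟩ := hne
    obtain ⟨a, ha, -, b, hb, hbG, hab⟩ := cut1 x k (ball nb x k \ G)
      (Finset.mem_sdiff.2 ⟨self_mem x k, hx⟩) y (hG hy) (by
        rw [Finset.mem_sdiff]
        exact fun h => h.2 hy)
    have ha' := Finset.mem_sdiff.1 ha
    have hb' : b ∈ G := by
      by_contra h
      exact hbG (Finset.mem_sdiff.2 ⟨hb, h⟩)
    exact ⟨b, hb', a, ha'.1, ha'.2, hs a b hab⟩

end

theorem main : StV6 := by
  classical
  intro E hsym hfin
  set nb : ℕ → Finset ℕ := fun x => (hfin x).toFinset with hnb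
  have hmem : ∀ x y, y ∈ nb x ↔ E x y := by
    intro x y
    simp only [hnb, Finite.mem_toFinset, mem_ofPred_eq]
  have hs : ∀ x y, y ∈ nb x → x ∈ nb y := fun x y h => (hmem y x).2 (hsym _ _ ((hmem x y).1 h))
  by_cases hA : ∀ K, {x | K + 1 ≤ (ball nb x K).card}.Infinite
  · right
    intro n
    set T : Finset ℕ := (Finset.range n).biUnion (fun u => ball nb u (n + 1)) with hT
    obtain ⟨x, hx, hxT⟩ := (hA n).exists_notMem_finset T
    have hxT' : ∀ u, u < n → x ∉ ball nb u (n + 1) := by
      intro u hu h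
      exact hxT (Finset.mem_biUnion.2 ⟨u, Finset.mem_range.2 hu, h⟩)
    refine ⟨ball nb x n, ?_, ?_, ?_, ?_⟩
    · intro y hy
      by_contra h
      push Not at h
      exact hxT' y h (mono1 _ _ (symm hs x y n hy))
    · have : n + 1 ≤ (ball nb x n).card := hx
      omega
    · intro y hy u hu hE
      have h1 : u ∈ ball nb x (n + 1) := (mem_succ x n u).2 (Or.inr ⟨y, hy, (hmem y u).2 hE⟩)
      exact hxT' u hu (symm hs x u (n + 1) h1)
    · intro G hG hne hneq
      obtain ⟨a, ha, b, hb, hbG, hab⟩ := cut hs x n G hG hne hneq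
      exact ⟨a, ha, b, hb, hbG, (hmem a b).1 hab⟩
  · left
    push Not at hA
    obtain ⟨K, hK⟩ := hA
    have hKf : {x | K + 1 ≤ (ball nb x K).card}.Finite := by
      simpa using hK
    set S : Finset ℕ := hKf.toFinset with hS
    have hSm : ∀ x, x ∈ S ↔ K + 1 ≤ (ball nb x K).card := by
      intro x
      simp only [hS, Finite.mem_toFinset, mem_ofPred_eq]
    have hst : ∀ x, x ∉ S → ball nb x (K + 1) = ball nb x K := by
      intro x hx
      rcases card_or (nb := nb) x K with h | h
      · exact absurd ((hSm x).2 h) hx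
      · exact h
    have hin : ∀ x, x ∉ S → ∀ y ∈ ball nb x K, y ∉ S ∧ ball nb y K = ball nb x K := by
      intro x hx y hy
      have h1 := closed_ball x K (hst x hx) y hy K
      have hyS : y ∉ S := by
        intro h
        have h2 := (hSm y).1 h
        have h3 := Finset.card_le_card h1
        exact hx ((hSm x).2 (by omega))
      exact ⟨hyS, Finset.Subset.antisymm h1
        (closed_ball y K (hst y hyS) x (symm hs x y K hy) K)⟩
    have hSE : ∀ x, x ∈ S → ∀ y, E x y → y ∈ S := by
      intro x hx y hE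
      by_contra hy
      have h1 : x ∈ ball nb y K := by
        rw [← hst y hy]
        exact (mem_succ y K x).2 (Or.inr ⟨y, self_mem y K, (hmem y x).2 (hsym _ _ hE)⟩)
      exact (hin y hy x h1).1 hx
    refine ⟨max K S.card, fun x => if x ∈ S then S else ball nb x K, ?_, ?_, ?_, ?_⟩
    · intro x
      by_cases hx : x ∈ S
      · simp only [hx, if_true]
      · simp only [hx, if_false]
        exact self_mem x K
    · intro x y hy
      by_cases hx : x ∈ S
      · simp only [hx, if_true] at hy ⊢
        simp only [hy, if_true]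
      · simp only [hx, if_false] at hy ⊢
        have h1 := hin x hx y hy
        simp only [h1.1, if_false]
        exact h1.2
    · intro x
      by_cases hx : x ∈ S
      · simp only [hx, if_true]
        exact le_max_right _ _
      · simp only [hx, if_false]
        have h1 : ¬ K + 1 ≤ (ball nb x K).card := fun h => hx ((hSm x).2 h)
        exact le_trans (by omega) (le_max_left _ _)
    · intro x y hE
      by_cases hx : x ∈ S
      · simp only [hx, if_true]
        exact hSE x hx y hE
      · simp only [hx, if_false]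
        rw [← hst x hx]
        exact (mem_succ x K y).2 (Or.inr ⟨x, self_mem x K, (hmem x y).2 hE⟩)

end Pool.Agent.Run7.h921.V6
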