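import Pool.Agent.Run7.h46.V.Defs

/-!
Piece V7 (helper921): block sequences of the first kind give continuum many values of `DD`.
-/

set_option autoImplicit false

namespace Pool.Agent.Run7.h921.V7

open _root_.Run7.h46.V Set Filter Function

open Classical in
/-- the numbers of the chosen blocks -/
noncomputable def ph (X : Set ℕ) (n : ℕ) : ℕ := if n ∈ X then 2 * n + 1 else 2 * n

theorem ph_inj (X : Set ℕ) : Injective (ph X) := by
  intro m n h
  unfold ph at h
  split_ifs at h <;> omega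

theorem ph_mem (X : Set ℕ) (m n : ℕ) : ph X m = 2 * n + 1 ↔ m = n ∧ n ∈ X := by
  unfold ph
  split_ifs with h
  · constructor
    · intro h2
      have : m = n := by omega
      exact ⟨this, this ▸ h⟩
    · rintro ⟨rfl, _⟩; rfl
  · constructor
    · intro h2; omega
    · rintro ⟨rfl, h3⟩; exact absurd h3 h

theorem step (h1 : StV1) {C : Type} (d : ℕ → ℕ → C) (hS : Sw d) {I : Type} (δ : I → I → C)
    (B : ℕ → Finset ℕ) (lab : ℕ → ℕ → I) (hne : ∀ n, (B n).Nonempty)
    (hdis : ∀ m n, m ≠ n → Disjoint (B m) (B n))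
    (hcr : ∀ m n, m ≠ n → ∀ x ∈ B m, ∀ y ∈ B n, d x y = δ (lab m x) (lab n y))
    (hlab : ∀ m n, ∀ x ∈ B m, ∃ y ∈ B n, lab n y = lab m x)
    (hcon : ∀ m, ∀ G ⊆ B m, G.Nonempty → G ≠ B m →
      ∃ x ∈ G, ∃ y ∈ B m, y ∉ G ∧ d x y ≠ δ (lab m x) (lab m y)) (X : Set ℕ) :
    ∃ f : ℕ → ℕ, Injective f ∧
      DD (fun x y => d (f x) (f y)) = {n | ∃ b, n = (B (ph X b)).card} := by
  classical
  let U : Type := Σ n : ℕ, {x // x ∈ B (ph X n)}
  have : Infinite U := by
    refine Infinite.of_injective (fun n : ℕ => (⟨n, ⟨(hne (ph X n)).choose,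
      (hne (ph X n)).choose_spec⟩⟩ : U)) ?_
    intro m n h
    exact congrArg Sigma.fst h
  have : Countable U := by infer_instance
  obtain ⟨hden⟩ := nonempty_denumerable U
  let e : ℕ ≃ U := (Denumerable.eqv U).symm
  let f : ℕ → ℕ := fun s => (e s).2.1
  let blk : ℕ → ℕ := fun s => (e s).1
  let lb : ℕ → I := fun s => lab (ph X (blk s)) (f s)
  have hfB : ∀ s, f s ∈ B (ph X (blk s)) := fun s => (e s).2.2
  have hcoord : ∀ b y (hy : y ∈ B (ph X b)), blk (e.symm ⟨b, ⟨y, hy⟩⟩) = b ∧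
      f (e.symm ⟨b, ⟨y, hy⟩⟩) = y := by
    intro b y hy
    have h : e (e.symm ⟨b, ⟨y, hy⟩⟩) = ⟨b, ⟨y, hy⟩⟩ := e.apply_symm_apply _
    show (e (e.symm ⟨b, ⟨y, hy⟩⟩)).1 = b ∧ (e (e.symm ⟨b, ⟨y, hy⟩⟩)).2.1 = y
    rw [h]
    exact ⟨rfl, rfl⟩
  have hfblk : ∀ s t, f s = f t → blk s = blk t := by
    intro s t h
    by_contra hne'
    have h2 : ph X (blk s) ≠ ph X (blk t) := fun h3 => hne' (ph_inj X h3)
    have h3 := Finset.disjoint_left.1 (hdis _ _ h2) (hfB s)
    exact h3 (h ▸ hfB t)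
  have hext : ∀ u v : U, u.1 = v.1 → u.2.1 = v.2.1 → u = v := by
    rintro ⟨a, x, hx⟩ ⟨b, y, hy⟩ h1 h2
    simp only at h1 h2
    subst h1
    subst h2
    rfl
  have hfinj : Injective f := by
    intro s t h
    exact e.injective (hext _ _ (hfblk s t h) h)
  have hset : ∀ b, f '' {x | blk x = b} = (B (ph X b) : Set ℕ) := by
    intro b
    ext y
    constructor
    · rintro ⟨s, hs, rfl⟩
      have := hfB s
      rw [show blk s = b from hs] at this
      exact this
    · intro hy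
      exact ⟨e.symm ⟨b, ⟨y, hy⟩⟩, (hcoord b y hy).1, (hcoord b y hy).2⟩
  have hcard : ∀ b, {x | blk x = b}.ncard = (B (ph X b)).card := by
    intro b
    rw [← Set.ncard_coe_finset, ← hset b, Set.ncard_image_of_injective _ hfinj]
  refine ⟨f, hfinj, ?_⟩
  have hmain := h1 C I (fun x y => d (f x) (f y)) blk lb δ ?_ ?_ ?_ ?_ ?_
  · rw [hmain]
    ext n
    simp only [mem_ofPred_eq]
    constructor
    · rintro ⟨z, rfl⟩
      exact ⟨blk z, hcard _⟩
    · rintro ⟨b, rfl⟩
      obtain ⟨y, hy⟩ := hne (ph X b)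
      refine ⟨e.symm ⟨b, ⟨y, hy⟩⟩, ?_⟩
      rw [(hcoord b y hy).1, hcard]
  · intro x y x' y' h
    exact hS _ _ _ _ h
  · intro b
    have : (f '' {x | blk x = b}).Finite := by
      rw [hset b]
      exact Finset.finite_toSet _
    exact this.of_finite_image hfinj.injOn
  · intro x y hxy
    exact hcr _ _ (fun h => hxy (ph_inj X h)) _ (hfB x) _ (hfB y)
  · intro x
    have hch : ∀ n : ℕ, ∃ y ∈ B (ph X n), lab (ph X n) y = lb x := fun n =>
      hlab (ph X (blk x)) (ph X n) (f x) (hfB x)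
    choose y hy hly using hch
    refine Set.infinite_of_injective_forall_mem (f := fun n : ℕ => e.symm ⟨n, ⟨y n, hy n⟩⟩) ?_ ?_
    · intro m n h
      have := e.symm.injective h
      exact congrArg Sigma.fst this
    · intro n
      show lb _ = lb x
      have h2 := hcoord n (y n) (hy n)
      show lab (ph X (blk _)) (f _) = lb x
      rw [h2.1, h2.2]
      exact hly n
  · intro z G hG hGss
    set b := blk z with hb
    set G' : Finset ℕ := (B (ph X b)).filter (fun x => ∃ s ∈ G, f s = x) with hG'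
    have hmemG' : ∀ s, s ∈ G → f s ∈ G' := by
      intro s hs
      rw [hG', Finset.mem_filter]
      have : blk s = b := hGss.1 hs
      exact ⟨this ▸ hfB s, s, hs, rfl⟩
    have hnotG' : ∀ s, s ∉ G → f s ∉ G' := by
      intro s hs h
      rw [hG', Finset.mem_filter] at h
      obtain ⟨_, s', hs', h2⟩ := h
      exact hs (hfinj h2 ▸ hs')
    obtain ⟨s0, hs0⟩ := hG
    obtain ⟨t0, ht0, ht0G⟩ := Set.exists_of_ssubset hGss
    obtain ⟨x, hx, y, hy, hyG, hd⟩ := hcon (ph X b) G' (Finset.filter_subset _ _)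
      ⟨f s0, hmemG' s0 hs0⟩ (by
        intro h
        have h2 : f t0 ∈ B (ph X b) := by
          have : blk t0 = b := ht0
          exact this ▸ hfB t0
        rw [← h] at h2
        exact hnotG' t0 ht0G h2)
    have hx2 := (Finset.mem_filter.1 hx).2
    obtain ⟨s, hs, rfl⟩ := hx2
    have hc := hcoord b y hy
    have hsb : blk s = b := hGss.1 hs
    refine ⟨s, hs, e.symm ⟨b, ⟨y, hy⟩⟩, hc.1, ?_, ?_⟩
    · intro h
      have := hmemG' _ h
      rw [hc.2] at this
      exact hyG this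
    · show d (f s) (f _) ≠ δ (lab (ph X (blk s)) (f s)) (lab (ph X (blk _)) (f _))
      rw [hc.1, hc.2, hsb]
      exact hd

theorem main (h1 : StV1) : StV7 := by
  intro C d hS hB
  obtain ⟨I, δ, B, lab, hB0, hmono, hdis, hcr, hlab, hcon⟩ := hB
  have hne : ∀ n, (B n).Nonempty := by
    intro n
    rcases Nat.eq_zero_or_pos n with h | h
    · rw [h]; exact hB0
    · have := hmono 0 n h
      exact Finset.card_pos.1 (by omega)
  have hcinj : ∀ m n, (B m).card = (B n).card → m = n := by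
    intro m n h
    rcases lt_trichotomy m n with h2 | h2 | h2
    · have := hmono m n h2; omega
    · exact h2
    · have := hmono n m h2; omega
  choose f hf hDD using step h1 d hS δ B lab hne hdis hcr hlab hcon
  refine ⟨f, hf, ?_⟩
  have key : ∀ X n, (B (2 * n + 1)).card ∈ DD (fun x y => d (f X x) (f X y)) ↔ n ∈ X := by
    intro X n
    rw [hDD X]
    constructor
    · rintro ⟨b, hb⟩
      have h2 := hcinj _ _ hb
      exact ((ph_mem X b n).1 h2.symm).2
    · intro hn
      exact ⟨n, by rw [(ph_mem X n n).2 ⟨rfl, hn⟩]⟩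
  intro X Y hXY h
  apply hXY
  ext n
  rw [← key X n, ← key Y n, h]

end Pool.Agent.Run7.h921.V7
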