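import Pool.Agent.Run7.h921.James

/-!
Weighted averages of rapidly increasing sequences.
-/

set_option autoImplicit false

open Finset Filter Topology

namespace Run7.h921

variable {V : Type*} [AddCommGroup V] [Module ℝ V] {C : Ctx V}

lemma ev_avg (c : ℝ) (n : ℕ) (Φ : ℕ → Fam V) (S : Finset ℕ) (U : V) :
    ev (fun a => c • ∑ t ∈ range n, Φ t a) S U = c * ∑ t ∈ range n, ev (Φ t) S U := by
  unfold ev
  rw [sum_comm, mul_sum]
  simp [mul_sum]

set_option maxHeartbeats 1000000 in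
lemma average {F : ℕ → V} (hD : Data C F) (j : ℕ) (hj : Even j) (ε : ℝ) (hε : 0 < ε) (N L0 : ℕ) :
    ∃ (Y : V) (L1 : ℕ), L0 ≤ L1 ∧ Cone F N Y ∧ Bd C Y 4 ∧ Win C Y L0 L1 ε ∧
      (∀ i φ, i ≠ j → K C (some i) φ → ∀ S, ev φ S Y ≤ 4 / pm (min i j)) ∧
      ∃ φ S, K C (some j) φ ∧ (∀ a, φ a ≠ 0 → L0 ≤ a ∧ a < L1) ∧ (1 / 4 : ℝ) ≤ ev φ S Y := by
  classical
  -- numerical preparations
  have hn0 : (0 : ℝ) < pn j := by exact_mod_cast pn_pos j
  have hm2 : (2 : ℝ) ≤ pm j := by exact_mod_cast two_le_pm j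
  have hm0 : (0 : ℝ) < pm j := by linarith
  set δ : ℝ := min (ε / pm j) (min (1 / 8) (1 / (2 * pn j))) with hδ
  have hδ0 : 0 < δ := lt_min (by positivity) (lt_min (by norm_num) (by positivity))
  have hδ8 : δ ≤ 1 / 8 := (min_le_right _ _).trans (min_le_left _ _)
  have hδn : δ ≤ 1 / (2 * pn j) := (min_le_right _ _).trans (min_le_right _ _)
  have hδε : δ ≤ ε / pm j := min_le_left _ _
  have hδn' : 2 * δ * pn j ≤ 1 := by
    have : 2 * δ * pn j ≤ 2 * (1 / (2 * pn j)) * pn j := by gcongr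
    have h2 : 2 * (1 / (2 * (pn j : ℝ))) * pn j = 1 := by field_simp
    linarith
  obtain ⟨x, y, hx0, hxy⟩ := chain (σ := ℕ × ℕ) (τ := V × Option ℕ × Fam V × Finset ℕ)
    (fun _ => True)
    (fun s s' y => s.1 ≤ s'.1 ∧ s.2 < s'.2 ∧ s.1 * pn j ≤ pm s'.2 ∧ Cone F N y.1 ∧ Bd C y.1 1 ∧
      Win C y.1 s.1 s'.1 δ ∧
      (∀ i φ, i ≤ s'.2 → K C (some i) φ → ∀ S, ev φ S y.1 ≤ 2 / pm i + 2 * δ) ∧
      K C y.2.1 y.2.2.1 ∧ (∀ a, y.2.2.1 a ≠ 0 → s.1 ≤ a ∧ a < s'.1) ∧
      (1 / 4 : ℝ) ≤ ev y.2.2.1 y.2.2.2 y.1) (L0, j) trivial (by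
      rintro ⟨Λ, ι⟩ _
      set ι' := max (ι + 1) (Λ * pn j) with hι'
      obtain ⟨U, L1, h1, h2, h3, h4, h5, w, φ, S, h6, h7, h8⟩ := ublock hD δ hδ0 hδ8 ι' N Λ
      refine ⟨(L1, ι'), (U, w, φ, S), trivial, h1, ?_, ?_, h2, h3, h4, h5, h6, h7, h8⟩
      · exact lt_of_lt_of_le (Nat.lt_succ_self _) (le_max_left _ _)
      · exact (le_max_right _ _).trans (self_le_pm _))
  set Λ : ℕ → ℕ := fun s => (x s).1 with hΛ
  set ι : ℕ → ℕ := fun s => (x (s + 1)).2 with hι
  set U : ℕ → V := fun s => (y s).1 with hU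
  have hx : ∀ s, Λ s ≤ Λ (s + 1) := fun s => (hxy s).2.1
  have hΛmono : Monotone Λ := monotone_nat_of_le_succ hx
  have hx2 : StrictMono (fun s => (x s).2) := strictMono_nat_of_lt_succ (fun s => (hxy s).2.2.1)
  have hιmono : StrictMono ι := fun a b h => hx2 (by omega : a + 1 < b + 1)
  have hΛ0 : Λ 0 = L0 := by simp only [hΛ]; rw [hx0]
  have hιΛ : ∀ s, Λ (s + 1) * pn j ≤ pm (ι (s + 1)) := fun s => (hxy (s + 1)).2.2.2.1
  have hUcone : ∀ s, Cone F N (U s) := fun s => (hxy s).2.2.2.2.1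
  have hUbd : ∀ s, Bd C (U s) 1 := fun s => (hxy s).2.2.2.2.2.1
  have hUwin : ∀ s, Win C (U s) (Λ s) (Λ (s + 1)) δ := fun s => (hxy s).2.2.2.2.2.2.1
  have hUsmall : ∀ s i φ, i ≤ ι s → K C (some i) φ → ∀ S, ev φ S (U s) ≤ 2 / pm i + 2 * δ :=
    fun s => (hxy s).2.2.2.2.2.2.2.1
  have hUK : ∀ s, K C (y s).2.1 (y s).2.2.1 := fun s => (hxy s).2.2.2.2.2.2.2.2.1
  have hUsupp : ∀ s, ∀ a, (y s).2.2.1 a ≠ 0 → Λ s ≤ a ∧ a < Λ (s + 1) :=
    fun s => (hxy s).2.2.2.2.2.2.2.2.2.1
  have hUev : ∀ s, (1 / 4 : ℝ) ≤ ev (y s).2.2.1 (y s).2.2.2 (U s) :=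
    fun s => (hxy s).2.2.2.2.2.2.2.2.2.2
  have hUpos : ∀ s, U s ∈ C.pos := fun s => (hUcone s).pos hD.pos
  -- RIS estimate
  have ris : ∀ i φ, K C (some i) φ → ∀ S J, J ⊆ range (pn j) →
      ∑ s ∈ J, ev φ S (U s) ≤ 2 * J.card / pm i + 3 := by
    intro i φ hφ S J hJ
    have hmi : (0 : ℝ) < pm i := by exact_mod_cast pm_pos i
    have key : ∀ s ∈ J, ev φ S (U s) ≤ (2 / pm i + 2 * δ + 1 / pn j) +
        (if ι s < i ∧ i < ι (s + 1) then 1 else 0) := by
      intro s _
      have hpos1 : (0 : ℝ) < 1 / pn j := by positivity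
      have hpos2 : (0 : ℝ) < 2 / pm i := by positivity
      by_cases h1 : i ≤ ι s
      · have h2 := hUsmall s i φ h1 hφ S
        have h3 : ¬ (ι s < i ∧ i < ι (s + 1)) := by omega
        rw [if_neg h3]
        linarith
      · by_cases h2 : i < ι (s + 1)
        · have h3 : (ι s < i ∧ i < ι (s + 1)) := by omega
          rw [if_pos h3]
          have := hUbd s _ _ hφ S
          linarith
        · have h3 : ¬ (ι s < i ∧ i < ι (s + 1)) := by omega
          rw [if_neg h3]
          have h4 := Win.ev_le hφ (hx s) (hUwin s) S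
          have h5 : ev φ (S.filter (fun a => Λ s ≤ a ∧ a < Λ (s + 1))) (U s) ≤ 1 / pn j := by
            have h6 : ev φ (S.filter (fun a => Λ s ≤ a ∧ a < Λ (s + 1))) (U s) ≤
                ∑ a ∈ (S.filter (fun a => Λ s ≤ a ∧ a < Λ (s + 1))), (1 : ℝ) / pm i :=
              sum_le_sum (fun a _ => Bd.single hφ (hUpos s) (hUbd s) a)
            rw [sum_const, nsmul_eq_mul] at h6
            have h7 : ((S.filter (fun a => Λ s ≤ a ∧ a < Λ (s + 1))).card : ℝ) ≤ Λ (s + 1) := by
              have : (S.filter (fun a => Λ s ≤ a ∧ a < Λ (s + 1))).card ≤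
                  (range (Λ (s + 1))).card := by
                refine card_le_card (fun a ha => ?_)
                exact mem_range.mpr (mem_filter.mp ha).2.2
              rw [card_range] at this
              exact_mod_cast this
            have h8 : (Λ (s + 1) : ℝ) * pn j ≤ pm i := by
              have : Λ (s + 1) * pn j ≤ pm i := (hιΛ s).trans (pm_mono (not_lt.mp h2))
              exact_mod_cast this
            refine h6.trans ?_
            rw [mul_one_div, div_le_div_iff₀ hmi hn0]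
            nlinarith
          linarith
    refine (sum_le_sum key).trans ?_
    rw [sum_add_distrib, sum_const, nsmul_eq_mul, ← sum_filter, sum_const, nsmul_eq_mul, mul_one]
    have hcard : ((J.filter (fun s => ι s < i ∧ i < ι (s + 1))).card : ℝ) ≤ 1 := by
      have : (J.filter (fun s => ι s < i ∧ i < ι (s + 1))).card ≤ 1 := by
        rw [card_le_one]
        intro s hs t ht
        have hs' := (mem_filter.mp hs).2
        have ht' := (mem_filter.mp ht).2
        by_contra hne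
        rcases lt_or_gt_of_ne hne with h1 | h1
        · have : ι (s + 1) ≤ ι t := hιmono.monotone h1
          omega
        · have : ι (t + 1) ≤ ι s := hιmono.monotone h1
          omega
      exact_mod_cast this
    have hJc : (J.card : ℝ) ≤ pn j := by
      have := card_le_card hJ
      rw [card_range] at this
      exact_mod_cast this
    have h9 : (J.card : ℝ) * (2 * δ) ≤ 1 := by
      have : (J.card : ℝ) * (2 * δ) ≤ pn j * (2 * δ) := mul_le_mul_of_nonneg_right hJc (by positivity)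
      linarith
    have h10 : (J.card : ℝ) * (1 / pn j) ≤ 1 := by
      rw [mul_one_div, div_le_one hn0]
      exact hJc
    have h11 : (J.card : ℝ) * (2 / pm i + 2 * δ + 1 / pn j) =
      2 * J.card / pm i + J.card * (2 * δ) + J.card * (1 / pn j) := by ring
    linarith
  -- the average
  set Y : V := ((pm j : ℝ) / pn j) • ∑ s ∈ range (pn j), U s with hY
  have hYcone : Cone F N Y := (Cone.sum _ _ (fun s _ => hUcone s)).smul (by positivity)
  -- constants
  set ν : ℕ := pnu j with hνdef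
  have hν1 : 1 ≤ ν := one_le_pnu j
  have hν1' : (1 : ℝ) ≤ ν := by exact_mod_cast hν1
  set P : ℝ := (2 * (ν : ℝ)) ^ (2 * pm j) with hP
  have hP1 : 1 ≤ P := one_le_pow₀ (by linarith)
  have hnP : (pn j : ℝ) = 8 * (pm j : ℝ) ^ 2 * (P * (2 * ν)) := by
    rw [hP, ← pow_succ]
    unfold pn
    push_cast
    rfl
  have hd : (4 * pm j : ℝ) ≤ 2 ^ (2 * pm j) := by
    exact_mod_cast (four_mul_lt_pow _ (two_le_pm j)).le
  have hpownz : (0 : ℝ) < 2 ^ (2 * pm j) := by positivity
  have hd' : (pm j : ℝ) / 2 ^ (2 * pm j) ≤ 1 / 4 := by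
    rw [div_le_div_iff₀ hpownz (by norm_num)]
    linarith
  have hbig : ∀ i, j ≤ i → ∀ φ, K C (some i) φ → ∀ S J, J ⊆ range (pn j) →
      ∑ s ∈ J, ev φ S (U s) ≤ (2 / pm j) * J.card + 3 := by
    intro i hi φ hφ S J hJ
    refine (ris i φ hφ S J hJ).trans ?_
    have h1 : (pm j : ℝ) ≤ pm i := by exact_mod_cast pm_mono hi
    have h2 : 2 * (J.card : ℝ) / pm i ≤ 2 * J.card / pm j :=
      div_le_div_of_nonneg_left (by positivity) hm0 h1
    have h3 : 2 * (J.card : ℝ) / pm j = (2 / pm j) * J.card := by ring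
    linarith
  have hεJ : 2 * δ * ((range (pn j)).card : ℝ) ≤ 1 := by rw [card_range]; exact hδn'
  have hG := lemG (i0 := j) (ν := ν) (fun i hi => pn_le_pnu hi) hν1 U Λ hΛmono (range (pn j)) 1 δ
    (2 / pm j) 3 zero_le_one hδ0.le (by positivity) (by norm_num) hεJ (fun s _ => hUpos s)
    (fun s _ => hUbd s) (fun s _ => hUwin s) hbig (2 * pm j)
  have hcoef : (0 : ℝ) < (pm j : ℝ) / pn j := by positivity
  have hmpn : 8 * (pm j : ℝ) ^ 2 * (2 * P) ≤ pn j := by
    rw [hnP]
    have : 2 * P ≤ P * (2 * ν) := by nlinarith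
    exact mul_le_mul_of_nonneg_left this (by positivity)
  have hYbd : Bd C Y 4 := by
    intro w φ hφ S
    rw [hY, ev_smul, ev_sum]
    have h1 := hG w φ hφ S (range (pn j)) (Subset.refl _)
    rw [card_range] at h1
    have h2 := mul_le_mul_of_nonneg_left h1 hcoef.le
    refine h2.trans ?_
    have h3 : (pm j : ℝ) / pn j * (2 / pm j * pn j + 1 * pn j / 2 ^ (2 * pm j) +
        3 * (2 * ν) ^ (2 * pm j)) = 2 + pm j / 2 ^ (2 * pm j) + 3 * pm j * P / pn j := by
      rw [hP]
      field_simp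
    rw [h3]
    have h4 : 3 * pm j * P / pn j ≤ 1 := by
      rw [div_le_one hn0]
      nlinarith [mul_pos hm0 (lt_of_lt_of_le one_pos hP1)]
    linarith
  have hYwin : Win C Y L0 (Λ (pn j)) ε := by
    have haux : ∀ (φ : Fam V) (S : Finset ℕ), (∀ s, s < pn j → ev φ S (U s) ≤ δ) →
        ev φ S Y ≤ ε := by
      intro φ S h
      rw [hY, ev_smul, ev_sum]
      have h1 : ∑ s ∈ range (pn j), ev φ S (U s) ≤ ∑ s ∈ range (pn j), δ :=
        sum_le_sum (fun r hr => h r (mem_range.mp hr))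
      rw [sum_const, card_range, nsmul_eq_mul] at h1
      have h2 := mul_le_mul_of_nonneg_left h1 hcoef.le
      have h3 : (pm j : ℝ) / pn j * (pn j * δ) = pm j * δ := by field_simp
      have h4 : pm j * δ ≤ ε := by
        have := mul_le_mul_of_nonneg_left hδε hm0.le
        have h5 : (pm j : ℝ) * (ε / pm j) = ε := by field_simp
        linarith
      linarith
    constructor
    · intro w φ hφ S hS
      refine haux φ S (fun s _ => (hUwin s).1 w φ hφ S (fun a ha => ?_))
      have h1 : L0 ≤ Λ s := by rw [← hΛ0]; exact hΛmono (Nat.zero_le _)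
      exact (hS a ha).trans_le h1
    · intro w φ hφ S hS
      refine haux φ S (fun s hs => (hUwin s).2 w φ hφ S (fun a ha => ?_))
      exact (hΛmono (by omega : s + 1 ≤ pn j)).trans (hS a ha)
  refine ⟨Y, Λ (pn j), ?_, hYcone, hYbd, hYwin, ?_, ?_⟩
  · rw [← hΛ0]; exact hΛmono (Nat.zero_le _)
  · intro i φ hij hφ S
    have hmi : (0 : ℝ) < pm i := by exact_mod_cast pm_pos i
    rcases lt_or_gt_of_ne hij with hlt | hgt
    · rw [min_eq_left hlt.le]
      have h1 := lemG_step (i0 := j) (ν := ν) (fun i hi => pn_le_pnu hi) hν1 U Λ hΛmono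
        (range (pn j)) 1 δ (2 / pm j) 3 zero_le_one hδ0.le (by positivity) (by norm_num) hεJ
        (fun s _ => hUpos s) (fun s _ => hUbd s) (fun s _ => hUwin s) (2 * pm j) hG i hlt φ hφ S
        (range (pn j)) (Subset.refl _)
      rw [card_range] at h1
      rw [hY, ev_smul, ev_sum]
      have h2 := mul_le_mul_of_nonneg_left h1 hcoef.le
      refine h2.trans ?_
      have h3 : (pm j : ℝ) / pn j * ((2 / pm j * pn j + 1 * pn j / 2 ^ (2 * pm j)) / pm i +
          3 * (2 * ν) ^ (2 * pm j + 1)) =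
          (2 + pm j / 2 ^ (2 * pm j)) / pm i + 3 * pm j * (P * (2 * ν)) / pn j := by
        rw [hP, pow_succ]
        field_simp
      rw [h3]
      have h4 : 3 * pm j * (P * (2 * ν)) / pn j = 3 / (8 * pm j) := by
        rw [hnP]
        have : P * (2 * ν) ≠ 0 := by positivity
        field_simp
      rw [h4]
      have h5 : (2 + pm j / 2 ^ (2 * pm j)) / (pm i : ℝ) ≤ (2 + 1 / 4) / pm i := by gcongr
      have hmij : (pm i : ℝ) ≤ pm j := by exact_mod_cast pm_mono hlt.le
      have h6 : 3 / (8 * (pm j : ℝ)) ≤ 1 / pm i := by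
        rw [div_le_div_iff₀ (by positivity) hmi]
        linarith
      have h7 : (4 : ℝ) / pm i = 3 / pm i + 1 / pm i := by ring
      have h8 : (2 + 1 / 4 : ℝ) / pm i ≤ 3 / pm i := by gcongr; norm_num
      linarith
    · rw [min_eq_right hgt.le]
      have h1 := ris i φ hφ S (range (pn j)) (Subset.refl _)
      rw [card_range] at h1
      rw [hY, ev_smul, ev_sum]
      have h2 := mul_le_mul_of_nonneg_left h1 hcoef.le
      refine h2.trans ?_
      have h3 : (pm j : ℝ) / pn j * (2 * pn j / pm i + 3) = 2 * pm j / pm i + 3 * pm j / pn j := by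
        field_simp
      rw [h3]
      have h4 : (pn j : ℝ) ^ 2 ≤ pm i := by exact_mod_cast pn_sq_le_pm hgt
      have h5 : 8 * (pm j : ℝ) ^ 2 ≤ pn j := by exact_mod_cast pn_ge_pm_sq j
      have h41 : (1 : ℝ) ≤ pn j := by exact_mod_cast pn_pos j
      have h42 : (pn j : ℝ) ≤ (pn j : ℝ) ^ 2 := by nlinarith
      have h6 : 2 * (pm j : ℝ) / pm i ≤ 1 / pm j := by
        rw [div_le_div_iff₀ hmi hm0]
        nlinarith
      have h7 : 3 * (pm j : ℝ) / pn j ≤ 1 / pm j := by
        rw [div_le_div_iff₀ hn0 hm0]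
        nlinarith
      have h8 : (4 : ℝ) / pm j = 1 / pm j + 1 / pm j + 2 / pm j := by ring
      have h9 : (0 : ℝ) < 2 / pm j := by positivity
      linarith
  · -- the norming functional
    have hsucc : ∀ s t, s < t → t < pn j → FSucc ((y s).2.2.1) ((y t).2.2.1) := by
      intro s t hst _ a b ha hb
      have h1 := hUsupp s a ha
      have h2 := hUsupp t b hb
      have h3 : Λ (s + 1) ≤ Λ t := hΛmono hst
      omega
    refine ⟨fun a => (1 / (pm j : ℝ)) • ∑ s ∈ range (pn j), (y s).2.2.1 a,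
      (range (pn j)).biUnion (fun s => (y s).2.2.2),
      K.ord j (pn j) hj le_rfl (fun s => (y s).2.1) (fun s => (y s).2.2.1) (fun s _ => hUK s) hsucc,
      ?_, ?_⟩
    · intro a ha
      have : ∃ s ∈ range (pn j), (y s).2.2.1 a ≠ 0 := by
        by_contra hcon
        push Not at hcon
        apply ha
        show (1 / (pm j : ℝ)) • ∑ s ∈ range (pn j), (y s).2.2.1 a = 0
        rw [sum_eq_zero hcon, smul_zero]
      obtain ⟨s, hs, hsa⟩ := this
      have h1 := hUsupp s a hsa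
      have h2 : L0 ≤ Λ s := by rw [← hΛ0]; exact hΛmono (Nat.zero_le _)
      have h3 : Λ (s + 1) ≤ Λ (pn j) := hΛmono (by have := mem_range.mp hs; omega)
      omega
    · set S' := (range (pn j)).biUnion (fun s => (y s).2.2.2) with hS'
      have h1 : ev (fun a => (1 / (pm j : ℝ)) • ∑ s ∈ range (pn j), (y s).2.2.1 a) S' Y =
          (1 / (pm j : ℝ)) * ∑ s ∈ range (pn j), ev ((y s).2.2.1) S' Y :=
        ev_avg _ _ (fun s => (y s).2.2.1) _ _
      rw [h1]
      have h2 : ∀ s ∈ range (pn j), (pm j : ℝ) / pn j * (1 / 4) ≤ ev ((y s).2.2.1) S' Y := by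
        intro s hs
        rw [hY, ev_smul, ev_sum]
        refine mul_le_mul_of_nonneg_left ?_ hcoef.le
        refine (hUev s).trans ?_
        refine ((hUK s).ev_mono_set (S' := S') ?_ (hUpos s)).trans ?_
        · exact subset_biUnion_of_mem (fun s => (y s).2.2.2) hs
        · exact single_le_sum (f := fun s' => ev ((y s).2.2.1) S' (U s'))
            (fun s' _ => (hUK s).ev_nonneg S' (hUpos s')) hs
      have h3 := sum_le_sum h2
      rw [sum_const, card_range, nsmul_eq_mul] at h3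
      have h4 : (1 / (pm j : ℝ)) * (pn j * (pm j / pn j * (1 / 4))) = 1 / 4 := by field_simp
      calc (1 / 4 : ℝ) = (1 / (pm j : ℝ)) * (pn j * (pm j / pn j * (1 / 4))) := h4.symm
        _ ≤ _ := mul_le_mul_of_nonneg_left h3 (by positivity)

end Run7.h921
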