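import Pool.Agent.Run7.h921.WDense

/-!
The Cantor probability space and the Rademacher functions.
-/

set_option autoImplicit false
set_option linter.unusedSectionVars false

open MeasureTheory Filter Topology ProbabilityTheory

namespace Run7.h921

/-- fair coin -/
noncomputable def coin : Measure Bool :=
  (2 : ENNReal)⁻¹ • Measure.dirac true + (2 : ENNReal)⁻¹ • Measure.dirac false

instance : IsProbabilityMeasure coin := ⟨by
  unfold coin
  simp [ENNReal.inv_two_add_inv_two]⟩

/-- the Cantor space -/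
abbrev CS : Type := ℕ → Bool

/-- the product measure -/
noncomputable def cm : Measure CS := Measure.infinitePi (fun _ => coin)

instance : IsProbabilityMeasure cm := by unfold cm; infer_instance

/-- the sign of a bit -/
noncomputable def rs (b : Bool) : ℝ := if b then -1 else 1

/-- Rademacher functions -/
noncomputable def rad (l : ℕ) (ω : CS) : ℝ := rs (ω l)

lemma rs_measurable : Measurable rs := measurable_of_finite _

lemma rad_measurable (l : ℕ) : Measurable (rad l) :=
  rs_measurable.comp (measurable_pi_apply l)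

lemma rad_abs (l : ℕ) (ω : CS) : |rad l ω| = 1 := by
  unfold rad rs
  split_ifs <;> simp

lemma rad_mul_self (l : ℕ) (ω : CS) : rad l ω * rad l ω = 1 := by
  unfold rad rs
  split_ifs <;> simp

lemma rad_bm (l : ℕ) : BM (rad l) := ⟨rad_measurable l, 1, fun ω => (rad_abs l ω).le⟩

lemma integral_rs : ∫ b, rs b ∂coin = 0 := by
  unfold coin
  rw [integral_add_measure, integral_smul_measure, integral_smul_measure, integral_dirac,
    integral_dirac]
  · simp [rs]
  · exact (integrable_dirac (by simp)).smul_measure (by simp)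
  · exact (integrable_dirac (by simp)).smul_measure (by simp)

lemma integral_rad (l : ℕ) : ∫ ω, rad l ω ∂cm = 0 := by
  have h := (measurePreserving_eval_infinitePi (fun _ : ℕ => coin) l)
  have h2 : ∫ b, rs b ∂coin = ∫ ω, rs (ω l) ∂cm := by
    have h3 : coin = cm.map (Function.eval l) := h.map_eq.symm
    rw [h3, integral_map h.measurable.aemeasurable
      rs_measurable.aestronglyMeasurable]
  unfold rad
  rw [← h2, integral_rs]

lemma integral_rad_mul {l k : ℕ} (h : l ≠ k) : ∫ ω, rad l ω * rad k ω ∂cm = 0 := by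
  have h1 : iIndepFun (fun (i : ℕ) (ω : CS) => rs (ω i)) cm :=
    iIndepFun_infinitePi (P := fun _ => coin) (X := fun _ => rs) (fun _ => rs_measurable)
  have h2 : IndepFun (rad l) (rad k) cm := h1.indepFun h
  rw [h2.integral_fun_mul_eq_mul_integral (rad_measurable l).aestronglyMeasurable
    (rad_measurable k).aestronglyMeasurable, integral_rad, zero_mul]

/-- the Rademacher functions in `L²` -/
noncomputable def rv (l : ℕ) : HH cm := mulL cm (rad l) (oneH cm)

lemma rv_ae (l : ℕ) : (rv l : CS → ℝ) =ᵐ[cm] rad l := by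
  filter_upwards [mulL_ae (rad_bm l) (oneH cm), oneH_ae (μ := cm)] with ω h1 h2
  unfold rv
  rw [h1, h2, mul_one]

lemma rv_orthonormal : Orthonormal ℝ rv := by
  constructor
  · intro l
    have h1 : ‖rv l‖ ^ 2 = 1 := by
      rw [norm_sq_eq]
      have : ∫ ω, (rv l ω) ^ 2 ∂cm = ∫ _ω, (1 : ℝ) ∂cm := by
        apply integral_congr_ae
        filter_upwards [rv_ae l] with ω h
        rw [h, pow_two, rad_mul_self]
      rw [this]
      simp
    have h2 : 0 ≤ ‖rv l‖ := norm_nonneg _
    nlinarith
  · intro l k h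
    rw [inner_eq]
    rw [← integral_rad_mul h]
    apply integral_congr_ae
    filter_upwards [rv_ae l, rv_ae k] with ω h1 h2
    rw [h1, h2]

lemma rv_tendsto (G : HH cm) : Tendsto (fun l => inner ℝ (rv l) G) atTop (𝓝 0) := by
  have h1 := (rv_orthonormal.inner_products_summable (x := G)).tendsto_atTop_zero
  rw [Metric.tendsto_atTop]
  intro ε hε
  obtain ⟨N, hN⟩ := (Metric.tendsto_atTop.mp h1) (ε ^ 2) (by positivity)
  refine ⟨N, fun n hn => ?_⟩
  have h2 := hN n hn
  rw [Real.dist_eq, sub_zero] at h2 ⊢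
  rw [abs_of_nonneg (by positivity), Real.norm_eq_abs] at h2
  exact lt_of_pow_lt_pow_left₀ 2 hε.le h2

/-- the Rademacher functions tend weakly to zero -/
theorem rad_tendsto (G : CS → ℝ) (hG : Integrable G cm) :
    Tendsto (fun l => ∫ ω, rad l ω * G ω ∂cm) atTop (𝓝 0) := by
  -- it is enough to consider strongly measurable G
  wlog hGm : Measurable G generalizing G with H
  · have h1 : Integrable (hG.1.mk G) cm := hG.congr hG.1.ae_eq_mk
    have h2 := H _ h1 hG.1.stronglyMeasurable_mk.measurable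
    refine h2.congr (fun l => ?_)
    apply integral_congr_ae
    filter_upwards [hG.1.ae_eq_mk] with ω h
    rw [h]
  -- truncation
  let Gk : ℕ → CS → ℝ := fun k => ({ω | |G ω| ≤ (k : ℝ)} : Set CS).indicator G
  have hset : ∀ k : ℕ, MeasurableSet {ω | |G ω| ≤ (k : ℝ)} := fun k =>
    measurableSet_le hGm.abs measurable_const
  have hGk : ∀ k, BM (Gk k) := by
    intro k
    refine ⟨hGm.indicator (hset k), k, fun ω => ?_⟩
    by_cases h : ω ∈ {ω | |G ω| ≤ (k : ℝ)}
    · simp only [Gk]
      rw [Set.indicator_of_mem h]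
      exact h
    · simp only [Gk]
      rw [Set.indicator_of_notMem h, abs_zero]
      exact Nat.cast_nonneg k
  have hdct : Tendsto (fun k => ∫ ω, |G ω - Gk k ω| ∂cm) atTop (𝓝 0) := by
    have h0 : (0 : ℝ) = ∫ _ω : CS, (0 : ℝ) ∂cm := by simp
    rw [h0]
    apply tendsto_integral_of_dominated_convergence (fun ω => |G ω|)
    · intro k
      exact (hGm.sub (hGk k).1).abs.aestronglyMeasurable
    · exact hG.abs
    · intro k
      refine Eventually.of_forall (fun ω => ?_)
      rw [Real.norm_eq_abs, abs_abs]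
      by_cases h : ω ∈ {ω | |G ω| ≤ (k : ℝ)}
      · simp only [Gk]
        rw [Set.indicator_of_mem h, sub_self, abs_zero]
        exact abs_nonneg _
      · simp only [Gk]
        rw [Set.indicator_of_notMem h, sub_zero]
    · refine Eventually.of_forall (fun ω => ?_)
      obtain ⟨k0, hk0⟩ := exists_nat_ge |G ω|
      apply tendsto_const_nhds.congr'
      filter_upwards [eventually_ge_atTop k0] with k hk
      have h : ω ∈ {ω | |G ω| ≤ (k : ℝ)} := by
        have : (k0 : ℝ) ≤ k := by exact_mod_cast hk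
        exact hk0.trans this
      simp only [Gk]
      rw [Set.indicator_of_mem h, sub_self, abs_zero]
  rw [Metric.tendsto_atTop]
  intro ε hε
  obtain ⟨k, hk⟩ := (Metric.tendsto_atTop.mp hdct (ε / 2) (by linarith))
  have hk' := hk k le_rfl
  rw [Real.dist_eq, sub_zero] at hk'
  have hk'' : ∫ ω, |G ω - Gk k ω| ∂cm < ε / 2 := (le_abs_self _).trans_lt hk'
  set g : HH cm := mulL cm (Gk k) (oneH cm) with hg
  have hgae : (g : CS → ℝ) =ᵐ[cm] Gk k := by
    filter_upwards [mulL_ae (hGk k) (oneH cm), oneH_ae (μ := cm)] with ω h1 h2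
    rw [h1, h2, mul_one]
  obtain ⟨N, hN⟩ := Metric.tendsto_atTop.mp (rv_tendsto g) (ε / 2) (by linarith)
  refine ⟨N, fun l hl => ?_⟩
  have h1 := hN l hl
  rw [Real.dist_eq, sub_zero] at h1 ⊢
  have h2 : inner ℝ (rv l) g = ∫ ω, rad l ω * Gk k ω ∂cm := by
    rw [inner_eq]
    apply integral_congr_ae
    filter_upwards [rv_ae l, hgae] with ω h1 h2
    rw [h1, h2]
  have hGkint : Integrable (Gk k) cm := hG.indicator (hset k)
  have hi1 : Integrable (fun ω => rad l ω * Gk k ω) cm :=
    hGkint.bdd_mul (c := 1) (rad_measurable l).aestronglyMeasurable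
      (Eventually.of_forall (fun ω => by rw [Real.norm_eq_abs, rad_abs]))
  have hi2 : Integrable (fun ω => rad l ω * (G ω - Gk k ω)) cm :=
    (hG.sub hGkint).bdd_mul (c := 1) (rad_measurable l).aestronglyMeasurable
      (Eventually.of_forall (fun ω => by rw [Real.norm_eq_abs, rad_abs]))
  have h3 : ∫ ω, rad l ω * G ω ∂cm =
      ∫ ω, rad l ω * Gk k ω ∂cm + ∫ ω, rad l ω * (G ω - Gk k ω) ∂cm := by
    rw [← integral_add hi1 hi2]
    apply integral_congr_ae
    refine Eventually.of_forall (fun ω => ?_)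
    simp only
    ring
  have h4 : |∫ ω, rad l ω * (G ω - Gk k ω) ∂cm| ≤ ∫ ω, |G ω - Gk k ω| ∂cm := by
    refine (abs_integral_le_integral_abs).trans (le_of_eq ?_)
    apply integral_congr_ae
    refine Eventually.of_forall (fun ω => ?_)
    simp only
    rw [abs_mul, rad_abs, one_mul]
  rw [h3, ← h2]
  refine (abs_add_le _ _).trans_lt ?_
  linarith

/-- functionals on `E` vanish asymptotically on `x r_l` -/
theorem E_rad_tendsto {s : WSys cm} (l : s.E →L[ℝ] ℝ) (x : s.E) :
    Tendsto (fun n => l (mulE s (rad n) x)) atTop (𝓝 0) := by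
  rw [Metric.tendsto_atTop]
  intro ε hε
  obtain ⟨g, hg⟩ := dense_JL l (ε / (2 * (‖x‖ + 1))) (by positivity)
  have hint : Integrable (fun ω => g ω * WSys.toH x ω) cm := integrable_mul_HH g (WSys.toH x)
  obtain ⟨N, hN⟩ := Metric.tendsto_atTop.mp (rad_tendsto _ hint) (ε / 2) (by linarith)
  refine ⟨N, fun n hn => ?_⟩
  have h1 := hN n hn
  rw [Real.dist_eq, sub_zero] at h1 ⊢
  have h2 : JL s g (mulE s (rad n) x) = ∫ ω, rad n ω * (g ω * WSys.toH x ω) ∂cm := by
    rw [JL_apply, inner_eq]
    apply integral_congr_ae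
    filter_upwards [mulE_ae (rad_bm n) x] with ω h
    rw [h]
    ring
  have h3 := hg (mulE s (rad n) x)
  have h4 : ‖mulE s (rad n) x‖ ≤ ‖x‖ := by
    have := mulE_norm_le (rad_bm n) zero_le_one (fun ω => (rad_abs n ω).le) x
    rwa [one_mul] at this
  rw [← h2] at h1
  have h5 : ε / (2 * (‖x‖ + 1)) * ‖mulE s (rad n) x‖ ≤ ε / (2 * (‖x‖ + 1)) * (‖x‖ + 1) :=
    mul_le_mul_of_nonneg_left (by linarith) (by positivity)
  have h6 : ε / (2 * (‖x‖ + 1)) * (‖x‖ + 1) = ε / 2 := by
    have : ‖x‖ + 1 ≠ 0 := by positivity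
    field_simp
  have h7 : |l (mulE s (rad n) x)| ≤ |l (mulE s (rad n) x) - JL s g (mulE s (rad n) x)| +
      |JL s g (mulE s (rad n) x)| := by
    have : l (mulE s (rad n) x) = (l (mulE s (rad n) x) - JL s g (mulE s (rad n) x)) +
      JL s g (mulE s (rad n) x) := by ring
    calc |l (mulE s (rad n) x)| = |(l (mulE s (rad n) x) - JL s g (mulE s (rad n) x)) +
          JL s g (mulE s (rad n) x)| := by rw [← this]
      _ ≤ _ := abs_add_le _ _
  linarith

end Run7.h921
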