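import Pool.Agent.Run7.h921.KSet

/-!
Splitting lemma and the basic iteration lemma.
-/

set_option autoImplicit false

open Finset Filter Topology

namespace Run7.h921

variable {V : Type*} [AddCommGroup V] [Module ℝ V] {C : Ctx V}

/-- small to the left of `L` -/
def WinL (C : Ctx V) (U : V) (L : ℕ) (ε : ℝ) : Prop :=
  ∀ w φ, K C w φ → ∀ S : Finset ℕ, (∀ a ∈ S, a < L) → ev φ S U ≤ ε

/-- small to the right of `L` -/
def WinR (C : Ctx V) (U : V) (L : ℕ) (ε : ℝ) : Prop :=
  ∀ w φ, K C w φ → ∀ S : Finset ℕ, (∀ a ∈ S, L ≤ a) → ev φ S U ≤ ε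

/-- essentially living in the window `[L, L')` -/
def Win (C : Ctx V) (U : V) (L L' : ℕ) (ε : ℝ) : Prop := WinL C U L ε ∧ WinR C U L' ε

lemma WinL.anti {U : V} {L L1 : ℕ} {ε : ℝ} (h : WinL C U L ε) (h1 : L1 ≤ L) : WinL C U L1 ε :=
  fun w φ hφ S hS => h w φ hφ S (fun a ha => lt_of_lt_of_le (hS a ha) h1)

lemma WinR.mono {U : V} {L L1 : ℕ} {ε : ℝ} (h : WinR C U L ε) (h1 : L ≤ L1) : WinR C U L1 ε :=
  fun w φ hφ S hS => h w φ hφ S (fun a ha => h1.trans (hS a ha))

lemma WinL.mono_eps {U : V} {L : ℕ} {ε ε' : ℝ} (h : WinL C U L ε) (h1 : ε ≤ ε') : WinL C U L ε' :=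
  fun w φ hφ S hS => (h w φ hφ S hS).trans h1

lemma WinR.mono_eps {U : V} {L : ℕ} {ε ε' : ℝ} (h : WinR C U L ε) (h1 : ε ≤ ε') : WinR C U L ε' :=
  fun w φ hφ S hS => (h w φ hφ S hS).trans h1

lemma Win.mono_eps {U : V} {L L' : ℕ} {ε ε' : ℝ} (h : Win C U L L' ε) (h1 : ε ≤ ε') :
    Win C U L L' ε' := ⟨h.1.mono_eps h1, h.2.mono_eps h1⟩

lemma Win.wide {U : V} {L L' L1 L1' : ℕ} {ε : ℝ} (h : Win C U L L' ε) (h1 : L1 ≤ L)
    (h2 : L' ≤ L1') : Win C U L1 L1' ε := ⟨h.1.anti h1, h.2.mono h2⟩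

/-- decomposition of an evaluation along a window -/
lemma ev_three (φ : Fam V) (S : Finset ℕ) (U : V) {L L' : ℕ} (hLL : L ≤ L') :
    ev φ S U = ev φ (S.filter (fun a => a < L)) U +
      ev φ (S.filter (fun a => L ≤ a ∧ a < L')) U + ev φ (S.filter (fun a => L' ≤ a)) U := by
  unfold ev
  simp only [sum_filter]
  rw [← sum_add_distrib, ← sum_add_distrib]
  refine sum_congr rfl (fun a _ => ?_)
  by_cases h1 : a < L
  · have h2 : ¬ (L ≤ a ∧ a < L') := by omega
    have h3 : ¬ (L' ≤ a) := by omega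
    simp [h1, h2, h3]
  · by_cases h4 : a < L'
    · have h2 : (L ≤ a ∧ a < L') := by omega
      have h3 : ¬ (L' ≤ a) := by omega
      simp [h1, h2, h3]
    · have h2 : ¬ (L ≤ a ∧ a < L') := by omega
      have h3 : (L' ≤ a) := by omega
      simp [h1, h2, h3]

lemma Win.ev_le {w : Option ℕ} {φ : Fam V} (h : K C w φ) {U : V} {L L' : ℕ} {ε : ℝ}
    (hLL : L ≤ L') (hw : Win C U L L' ε) (S : Finset ℕ) :
    ev φ S U ≤ 2 * ε + ev φ (S.filter (fun a => L ≤ a ∧ a < L')) U := by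
  rw [ev_three φ S U hLL]
  have h1 := hw.1 w φ h (S.filter (fun a => a < L)) (fun a ha => (mem_filter.mp ha).2)
  have h2 := hw.2 w φ h (S.filter (fun a => L' ≤ a)) (fun a ha => (mem_filter.mp ha).2)
  linarith

/-- base functionals -/
lemma K.none_form {φ : Fam V} (h : K C none φ) : ∃ l, ∃ f ∈ C.B l, φ = Pi.single l f := by
  cases h with
  | base l f hf => exact ⟨l, f, hf, rfl⟩

lemma none_sum {φ : Fam V} (h : K C none φ) (X : ℕ → V) (L : ℕ → ℕ) (hL : Monotone L)
    (J : Finset ℕ) (c ε : ℝ) (hc : 0 ≤ c) (hε : 0 ≤ ε)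
    (hbd : ∀ s ∈ J, Bd C (X s) c)
    (hwin : ∀ s ∈ J, Win C (X s) (L s) (L (s + 1)) ε) (S : Finset ℕ) :
    ∑ s ∈ J, ev φ S (X s) ≤ c + 2 * ε * J.card := by
  classical
  obtain ⟨l, f, hf, rfl⟩ := h.none_form
  have key : ∀ s ∈ J, ev (Pi.single l f) S (X s) ≤
      2 * ε + if (L s ≤ l ∧ l < L (s + 1)) then c else 0 := by
    intro s hs
    split_ifs with hl
    · have := hbd s hs _ _ h S
      linarith
    · refine (Win.ev_le h (hL (Nat.le_succ s)) (hwin s hs) S).trans ?_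
      have : ev (Pi.single l f) (S.filter (fun a => L s ≤ a ∧ a < L (s + 1))) (X s) = 0 := by
        unfold ev
        apply sum_eq_zero
        intro a ha
        have ha' := (mem_filter.mp ha).2
        have : a ≠ l := by
          rintro rfl
          exact hl ha'
        simp [Pi.single_eq_of_ne this]
      rw [this]
  refine (sum_le_sum key).trans ?_
  rw [sum_add_distrib, ← sum_filter]
  simp only [sum_const, nsmul_eq_mul]
  have hcard : (J.filter (fun s => L s ≤ l ∧ l < L (s + 1))).card ≤ 1 := by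
    rw [card_le_one]
    intro s hs t ht
    have hs' := (mem_filter.mp hs).2
    have ht' := (mem_filter.mp ht).2
    by_contra hne
    rcases lt_or_gt_of_ne hne with h1 | h1
    · have : L (s + 1) ≤ L t := hL h1
      omega
    · have : L (t + 1) ≤ L s := hL h1
      omega
  have hcard' : ((J.filter (fun s => L s ≤ l ∧ l < L (s + 1))).card : ℝ) ≤ 1 := by
    exact_mod_cast hcard
  nlinarith

/-- the splitting lemma -/
lemma split_lemma {i : ℕ} {φ : Fam V} (h : K C (some i) φ) (X : ℕ → V) (L : ℕ → ℕ)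
    (hL : Monotone L) (J : Finset ℕ) (c ε : ℝ) (hc : 0 ≤ c) (hε : 0 ≤ ε)
    (hpos : ∀ s ∈ J, X s ∈ C.pos) (hbd : ∀ s ∈ J, Bd C (X s) c)
    (hwin : ∀ s ∈ J, Win C (X s) (L s) (L (s + 1)) ε) (S : Finset ℕ) :
    ∃ (n : ℕ) (w : ℕ → Option ℕ) (ψ : ℕ → Fam V) (Jc : ℕ → Finset ℕ), n ≤ pn i ∧
      (∀ t, t < n → K C (w t) (ψ t)) ∧ (∀ t, Jc t ⊆ J) ∧
      (∑ t ∈ range n, (Jc t).card ≤ J.card) ∧
      ∑ s ∈ J, ev φ S (X s) ≤ c * pn i + 2 * ε * J.card +
        (1 / (pm i : ℝ)) * ∑ t ∈ range n, ∑ s ∈ Jc t, ev (ψ t) S (X s) := by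
  classical
  obtain ⟨n, w, ψ, hn, hψ, hs, hle⟩ := h.children
  let Cs : ℕ → Finset ℕ := fun s =>
    (range n).filter (fun t => ∃ a, L s ≤ a ∧ a < L (s + 1) ∧ ψ t a ≠ 0)
  let Jc : ℕ → Finset ℕ := fun t => J.filter (fun s => Cs s = {t})
  refine ⟨n, w, ψ, Jc, hn, hψ, fun t => filter_subset _ _, ?_, ?_⟩
  · -- disjointness of the Jc
    simp only [Jc, card_filter]
    rw [sum_comm, card_eq_sum_ones]
    refine sum_le_sum (fun s _ => ?_)
    rw [← card_filter, card_le_one]
    intro t ht t' ht'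
    have h1 := (mem_filter.mp ht).2
    have h2 := (mem_filter.mp ht').2
    exact singleton_injective (h1.symm.trans h2)
  · -- number of split indices
    have hcard : (J.filter (fun s => 2 ≤ (Cs s).card)).card ≤ n := by
      have : (J.filter (fun s => 2 ≤ (Cs s).card)).card ≤ (range n).card := by
        refine card_le_card_of_injOn
          (fun s => if hne : (Cs s).Nonempty then (Cs s).min' hne else 0) ?_ ?_
        · intro s hs
          have h2 : 2 ≤ (Cs s).card := (mem_filter.mp hs).2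
          have hne : (Cs s).Nonempty := card_pos.mp (by omega)
          simp only [hne, dif_pos]
          have := (Cs s).min'_mem hne
          exact (mem_filter.mp this).1
        · have aux : ∀ s s', 2 ≤ (Cs s).card → 2 ≤ (Cs s').card → s < s' →
              ∀ (hne : (Cs s).Nonempty) (hne' : (Cs s').Nonempty),
              (Cs s).min' hne ≠ (Cs s').min' hne' := by
            intro s s' h2 _ hlt hne hne' heq
            set t := (Cs s).min' hne with ht
            have htmem : t ∈ Cs s' := by rw [heq]; exact min'_mem _ _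
            obtain ⟨t', ht', htt'⟩ := exists_mem_ne (by omega : 1 < (Cs s).card) t
            have hlt' : t < t' := lt_of_le_of_ne (min'_le _ _ ht') (Ne.symm htt')
            obtain ⟨a, ha1, ha2, ha3⟩ := (mem_filter.mp ht').2
            obtain ⟨b, hb1, hb2, hb3⟩ := (mem_filter.mp htmem).2
            have h3 := hs t t' hlt' (mem_range.mp (mem_filter.mp ht').1) b a hb3 ha3
            have h4 : L (s + 1) ≤ L s' := hL hlt
            omega
          intro s hs1 s' hs1' heq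
          have h2 : 2 ≤ (Cs s).card := (mem_filter.mp hs1).2
          have h2' : 2 ≤ (Cs s').card := (mem_filter.mp hs1').2
          have hne : (Cs s).Nonempty := card_pos.mp (by omega)
          have hne' : (Cs s').Nonempty := card_pos.mp (by omega)
          simp only [hne, hne', dif_pos] at heq
          by_contra hne2
          rcases lt_or_gt_of_ne hne2 with h1 | h1
          · exact aux s s' h2 h2' h1 hne hne' heq
          · exact aux s' s h2' h2 h1 hne' hne heq.symm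
      simpa using this
    -- estimate for each s
    have hm : (0 : ℝ) < pm i := by exact_mod_cast pm_pos i
    have key : ∀ s ∈ J, ev φ S (X s) ≤ 2 * ε + (if 2 ≤ (Cs s).card then c else 0) +
        (1 / (pm i : ℝ)) * ∑ t ∈ range n, (if Cs s = {t} then ev (ψ t) S (X s) else 0) := by
      intro s hsJ
      have hnn : 0 ≤ (1 / (pm i : ℝ)) *
          ∑ t ∈ range n, (if Cs s = {t} then ev (ψ t) S (X s) else 0) := by
        refine mul_nonneg (by positivity) (sum_nonneg (fun t ht => ?_))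
        split_ifs
        · exact (hψ t (mem_range.mp ht)).ev_nonneg S (hpos s hsJ)
        · exact le_rfl
      by_cases h2 : 2 ≤ (Cs s).card
      · rw [if_pos h2]
        have := hbd s hsJ _ _ h S
        linarith
      · rw [if_neg h2]
        refine (Win.ev_le h (hL (Nat.le_succ s)) (hwin s hsJ) S).trans ?_
        rw [add_zero]
        gcongr
        -- middle part
        have hmid : ev φ (S.filter (fun a => L s ≤ a ∧ a < L (s + 1))) (X s) ≤
            (1 / (pm i : ℝ)) * ∑ t ∈ range n,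
              ev (ψ t) (S.filter (fun a => L s ≤ a ∧ a < L (s + 1))) (X s) := by
          unfold ev
          rw [sum_comm, mul_sum]
          exact sum_le_sum (fun a _ => hle a (X s) (hpos s hsJ))
        refine hmid.trans ?_
        refine mul_le_mul_of_nonneg_left (sum_le_sum (fun t ht => ?_)) (by positivity)
        by_cases htC : t ∈ Cs s
        · have hCt : Cs s = {t} := by
            have h3 : (Cs s).card = 1 := by
              have : 0 < (Cs s).card := card_pos.mpr ⟨t, htC⟩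
              omega
            obtain ⟨t', ht'⟩ := card_eq_one.mp h3
            rw [ht'] at htC ⊢
            rw [mem_singleton.mp htC]
          rw [if_pos hCt]
          exact (hψ t (mem_range.mp ht)).ev_mono_set (filter_subset _ _) (hpos s hsJ)
        · have hCt : Cs s ≠ {t} := by
            intro h'
            exact htC (by rw [h']; exact mem_singleton_self _)
          rw [if_neg hCt]
          unfold ev
          apply le_of_eq
          apply sum_eq_zero
          intro a ha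
          have ha' := (mem_filter.mp ha).2
          have : ψ t a = 0 := by
            by_contra hne
            exact htC (mem_filter.mpr ⟨ht, a, ha'.1, ha'.2, hne⟩)
          rw [this]
          simp
    refine (sum_le_sum key).trans ?_
    rw [sum_add_distrib, sum_add_distrib, ← sum_filter]
    simp only [sum_const, nsmul_eq_mul]
    rw [← mul_sum]
    have e1 : ((J.filter (fun s => 2 ≤ (Cs s).card)).card : ℝ) ≤ pn i := by
      exact_mod_cast hcard.trans hn
    have e2 : ∑ s ∈ J, ∑ t ∈ range n, (if Cs s = {t} then ev (ψ t) S (X s) else 0) =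
        ∑ t ∈ range n, ∑ s ∈ Jc t, ev (ψ t) S (X s) := by
      rw [sum_comm]
      refine sum_congr rfl (fun t _ => ?_)
      simp only [Jc]
      rw [sum_filter]
    rw [e2]
    have e3 : ((J.filter (fun s => 2 ≤ (Cs s).card)).card : ℝ) * c ≤ pn i * c :=
      mul_le_mul_of_nonneg_right e1 hc
    linarith

/-- one step of the iteration -/
lemma lemG_step {i0 ν : ℕ} (hν : ∀ i, i < i0 → pn i ≤ ν) (hν1 : 1 ≤ ν) (X : ℕ → V) (L : ℕ → ℕ)
    (hL : Monotone L) (J0 : Finset ℕ) (c ε α γ : ℝ) (hc : 0 ≤ c) (hε : 0 ≤ ε)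
    (hα : 0 ≤ α) (hγ : c + 1 ≤ γ) (hεJ : 2 * ε * J0.card ≤ 1)
    (hpos : ∀ s ∈ J0, X s ∈ C.pos) (hbd : ∀ s ∈ J0, Bd C (X s) c)
    (hwin : ∀ s ∈ J0, Win C (X s) (L s) (L (s + 1)) ε) (d : ℕ)
    (ih : ∀ w φ, K C w φ → ∀ S J, J ⊆ J0 →
      ∑ s ∈ J, ev φ S (X s) ≤ α * J.card + c * J.card / 2 ^ d + γ * (2 * ν) ^ d)
    (i : ℕ) (hi : i < i0) (φ : Fam V) (h : K C (some i) φ) (S J : Finset ℕ) (hJ : J ⊆ J0) :
    ∑ s ∈ J, ev φ S (X s) ≤
      (α * J.card + c * J.card / 2 ^ d) / pm i + γ * (2 * ν) ^ (d + 1) := by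
  obtain ⟨n, w, ψ, Jc, hn, hψ, hJc, hcard, hsum⟩ := split_lemma h X L hL J c ε hc hε
    (fun s hs => hpos s (hJ hs)) (fun s hs => hbd s (hJ hs)) (fun s hs => hwin s (hJ hs)) S
  refine hsum.trans ?_
  have hm : (2 : ℝ) ≤ pm i := by exact_mod_cast two_le_pm i
  have hJcard : (J.card : ℝ) ≤ J0.card := by exact_mod_cast card_le_card hJ
  have h1 : 2 * ε * J.card ≤ 1 :=
    (mul_le_mul_of_nonneg_left hJcard (by positivity)).trans hεJ
  have h2 : ∑ t ∈ range n, ∑ s ∈ Jc t, ev (ψ t) S (X s) ≤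
      ∑ t ∈ range n, (α * (Jc t).card + c * (Jc t).card / 2 ^ d + γ * (2 * ν) ^ d) :=
    sum_le_sum (fun t ht => ih (w t) (ψ t) (hψ t (mem_range.mp ht)) S (Jc t)
      ((hJc t).trans hJ))
  have h3 : ∑ t ∈ range n, (α * (Jc t).card + c * (Jc t).card / 2 ^ d + γ * (2 * ν) ^ d) =
      (α + c / 2 ^ d) * (∑ t ∈ range n, ((Jc t).card : ℝ)) + n * (γ * (2 * ν) ^ d) := by
    rw [sum_add_distrib, sum_const, nsmul_eq_mul, card_range, mul_sum]
    congr 1
    refine sum_congr rfl (fun t _ => ?_)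
    ring
  have hcard' : ∑ t ∈ range n, ((Jc t).card : ℝ) ≤ J.card := by exact_mod_cast hcard
  have hpow : (1 : ℝ) ≤ (2 * ν) ^ d := by
    have : (1 : ℝ) ≤ 2 * ν := by
      have : (1 : ℝ) ≤ ν := by exact_mod_cast hν1
      linarith
    exact one_le_pow₀ this
  have hν1' : (1 : ℝ) ≤ ν := by exact_mod_cast hν1
  have hni : (pn i : ℝ) ≤ ν := by exact_mod_cast hν i hi
  have hn' : (n : ℝ) ≤ ν := by
    have : (n : ℝ) ≤ pn i := by exact_mod_cast hn
    linarith
  have hγ0 : 0 ≤ γ := by linarith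
  have h4 : ∑ t ∈ range n, ∑ s ∈ Jc t, ev (ψ t) S (X s) ≤
      (α * J.card + c * J.card / 2 ^ d) + ν * (γ * (2 * ν) ^ d) := by
    refine h2.trans ?_
    rw [h3]
    have h5 : (α + c / 2 ^ d) * (∑ t ∈ range n, ((Jc t).card : ℝ)) ≤ (α + c / 2 ^ d) * J.card :=
      mul_le_mul_of_nonneg_left hcard' (by positivity)
    have h6 : (n : ℝ) * (γ * (2 * ν) ^ d) ≤ ν * (γ * (2 * ν) ^ d) :=
      mul_le_mul_of_nonneg_right hn' (by positivity)
    have h7 : (α + c / 2 ^ d) * (J.card : ℝ) = α * J.card + c * J.card / 2 ^ d := by ring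
    linarith
  have h5 : (1 / (pm i : ℝ)) * ∑ t ∈ range n, ∑ s ∈ Jc t, ev (ψ t) S (X s) ≤
      (α * J.card + c * J.card / 2 ^ d) / pm i + (1 / 2) * (ν * (γ * (2 * ν) ^ d)) := by
    have h6 : (1 / (pm i : ℝ)) * ∑ t ∈ range n, ∑ s ∈ Jc t, ev (ψ t) S (X s) ≤
      (1 / (pm i : ℝ)) * ((α * J.card + c * J.card / 2 ^ d) + ν * (γ * (2 * ν) ^ d)) :=
      mul_le_mul_of_nonneg_left h4 (by positivity)
    have h7 : (1 / (pm i : ℝ)) ≤ 1 / 2 := by
      apply one_div_le_one_div_of_le (by norm_num) hm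
    have h8 : (1 / (pm i : ℝ)) * (ν * (γ * (2 * ν) ^ d)) ≤ (1 / 2) * (ν * (γ * (2 * ν) ^ d)) :=
      mul_le_mul_of_nonneg_right h7 (by positivity)
    have h9 : (1 / (pm i : ℝ)) * ((α * J.card + c * J.card / 2 ^ d) + ν * (γ * (2 * ν) ^ d)) =
      (α * J.card + c * J.card / 2 ^ d) / pm i + (1 / (pm i : ℝ)) * (ν * (γ * (2 * ν) ^ d)) := by
      ring
    linarith
  have h6 : c * pn i + 2 * ε * J.card ≤ γ * (ν * (2 * ν) ^ d) := by
    have h7 : c * pn i ≤ c * ν := mul_le_mul_of_nonneg_left hni hc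
    have h8 : (1 : ℝ) ≤ ν * (2 * ν) ^ d := by nlinarith
    have h9 : (ν : ℝ) ≤ ν * (2 * ν) ^ d := by nlinarith
    have h10 : c * ν ≤ c * (ν * (2 * ν) ^ d) := mul_le_mul_of_nonneg_left h9 hc
    nlinarith
  have h7 : γ * (2 * ν) ^ (d + 1) = 2 * (γ * (ν * (2 * (ν : ℝ)) ^ d)) := by ring
  rw [h7]
  have h8 : 0 ≤ γ * (ν * (2 * (ν : ℝ)) ^ d) := by positivity
  nlinarith

/-- the basic iteration lemma -/
lemma lemG {i0 ν : ℕ} (hν : ∀ i, i < i0 → pn i ≤ ν) (hν1 : 1 ≤ ν) (X : ℕ → V) (L : ℕ → ℕ)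
    (hL : Monotone L) (J0 : Finset ℕ) (c ε α γ : ℝ) (hc : 0 ≤ c) (hε : 0 ≤ ε)
    (hα : 0 ≤ α) (hγ : c + 1 ≤ γ) (hεJ : 2 * ε * J0.card ≤ 1)
    (hpos : ∀ s ∈ J0, X s ∈ C.pos) (hbd : ∀ s ∈ J0, Bd C (X s) c)
    (hwin : ∀ s ∈ J0, Win C (X s) (L s) (L (s + 1)) ε)
    (hbig : ∀ i, i0 ≤ i → ∀ φ, K C (some i) φ → ∀ S J, J ⊆ J0 →
      ∑ s ∈ J, ev φ S (X s) ≤ α * J.card + γ) (d : ℕ) :
    ∀ w φ, K C w φ → ∀ S J, J ⊆ J0 →
      ∑ s ∈ J, ev φ S (X s) ≤ α * J.card + c * J.card / 2 ^ d + γ * (2 * ν) ^ d := by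
  have hν1' : (1 : ℝ) ≤ ν := by exact_mod_cast hν1
  have hγ0 : 0 ≤ γ := by linarith
  have hpow : ∀ d : ℕ, (1 : ℝ) ≤ (2 * ν) ^ d := fun d => one_le_pow₀ (by linarith)
  induction d with
  | zero =>
    intro w φ h S J hJ
    have : ∑ s ∈ J, ev φ S (X s) ≤ ∑ s ∈ J, c :=
      sum_le_sum (fun s hs => hbd s (hJ hs) w φ h S)
    rw [sum_const, nsmul_eq_mul] at this
    have h2 : 0 ≤ α * (J.card : ℝ) := by positivity
    simp only [pow_zero]
    nlinarith
  | succ d ih =>
    intro w φ h S J hJ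
    have h2 : 0 ≤ α * (J.card : ℝ) := by positivity
    have h3 : 0 ≤ c * (J.card : ℝ) / 2 ^ (d + 1) := by positivity
    have h4 : γ ≤ γ * (2 * ν) ^ (d + 1) := by
      have := hpow (d + 1)
      nlinarith
    cases w with
    | none =>
      have h1 := none_sum h X L hL J c ε hc hε (fun s hs => hbd s (hJ hs))
        (fun s hs => hwin s (hJ hs)) S
      have hJcard : (J.card : ℝ) ≤ J0.card := by exact_mod_cast card_le_card hJ
      have h5 : 2 * ε * J.card ≤ 1 :=
        (mul_le_mul_of_nonneg_left hJcard (by positivity)).trans hεJ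
      linarith
    | some i =>
      by_cases hi : i < i0
      · have h5 := lemG_step hν hν1 X L hL J0 c ε α γ hc hε hα hγ hεJ hpos hbd hwin d ih i hi φ h
          S J hJ
        refine h5.trans ?_
        have hm : (2 : ℝ) ≤ pm i := by exact_mod_cast two_le_pm i
        have h6 : (α * J.card + c * J.card / 2 ^ d) / pm i ≤
            (α * J.card + c * J.card / 2 ^ d) / 2 :=
          div_le_div_of_nonneg_left (by positivity) (by norm_num) hm
        have h7 : (α * J.card + c * J.card / 2 ^ d) / 2 =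
          α * J.card / 2 + c * J.card / 2 ^ (d + 1) := by
          rw [pow_succ]; field_simp
        linarith
      · have h5 := hbig i (not_lt.mp hi) φ h S J hJ
        linarith

end Run7.h921
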