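import Pool.Agent.Run7.h921.Average

/-!
Special sequences and the main combinatorial theorem.
-/

set_option autoImplicit false

open Finset Filter Topology

namespace Run7.h921

variable {V : Type*} [AddCommGroup V] [Module ℝ V] {C : Ctx V}

lemma ev_avg_comp (c : ℝ) (n : ℕ) (Φ : ℕ → Fam V) (T : ℕ → V →ₗ[ℝ] V) (S : Finset ℕ) (U : V) :
    ev (fun a => c • ∑ t ∈ range n, (Φ t a) ∘ₗ T t) S U =
      c * ∑ t ∈ range n, ev (Φ t) S (T t U) := by
  unfold ev
  rw [sum_comm, mul_sum]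
  simp [mul_sum]

lemma range_map_inj {l l' : ℕ → ℕ} {t t' : ℕ}
    (h : (List.range t).map l = (List.range t').map l') : t = t' ∧ ∀ s, s < t → l s = l' s := by
  have h1 : t = t' := by
    have := congrArg List.length h
    simpa using this
  refine ⟨h1, fun s hs => ?_⟩
  subst h1
  have h2 := List.map_inj_left.mp h
  exact h2 s (List.mem_range.mpr hs)

lemma spec_form {i : ℕ} (hi : ¬ Even i) {φ : Fam V} (h : K C (some i) φ) :
    ∃ (n : ℕ) (l : ℕ → ℕ) (ψ : ℕ → Fam V), n ≤ pn i ∧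
      (∀ t, t < n → K C (some (code i ((List.range t).map l))) (ψ t)) ∧
      φ = (fun a => (1 / (pm i : ℝ)) • ∑ t ∈ range n, (ψ t a) ∘ₗ C.T (l t)) := by
  cases h with
  | ord _ n hi' hn w φ h hs => exact absurd hi' hi
  | spec _ n hi' hn l φ h hs => exact ⟨n, l, φ, hn, h, rfl⟩

/-- the upper estimate for special sequences on functionals of weight at least `J` -/
lemma special_big (J : ℕ) (hJ : ¬ Even J) (Y : ℕ → V) (l : ℕ → ℕ) (hpos : ∀ t, Y t ∈ C.pos)
    (hbd : ∀ t, Bd C (Y t) 4)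
    (hsmall : ∀ t i φ, i ≠ code J ((List.range t).map l) → K C (some i) φ → ∀ S,
      ev φ S (Y t) ≤ 4 / pm (min i (code J ((List.range t).map l))))
    (i : ℕ) (hi : J ≤ i) (φ : Fam V) (h : K C (some i) φ) (S J' : Finset ℕ)
    (hJ' : J' ⊆ range (pn J)) :
    ∑ t ∈ J', ev φ S (Y t - C.T (l t) (Y t)) ≤ 8 := by
  classical
  set W : ℕ → ℕ := fun t => code J ((List.range t).map l) with hW
  have hWJ : ∀ t, J < W t := fun t => lt_code _ _
  have hn1 : (1 : ℝ) ≤ pn J := by exact_mod_cast pn_pos J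
  have hJc : (J'.card : ℝ) ≤ pn J := by
    have := card_le_card hJ'
    rw [card_range] at this
    exact_mod_cast this
  have hZpos : ∀ t, (Y t - C.T (l t) (Y t)) ∈ C.pos := fun t => C.T_sub _ _ (hpos t)
  have hZY : ∀ w φ, K C w φ → ∀ S t, ev φ S (Y t - C.T (l t) (Y t)) ≤ ev φ S (Y t) := by
    intro w φ hφ S t
    refine hφ.ev_mono S ?_
    rw [sub_sub_cancel]
    exact C.T_pos _ _ (hpos t)
  have hsm : ∀ t i' ψ, J < i' → i' ≠ W t → K C (some i') ψ → ∀ S,
      ev ψ S (Y t - C.T (l t) (Y t)) ≤ 4 / (pn J : ℝ) ^ 2 := by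
    intro t i' ψ hi' hne hψ S
    refine (hZY _ ψ hψ S t).trans ((hsmall t i' ψ hne hψ S).trans ?_)
    have h1 : J < min i' (W t) := lt_min hi' (hWJ t)
    have h2 : ((pn J : ℝ)) ^ 2 ≤ pm (min i' (W t)) := by exact_mod_cast pn_sq_le_pm h1
    exact div_le_div_of_nonneg_left (by norm_num) (by positivity) h2
  rcases lt_or_eq_of_le hi with hlt | heq
  · -- weight larger than J
    have key : ∀ t ∈ J', ev φ S (Y t - C.T (l t) (Y t)) ≤ 4 / (pn J : ℝ) ^ 2 +
        (if i = W t then 4 else 0) := by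
      intro t _
      by_cases hit : i = W t
      · rw [if_pos hit]
        have h1 := (hZY _ φ h S t).trans (hbd t _ φ h S)
        have : (0 : ℝ) ≤ 4 / (pn J : ℝ) ^ 2 := by positivity
        linarith
      · rw [if_neg hit, add_zero]
        exact hsm t i φ hlt hit h S
    refine (sum_le_sum key).trans ?_
    rw [sum_add_distrib, ← sum_filter, sum_const, sum_const, nsmul_eq_mul, nsmul_eq_mul]
    have hcard : ((J'.filter (fun t => i = W t)).card : ℝ) ≤ 1 := by
      have : (J'.filter (fun t => i = W t)).card ≤ 1 := by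
        rw [card_le_one]
        intro s hs t ht
        have hs' := (mem_filter.mp hs).2
        have ht' := (mem_filter.mp ht).2
        exact (range_map_inj (code_inj (hs'.symm.trans ht'))).1
      exact_mod_cast this
    have h1 : (J'.card : ℝ) * (4 / (pn J : ℝ) ^ 2) ≤ 4 := by
      rw [mul_div_assoc', div_le_iff₀ (by positivity)]
      nlinarith
    linarith
  · -- weight J
    subst heq
    obtain ⟨n, l', ψ, hn, hψ, hφ⟩ := spec_form hJ h
    have hm2 : (2 : ℝ) ≤ pm J := by exact_mod_cast two_le_pm J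
    have e1 : ∑ t ∈ J', ev φ S (Y t - C.T (l t) (Y t)) = (1 / (pm J : ℝ)) *
        ∑ t ∈ J', ∑ c ∈ range n, ev (ψ c) S (C.T (l' c) (Y t - C.T (l t) (Y t))) := by
      rw [hφ, mul_sum]
      exact sum_congr rfl (fun t _ => ev_avg_comp _ _ ψ (fun t => C.T (l' t)) _ _)
    rw [e1]
    have key : ∀ t ∈ J', ∀ c ∈ range n, ev (ψ c) S (C.T (l' c) (Y t - C.T (l t) (Y t))) ≤
        4 / (pn J : ℝ) ^ 2 + (if (code J ((List.range c).map l') = W t ∧ l' c ≠ l t) then 4 else 0)
        := by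
      intro t _ c hc
      have hψc := hψ c (mem_range.mp hc)
      have h0 : ev (ψ c) S (C.T (l' c) (Y t - C.T (l t) (Y t))) ≤
          ev (ψ c) S (Y t - C.T (l t) (Y t)) := hψc.ev_mono S (C.T_sub _ _ (hZpos t))
      have hnn : (0 : ℝ) ≤ 4 / (pn J : ℝ) ^ 2 := by positivity
      by_cases hm : code J ((List.range c).map l') = W t
      · by_cases hl : l' c = l t
        · have hz : C.T (l' c) (Y t - C.T (l t) (Y t)) = 0 := by
            rw [hl, map_sub, C.T_idem, sub_self]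
          rw [hz, ev_zero]
          have : (0 : ℝ) ≤ (if (code J ((List.range c).map l') = W t ∧ l' c ≠ l t)
            then 4 else 0) := by split_ifs <;> norm_num
          linarith
        · rw [if_pos ⟨hm, hl⟩]
          have h1 := h0.trans ((hZY _ _ hψc S t).trans (hbd t _ _ hψc S))
          linarith
      · have : ¬ (code J ((List.range c).map l') = W t ∧ l' c ≠ l t) := fun h => hm h.1
        rw [if_neg this, add_zero]
        exact h0.trans (hsm t _ _ (lt_code _ _) hm hψc S)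
    have h2 : ∑ t ∈ J', ∑ c ∈ range n, ev (ψ c) S (C.T (l' c) (Y t - C.T (l t) (Y t))) ≤ 8 := by
      refine (sum_le_sum (fun t ht => sum_le_sum (key t ht))).trans ?_
      rw [← sum_product' (f := fun t c => 4 / (pn J : ℝ) ^ 2 +
        (if (code J ((List.range c).map l') = W t ∧ l' c ≠ l t) then 4 else 0))]
      rw [sum_add_distrib, ← sum_filter, sum_const, sum_const, nsmul_eq_mul, nsmul_eq_mul,
        card_product, card_range]
      have hcard : (((J' ×ˢ range n).filter (fun x : ℕ × ℕ =>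
          (code J ((List.range x.2).map l') = W x.1 ∧ l' x.2 ≠ l x.1))).card : ℝ) ≤ 1 := by
        have : ((J' ×ˢ range n).filter (fun x : ℕ × ℕ =>
          (code J ((List.range x.2).map l') = W x.1 ∧ l' x.2 ≠ l x.1))).card ≤ 1 := by
          rw [card_le_one]
          rintro ⟨t, c⟩ h1 ⟨t2, c2⟩ h2
          obtain ⟨h1a, h1b⟩ := (mem_filter.mp h1).2
          obtain ⟨h2a, h2b⟩ := (mem_filter.mp h2).2
          dsimp only at h1a h1b h2a h2b
          obtain ⟨e1, e2⟩ := range_map_inj (code_inj h1a)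
          obtain ⟨e3, e4⟩ := range_map_inj (code_inj h2a)
          subst e1
          subst e3
          have : c = c2 := by
            by_contra hne
            rcases lt_or_gt_of_ne hne with h3 | h3
            · exact h1b (e4 c h3)
            · exact h2b (e2 c2 h3)
          rw [this]
        exact_mod_cast this
      have h3 : (((J'.card * n : ℕ)) : ℝ) * (4 / (pn J : ℝ) ^ 2) ≤ 4 := by
        have h4 : (n : ℝ) ≤ pn J := by exact_mod_cast hn
        push_cast
        rw [mul_div_assoc', div_le_iff₀ (by positivity)]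
        have h5 : (J'.card : ℝ) * n ≤ pn J * pn J := by
          exact mul_le_mul hJc h4 (by positivity) (by positivity)
        nlinarith
      linarith
    have h3 : (1 / (pm J : ℝ)) * ∑ t ∈ J', ∑ c ∈ range n,
        ev (ψ c) S (C.T (l' c) (Y t - C.T (l t) (Y t))) ≤ (1 / (pm J : ℝ)) * 8 :=
      mul_le_mul_of_nonneg_left h2 (by positivity)
    refine h3.trans ?_
    rw [one_div, inv_mul_le_iff₀ (by linarith)]
    linarith

theorem abstract_main {F : ℕ → V} (hD : Data C F)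
    (h4 : ∀ w φ, K C w φ → ∀ a n,
      Tendsto (fun l => φ a (C.T l (F n))) atTop (𝓝 (φ a (F n) / 2)))
    (κ : ℕ → ℕ) (M : ℝ) (hM : 0 < M) :
    ∃ (A : ℕ) (a : ℕ → ℝ) (l : ℕ → ℕ) (c : ℝ), (∀ n, 0 ≤ a n) ∧ (∀ n, n < A → κ n ≤ l n) ∧
      0 < c ∧ Bd C (∑ n ∈ range A, a n • (F n - C.T (l n) (F n))) c ∧
      ∃ w φ S, K C w φ ∧ M * c < ev φ S (∑ n ∈ range A, a n • F n) := by
  classical
  -- choice of J
  obtain ⟨N0, hN0⟩ := exists_nat_gt (80 * M)
  set J := 2 * N0 + 1 with hJdef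
  have hJ : ¬ Even J := by
    rw [Nat.not_even_iff_odd]
    exact ⟨N0, rfl⟩
  have hmJ : 80 * M < pm J := by
    have : N0 ≤ pm J := (by omega : N0 ≤ J).trans (self_le_pm J)
    have : (N0 : ℝ) ≤ pm J := by exact_mod_cast this
    linarith
  have hn1 : (1 : ℝ) ≤ pn J := by exact_mod_cast pn_pos J
  have hn0 : (0 : ℝ) < pn J := by linarith
  have hm2 : (2 : ℝ) ≤ pm J := by exact_mod_cast two_le_pm J
  set ε : ℝ := 1 / (2 * pn J) with hε
  have hε0 : 0 < ε := by positivity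
  -- the recursion
  obtain ⟨x, y, hx0, hxy⟩ := chain (σ := List ℕ × ℕ × ℕ) (τ := V × ℕ × Fam V × Finset ℕ)
    (fun _ => True)
    (fun s s' y => s'.1 = s.1 ++ [y.2.1] ∧ s.2.2 ≤ s'.2.2 ∧ s.2.1 ≤ s'.2.1 ∧
      ConeM F s.2.1 s'.2.1 y.1 ∧ Bd C y.1 4 ∧ Win C y.1 s.2.2 s'.2.2 ε ∧
      (∀ i φ, i ≠ code J s.1 → K C (some i) φ → ∀ S, ev φ S y.1 ≤ 4 / pm (min i (code J s.1))) ∧
      K C (some (code J s.1)) y.2.2.1 ∧ (∀ a, y.2.2.1 a ≠ 0 → s.2.2 ≤ a ∧ a < s'.2.2) ∧
      (1 / 16 : ℝ) ≤ ev y.2.2.1 y.2.2.2 (C.T y.2.1 y.1) ∧ (∀ k, k < s'.2.1 → κ k ≤ y.2.1))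
    ([], 0, 0) trivial (by
      rintro ⟨Ls, N, Λ⟩ _
      obtain ⟨Y, L1, h1, ⟨M1, hM1⟩, h3, h4', h5, φ, S, h6, h7, h8⟩ :=
        average hD (code J Ls) (code_even _ _) ε hε0 N Λ
      have hcone : ConeM F N (max N M1) Y := hM1.mono le_rfl (le_max_right _ _)
      -- the limit
      have htend : Tendsto (fun l => ev φ S (C.T l Y)) atTop (𝓝 (ev φ S Y / 2)) := by
        obtain ⟨a, _, _, _, hY⟩ := hM1
        have e1 : ∀ l, ev φ S (C.T l Y) = ∑ b ∈ S, ∑ n ∈ range M1, a n * φ b (C.T l (F n)) := by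
          intro l
          unfold ev
          refine sum_congr rfl (fun b _ => ?_)
          rw [hY, map_sum, map_sum]
          exact sum_congr rfl (fun n _ => by rw [map_smul, map_smul, smul_eq_mul])
        have e2 : ev φ S Y / 2 = ∑ b ∈ S, ∑ n ∈ range M1, a n * (φ b (F n) / 2) := by
          unfold ev
          rw [sum_div]
          refine sum_congr rfl (fun b _ => ?_)
          rw [hY, map_sum, sum_div]
          exact sum_congr rfl (fun n _ => by rw [map_smul, smul_eq_mul]; ring)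
        rw [e2]
        simp only [e1]
        exact tendsto_finsetSum _ (fun b _ => tendsto_finsetSum _ (fun n _ =>
          (h4 _ φ h6 b n).const_mul _))
      have hev1 : ∀ᶠ l in atTop, (1 / 16 : ℝ) < ev φ S (C.T l Y) :=
        htend.eventually (lt_mem_nhds (by linarith))
      have hev2 : ∀ᶠ l in atTop, (range (max N M1)).sup κ ≤ l := eventually_ge_atTop _
      obtain ⟨l, hl1, hl2⟩ := (hev1.and hev2).exists
      refine ⟨(Ls ++ [l], max N M1, L1), (Y, l, φ, S), trivial, rfl, h1, le_max_left _ _, hcone, h3,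
        h4', h5, h6, h7, hl1.le, fun k hk => ?_⟩
      exact (le_sup (f := κ) (mem_range.mpr hk)).trans hl2)
  -- names
  set l : ℕ → ℕ := fun t => (y t).2.1 with hl
  set Y : ℕ → V := fun t => (y t).1 with hY
  set Nt : ℕ → ℕ := fun t => (x t).2.1 with hNt
  set Λ : ℕ → ℕ := fun t => (x t).2.2 with hΛ
  have hlist : ∀ t, (x t).1 = (List.range t).map l := by
    intro t
    induction t with
    | zero => rw [hx0]; rfl
    | succ t ih =>
      rw [(hxy t).2.1, ih, List.range_succ, List.map_append]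
      rfl
  have hΛle : ∀ t, Λ t ≤ Λ (t + 1) := fun t => (hxy t).2.2.1
  have hΛmono : Monotone Λ := monotone_nat_of_le_succ hΛle
  have hNle : ∀ t, Nt t ≤ Nt (t + 1) := fun t => (hxy t).2.2.2.1
  have hNmono : Monotone Nt := monotone_nat_of_le_succ hNle
  have hcone : ∀ t, ConeM F (Nt t) (Nt (t + 1)) (Y t) := fun t => (hxy t).2.2.2.2.1
  have hbd : ∀ t, Bd C (Y t) 4 := fun t => (hxy t).2.2.2.2.2.1
  have hwin : ∀ t, Win C (Y t) (Λ t) (Λ (t + 1)) ε := fun t => (hxy t).2.2.2.2.2.2.1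
  have hsmall : ∀ t i φ, i ≠ code J ((List.range t).map l) → K C (some i) φ → ∀ S,
      ev φ S (Y t) ≤ 4 / pm (min i (code J ((List.range t).map l))) := by
    intro t
    rw [← hlist t]
    exact (hxy t).2.2.2.2.2.2.2.1
  have hK : ∀ t, K C (some (code J ((List.range t).map l))) (y t).2.2.1 := by
    intro t
    rw [← hlist t]
    exact (hxy t).2.2.2.2.2.2.2.2.1
  have hsupp : ∀ t, ∀ a, (y t).2.2.1 a ≠ 0 → Λ t ≤ a ∧ a < Λ (t + 1) :=
    fun t => (hxy t).2.2.2.2.2.2.2.2.2.1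
  have hev : ∀ t, (1 / 16 : ℝ) ≤ ev (y t).2.2.1 (y t).2.2.2 (C.T (l t) (Y t)) :=
    fun t => (hxy t).2.2.2.2.2.2.2.2.2.2.1
  have hκ : ∀ t, ∀ k, k < Nt (t + 1) → κ k ≤ l t := fun t => (hxy t).2.2.2.2.2.2.2.2.2.2.2
  have hpos : ∀ t, Y t ∈ C.pos := fun t => (hcone t).pos hD.pos
  set Z : ℕ → V := fun t => Y t - C.T (l t) (Y t) with hZ
  have hZpos : ∀ t, Z t ∈ C.pos := fun t => C.T_sub _ _ (hpos t)
  have hZY : ∀ w φ, K C w φ → ∀ S t, ev φ S (Z t) ≤ ev φ S (Y t) := by
    intro w φ hφ S t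
    refine hφ.ev_mono S ?_
    simp only [hZ]
    rw [sub_sub_cancel]
    exact C.T_pos _ _ (hpos t)
  have hZbd : ∀ t, Bd C (Z t) 4 := fun t w φ hφ S => (hZY w φ hφ S t).trans (hbd t w φ hφ S)
  have hZwin : ∀ t, Win C (Z t) (Λ t) (Λ (t + 1)) ε := fun t =>
    ⟨fun w φ hφ S hS => (hZY w φ hφ S t).trans ((hwin t).1 w φ hφ S hS),
      fun w φ hφ S hS => (hZY w φ hφ S t).trans ((hwin t).2 w φ hφ S hS)⟩
  -- upper estimate
  set ν : ℕ := pnu J with hνdef
  have hν1 : 1 ≤ ν := one_le_pnu J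
  have hν1' : (1 : ℝ) ≤ ν := by exact_mod_cast hν1
  set P : ℝ := (2 * (ν : ℝ)) ^ (2 * pm J) with hP
  have hP1 : 1 ≤ P := one_le_pow₀ (by linarith)
  have hnP : (pn J : ℝ) = 8 * (pm J : ℝ) ^ 2 * (P * (2 * ν)) := by
    rw [hP, ← pow_succ]
    unfold pn
    push_cast
    rfl
  have hεJ : 2 * ε * ((range (pn J)).card : ℝ) ≤ 1 := by
    rw [card_range, hε]
    have : 2 * (1 / (2 * (pn J : ℝ))) * pn J = 1 := by field_simp
    exact this.le
  have hG := lemG (i0 := J) (ν := ν) (fun i hi => pn_le_pnu hi) hν1 Z Λ hΛmono (range (pn J)) 4 ε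
    0 8 (by norm_num) hε0.le le_rfl (by norm_num) hεJ (fun s _ => hZpos s)
    (fun s _ => hZbd s) (fun s _ => hZwin s) (by
      intro i hi φ hφ S J' hJ'
      rw [zero_mul, zero_add]
      exact special_big J hJ Y l hpos hbd hsmall i hi φ hφ S J' hJ') (2 * pm J)
  set c : ℝ := 5 * pn J / (pm J : ℝ) ^ 2 with hc
  have hc0 : 0 < c := by positivity
  have hZsum : Bd C (∑ t ∈ range (pn J), Z t) c := by
    intro w φ hφ S
    rw [ev_sum]
    refine (hG w φ hφ S (range (pn J)) (Subset.refl _)).trans ?_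
    rw [card_range, zero_mul, zero_add]
    have h1 : (pm J : ℝ) ^ 2 ≤ 2 ^ (2 * pm J) := by
      have : (pm J : ℝ) ≤ 2 ^ (pm J) := by exact_mod_cast (Nat.lt_two_pow_self (n := pm J)).le
      calc (pm J : ℝ) ^ 2 ≤ (2 ^ (pm J)) ^ 2 := by gcongr
        _ = 2 ^ (2 * pm J) := by rw [← pow_mul, mul_comm]
    have h2 : 4 * (pn J : ℝ) / 2 ^ (2 * pm J) ≤ 4 * pn J / (pm J : ℝ) ^ 2 :=
      div_le_div_of_nonneg_left (by positivity) (by positivity) h1
    have h3 : 8 * (2 * (ν : ℝ)) ^ (2 * pm J) ≤ pn J / (pm J : ℝ) ^ 2 := by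
      rw [← hP, le_div_iff₀ (by positivity), hnP]
      have h5 : P ≤ P * (2 * ν) := by nlinarith
      nlinarith [mul_le_mul_of_nonneg_left h5 (by positivity : (0 : ℝ) ≤ 8 * (pm J : ℝ) ^ 2)]
    have h4 : c = 4 * pn J / (pm J : ℝ) ^ 2 + pn J / (pm J : ℝ) ^ 2 := by
      rw [hc]; ring
    rw [h4]
    linarith
  -- coefficients
  choose av hav0 hav1 hav2 hav3 using hcone
  set a : ℕ → ℝ := fun k => ∑ t ∈ range (pn J), av t k with ha
  set A : ℕ := Nt (pn J) with hA
  have huniq : ∀ k s t, Nt s ≤ k → k < Nt (s + 1) → Nt t ≤ k → k < Nt (t + 1) → s = t := by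
    intro k s t h1 h2 h3 h4'
    by_contra hne
    rcases lt_or_gt_of_ne hne with h5 | h5
    · have : Nt (s + 1) ≤ Nt t := hNmono h5
      omega
    · have : Nt (t + 1) ≤ Nt s := hNmono h5
      omega
  let lf : ℕ → ℕ := fun k => if h : ∃ t, Nt t ≤ k ∧ k < Nt (t + 1) then l (Classical.choose h) else κ k
  have hlf : ∀ k t, Nt t ≤ k → k < Nt (t + 1) → lf k = l t := by
    intro k t h1 h2
    have h : ∃ t, Nt t ≤ k ∧ k < Nt (t + 1) := ⟨t, h1, h2⟩
    have h3 := Classical.choose_spec h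
    have h5 : Classical.choose h = t := huniq k _ t h3.1 h3.2 h1 h2
    simp only [lf]
    rw [dif_pos h, h5]
  have hsumY : ∀ t, t < pn J → Y t = ∑ k ∈ range A, av t k • F k := by
    intro t ht
    rw [hav3 t]
    refine sum_subset (range_mono (hNmono (by omega : t + 1 ≤ pn J))) (fun k _ hk => ?_)
    rw [hav2 t k (by simpa using hk), zero_smul]
  have hsumZ : ∀ t, t < pn J → Z t = ∑ k ∈ range A, av t k • (F k - C.T (lf k) (F k)) := by
    intro t ht
    simp only [hZ]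
    rw [hsumY t ht, map_sum, ← sum_sub_distrib]
    refine sum_congr rfl (fun k _ => ?_)
    rw [map_smul, ← smul_sub]
    by_cases hk : Nt t ≤ k ∧ k < Nt (t + 1)
    · rw [hlf k t hk.1 hk.2]
    · have : av t k = 0 := by
        by_cases h1 : k < Nt t
        · exact hav1 t k h1
        · exact hav2 t k (by omega)
      rw [this, zero_smul, zero_smul]
  have htotY : ∑ t ∈ range (pn J), Y t = ∑ k ∈ range A, a k • F k := by
    rw [sum_congr rfl (fun t ht => hsumY t (mem_range.mp ht)), sum_comm]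
    refine sum_congr rfl (fun k _ => ?_)
    rw [ha, sum_smul]
  have htotZ : ∑ t ∈ range (pn J), Z t = ∑ k ∈ range A, a k • (F k - C.T (lf k) (F k)) := by
    rw [sum_congr rfl (fun t ht => hsumZ t (mem_range.mp ht)), sum_comm]
    refine sum_congr rfl (fun k _ => ?_)
    rw [ha, sum_smul]
  refine ⟨A, a, lf, c, fun k => sum_nonneg (fun t _ => hav0 t k), ?_, hc0, ?_, ?_⟩
  · intro k _
    by_cases h : ∃ t, Nt t ≤ k ∧ k < Nt (t + 1)
    · obtain ⟨t, h1, h2⟩ := h
      rw [hlf k t h1 h2]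
      exact hκ t k h2
    · simp only [lf]
      rw [dif_neg h]
  · rw [← htotZ]
    exact hZsum
  · have hsucc : ∀ s t, s < t → t < pn J → FSucc ((y s).2.2.1) ((y t).2.2.1) := by
      intro s t hst _ a b ha hb
      have h1 := hsupp s a ha
      have h2 := hsupp t b hb
      have h3 : Λ (s + 1) ≤ Λ t := hΛmono hst
      omega
    set S' := (range (pn J)).biUnion (fun s => (y s).2.2.2) with hS'
    refine ⟨some J, fun a => (1 / (pm J : ℝ)) • ∑ t ∈ range (pn J), ((y t).2.2.1 a) ∘ₗ C.T (l t),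
      S', K.spec J (pn J) hJ le_rfl l (fun t => (y t).2.2.1) (fun t _ => hK t) hsucc, ?_⟩
    rw [← htotY, ev_avg_comp (1 / (pm J : ℝ)) (pn J) (fun t => (y t).2.2.1) (fun t => C.T (l t))]
    have h2 : ∀ t ∈ range (pn J), (1 / 16 : ℝ) ≤
        ev ((y t).2.2.1) S' (C.T (l t) (∑ s ∈ range (pn J), Y s)) := by
      intro t ht
      rw [map_sum, ev_sum]
      refine (hev t).trans ?_
      refine ((hK t).ev_mono_set (S' := S') ?_ (C.T_pos _ _ (hpos t))).trans ?_
      · exact subset_biUnion_of_mem (fun s => (y s).2.2.2) ht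
      · exact single_le_sum (f := fun s' => ev ((y t).2.2.1) S' (C.T (l t) (Y s')))
          (fun s' _ => (hK t).ev_nonneg S' (C.T_pos _ _ (hpos s'))) ht
    have h3 := sum_le_sum h2
    rw [sum_const, card_range, nsmul_eq_mul] at h3
    have h5 : (1 / (pm J : ℝ)) * (pn J * (1 / 16)) ≤ (1 / (pm J : ℝ)) *
        ∑ t ∈ range (pn J), ev ((y t).2.2.1) S' (C.T (l t) (∑ s ∈ range (pn J), Y s)) :=
      mul_le_mul_of_nonneg_left h3 (by positivity)
    refine lt_of_lt_of_le ?_ h5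
    have hm0 : (0 : ℝ) < pm J := by linarith
    rw [hc]
    have e1 : M * (5 * (pn J : ℝ) / (pm J : ℝ) ^ 2) = (80 * M) * (pn J / (16 * (pm J : ℝ) ^ 2)) := by
      field_simp
      ring
    have e2 : (1 / (pm J : ℝ)) * (pn J * (1 / 16)) = pm J * (pn J / (16 * (pm J : ℝ) ^ 2)) := by
      field_simp
    rw [e1, e2]
    exact mul_lt_mul_of_pos_right hmJ (by positivity)

end Run7.h921
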