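import Pool.Agent.Run7.h921.Coin
import Pool.Agent.Run7.h921.Special

/-!
The concrete norming system on integrable functions on the Cantor space.
-/

set_option autoImplicit false
set_option linter.unusedSectionVars false

open MeasureTheory Filter Topology Finset

namespace Run7.h921

lemma exists_small_setIntegral {Ω : Type*} [MeasurableSpace Ω] {μ : Measure Ω} [IsFiniteMeasure μ]
    {f : Ω → ℝ} (hf : Integrable f μ) (ε : ℝ) (hε : 0 < ε) :
    ∃ δ, 0 < δ ∧ ∀ A, μ.real A ≤ δ → ∫ ω in A, f ω ∂μ ≤ ε := by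
  have h1 : Tendsto (fun A : Set Ω => ∫ ω in A, f ω ∂μ) (comap μ (𝓝 0)) (𝓝 0) :=
    hf.tendsto_setIntegral_nhds_zero (s := id) tendsto_comap
  have h2 : ∀ᶠ A in comap μ (𝓝 0), ∫ ω in A, f ω ∂μ < ε := h1.eventually (gt_mem_nhds hε)
  rw [eventually_comap] at h2
  obtain ⟨δ, hδ, h3⟩ := ENNReal.nhds_zero_basis.eventually_iff.mp h2
  obtain ⟨δ', hδ', hδδ⟩ : ∃ δ' : ℝ, 0 < δ' ∧ ENNReal.ofReal δ' < δ := by
    rcases ENNReal.lt_iff_exists_real_btwn.mp hδ with ⟨r, hr0, hr1, hr2⟩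
    exact ⟨r, by simpa using hr1, hr2⟩
  refine ⟨δ', hδ', fun A hA => ?_⟩
  have h4 : μ A < δ := by
    refine lt_of_le_of_lt ?_ hδδ
    rw [← ENNReal.ofReal_toReal (measure_ne_top μ A)]
    exact ENNReal.ofReal_le_ofReal hA
  exact (h3 (Set.mem_Iio.mpr h4) A rfl).le

/-- integrable functions -/
noncomputable def VI : Submodule ℝ (CS → ℝ) where
  carrier := {f | Integrable f cm}
  add_mem' := fun hf hg => Integrable.add hf hg
  zero_mem' := integrable_zero _ _ _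
  smul_mem' := fun c _ hf => Integrable.smul c hf

lemma VI.int (U : VI) : Integrable U.1 cm := U.2

/-- the cut sets -/
def DD (l : ℕ) : Set CS := {ω | ω l = true}

lemma DD_meas (l : ℕ) : MeasurableSet (DD l) := by
  have h1 : DD l = (fun ω : CS => ω l) ⁻¹' {true} := by
    ext ω
    simp [DD]
  rw [h1]
  exact (measurable_pi_apply l) (measurableSet_singleton true)

/-- the cut operators -/
noncomputable def TT (l : ℕ) : VI →ₗ[ℝ] VI where
  toFun U := ⟨(DD l).indicator U.1, (VI.int U).indicator (DD_meas l)⟩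
  map_add' U W := Subtype.ext (Set.indicator_add _ _ _)
  map_smul' c U := by
    apply Subtype.ext
    show (DD l).indicator (c • U.1) = c • (DD l).indicator U.1
    funext ω
    by_cases h : ω ∈ DD l
    · rw [Set.indicator_of_mem h, Pi.smul_apply, Pi.smul_apply, Set.indicator_of_mem h]
    · rw [Set.indicator_of_notMem h, Pi.smul_apply, Set.indicator_of_notMem h, smul_zero]

lemma TT_apply (l : ℕ) (U : VI) (ω : CS) : (TT l U).1 ω = ind (DD l) ω * U.1 ω := by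
  show (DD l).indicator U.1 ω = _
  by_cases h : ω ∈ DD l
  · rw [Set.indicator_of_mem h, ind_of_mem h, one_mul]
  · rw [Set.indicator_of_notMem h, ind_of_notMem h, zero_mul]

/-- base functionals -/
noncomputable def bfun (a : ℕ) (A : Set CS) : VI →ₗ[ℝ] ℝ where
  toFun U := 2 ^ a * ∫ ω in A, U.1 ω ∂cm
  map_add' U W := by
    rw [← mul_add, ← integral_add (VI.int U).integrableOn (VI.int W).integrableOn]
    rfl
  map_smul' c U := by
    have : ∫ ω in A, (c • U).1 ω ∂cm = c * ∫ ω in A, U.1 ω ∂cm := by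
      rw [← integral_const_mul]
      rfl
    rw [this, RingHom.id_apply, smul_eq_mul]
    ring

lemma bfun_apply (a : ℕ) (A : Set CS) (U : VI) : bfun a A U = 2 ^ a * ∫ ω in A, U.1 ω ∂cm := rfl

/-- the concrete data -/
noncomputable def cc : Ctx VI where
  pos := {U | ∀ ω, 0 ≤ U.1 ω}
  T := TT
  B a := {f | ∃ A, MeasurableSet A ∧ cm.real A ≤ (1 / 4) ^ a ∧ f = bfun a A}
  pos_zero := fun _ => le_rfl
  pos_add := fun _ hU _ hW ω => add_nonneg (hU ω) (hW ω)
  pos_smul := fun _ ha _ hU ω => mul_nonneg ha (hU ω)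
  T_pos := fun l U hU ω => by
    rw [TT_apply]
    refine mul_nonneg ?_ (hU ω)
    by_cases h : ω ∈ DD l
    · rw [ind_of_mem h]; exact zero_le_one
    · rw [ind_of_notMem h]
  T_sub := fun l U hU ω => by
    show 0 ≤ U.1 ω - (TT l U).1 ω
    rw [TT_apply]
    by_cases h : ω ∈ DD l
    · rw [ind_of_mem h]; linarith
    · rw [ind_of_notMem h]; linarith [hU ω]
  T_idem := fun l U => by
    apply Subtype.ext
    funext ω
    rw [TT_apply, TT_apply]
    by_cases h : ω ∈ DD l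
    · rw [ind_of_mem h]; ring
    · rw [ind_of_notMem h]; ring
  B_pos := by
    rintro l _ ⟨A, hA, _, rfl⟩ U hU
    rw [bfun_apply]
    exact mul_nonneg (by positivity) (integral_nonneg (fun ω => hU ω))
  B_zero := fun l => ⟨∅, MeasurableSet.empty, by rw [measureReal_empty]; positivity, by
    ext U
    rw [bfun_apply]
    simp⟩

/-- `g` represents the functional `f` of level `a` -/
def Rep (a : ℕ) (f : VI →ₗ[ℝ] ℝ) (g : CS → ℝ) : Prop :=
  Measurable g ∧ (∀ ω, 0 ≤ g ω) ∧ (∀ ω, g ω ≤ 2 ^ a) ∧ ∫ ω, g ω ∂cm ≤ 2 ^ a * (1 / 4) ^ a ∧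
    ∀ U : VI, f U = ∫ ω, g ω * U.1 ω ∂cm

lemma Rep.zero (a : ℕ) : Rep a 0 (fun _ => 0) := by
  refine ⟨measurable_const, fun _ => le_rfl, fun _ => by positivity, ?_, fun U => ?_⟩
  · simp only [integral_zero]; positivity
  · simp

lemma Rep.smul {a : ℕ} {f : VI →ₗ[ℝ] ℝ} {g : CS → ℝ} (h : Rep a f g) {c : ℝ} (hc0 : 0 ≤ c)
    (hc1 : c ≤ 1) : Rep a (c • f) (fun ω => c * g ω) := by
  obtain ⟨h1, h2, h3, h4, h5⟩ := h
  refine ⟨h1.const_mul c, fun ω => mul_nonneg hc0 (h2 ω), fun ω => ?_, ?_, fun U => ?_⟩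
  · have := h2 ω
    have := h3 ω
    nlinarith
  · rw [integral_const_mul]
    have h6 : 0 ≤ ∫ ω, g ω ∂cm := integral_nonneg h2
    nlinarith
  · rw [LinearMap.smul_apply, h5 U, smul_eq_mul, ← integral_const_mul]
    apply integral_congr_ae
    refine Eventually.of_forall (fun ω => ?_)
    simp only
    ring

lemma Rep.bm {a : ℕ} {f : VI →ₗ[ℝ] ℝ} {g : CS → ℝ} (h : Rep a f g) : BM g :=
  ⟨h.1, 2 ^ a, fun ω => by rw [abs_of_nonneg (h.2.1 ω)]; exact h.2.2.1 ω⟩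

lemma Rep.integrable {a : ℕ} {f : VI →ₗ[ℝ] ℝ} {g : CS → ℝ} (h : Rep a f g) {U : CS → ℝ}
    (hU : Integrable U cm) : Integrable (fun ω => g ω * U ω) cm :=
  hU.bdd_mul (c := 2 ^ a) h.1.aestronglyMeasurable (Eventually.of_forall (fun ω => by
    rw [Real.norm_eq_abs, abs_of_nonneg (h.2.1 ω)]; exact h.2.2.1 ω))

lemma Rep.comp {a : ℕ} {f : VI →ₗ[ℝ] ℝ} {g : CS → ℝ} (h : Rep a f g) (l : ℕ) :
    Rep a (f ∘ₗ TT l) (fun ω => ind (DD l) ω * g ω) := by
  have hi0 : ∀ ω, 0 ≤ ind (DD l) ω := by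
    intro ω
    by_cases h : ω ∈ DD l
    · rw [ind_of_mem h]; exact zero_le_one
    · rw [ind_of_notMem h]
  have hi1 : ∀ ω, ind (DD l) ω ≤ 1 := fun ω => (le_abs_self _).trans (ind_abs_le _ _)
  have hg1 : Integrable g cm := by
    have := h.integrable (U := fun _ => 1) (integrable_const 1)
    simpa using this
  obtain ⟨h1, h2, h3, h4, h5⟩ := h
  have hle : ∀ ω, ind (DD l) ω * g ω ≤ g ω := fun ω => by
    have := hi1 ω
    have := h2 ω
    nlinarith
  refine ⟨(ind_bm (DD_meas l)).1.mul h1, fun ω => mul_nonneg (hi0 ω) (h2 ω),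
    fun ω => (hle ω).trans (h3 ω), ?_, fun U => ?_⟩
  · refine le_trans (integral_mono_of_nonneg (Eventually.of_forall (fun ω =>
      mul_nonneg (hi0 ω) (h2 ω))) hg1 (Eventually.of_forall hle)) h4
  · rw [LinearMap.comp_apply, h5]
    apply integral_congr_ae
    refine Eventually.of_forall (fun ω => ?_)
    simp only
    rw [TT_apply]
    ring

lemma Rep.base (a : ℕ) {A : Set CS} (hA : MeasurableSet A) (hm : cm.real A ≤ (1 / 4) ^ a) :
    Rep a (bfun a A) (fun ω => 2 ^ a * ind A ω) := by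
  have hi0 : ∀ ω, 0 ≤ ind A ω := by
    intro ω
    by_cases h : ω ∈ A
    · rw [ind_of_mem h]; exact zero_le_one
    · rw [ind_of_notMem h]
  have hi1 : ∀ ω, ind A ω ≤ 1 := fun ω => (le_abs_self _).trans (ind_abs_le _ _)
  refine ⟨(ind_bm hA).1.const_mul _, fun ω => mul_nonneg (by positivity) (hi0 ω),
    fun ω => mul_le_of_le_one_right (by positivity) (hi1 ω), ?_, fun U => ?_⟩
  · rw [integral_const_mul]
    refine mul_le_mul_of_nonneg_left ?_ (by positivity)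
    unfold ind
    rw [integral_indicator hA]
    simpa using hm
  · rw [bfun_apply, ← integral_indicator hA, ← integral_const_mul]
    apply integral_congr_ae
    refine Eventually.of_forall (fun ω => ?_)
    by_cases h : ω ∈ A
    · simp only
      rw [Set.indicator_of_mem h, ind_of_mem h]
      ring
    · simp only
      rw [Set.indicator_of_notMem h, ind_of_notMem h]
      ring

lemma sum_single_of_succ {W : Type*} [AddCommGroup W] [Module ℝ W] {n : ℕ} {φ : ℕ → Fam W}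
    (hs : ∀ s t, s < t → t < n → FSucc (φ s) (φ t)) (a : ℕ) {t : ℕ} (ht : t < n)
    (hta : φ t a ≠ 0) : ∀ r ∈ range n, r ≠ t → φ r a = 0 := by
  intro r hr hrt
  by_contra hne
  rcases lt_or_gt_of_ne hrt with h1 | h1
  · exact lt_irrefl _ (hs r t h1 ht a a hne hta)
  · exact lt_irrefl _ (hs t r h1 (mem_range.mp hr) a a hta hne)

lemma K_rep {w : Option ℕ} {φ : Fam VI} (h : K cc w φ) : ∀ a, ∃ g, Rep a (φ a) g := by
  induction h with
  | base l f hf =>
    intro a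
    obtain ⟨A, hA, hm, rfl⟩ := hf
    by_cases h : a = l
    · subst h
      rw [Pi.single_eq_same]
      exact ⟨_, Rep.base a hA hm⟩
    · rw [Pi.single_eq_of_ne h]
      exact ⟨_, Rep.zero a⟩
  | ord i n hi hn w φ h hs ih =>
    intro a
    have hm : (1 : ℝ) / pm i ≤ 1 := by
      rw [div_le_one (by exact_mod_cast pm_pos i)]
      exact_mod_cast pm_pos i
    by_cases hex : ∃ t, t < n ∧ φ t a ≠ 0
    · obtain ⟨t, ht, hta⟩ := hex
      obtain ⟨g, hg⟩ := ih t ht a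
      refine ⟨fun ω => (1 / (pm i : ℝ)) * g ω, ?_⟩
      show Rep a ((1 / (pm i : ℝ)) • ∑ t ∈ range n, φ t a) _
      rw [sum_eq_single t (sum_single_of_succ hs a ht hta)
        (fun h => absurd (mem_range.mpr ht) h)]
      exact hg.smul (by positivity) hm
    · push Not at hex
      refine ⟨fun _ => 0, ?_⟩
      show Rep a ((1 / (pm i : ℝ)) • ∑ t ∈ range n, φ t a) _
      rw [sum_eq_zero (fun t ht => hex t (mem_range.mp ht)), smul_zero]
      exact Rep.zero a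
  | spec i n hi hn l φ h hs ih =>
    intro a
    have hm : (1 : ℝ) / pm i ≤ 1 := by
      rw [div_le_one (by exact_mod_cast pm_pos i)]
      exact_mod_cast pm_pos i
    by_cases hex : ∃ t, t < n ∧ φ t a ≠ 0
    · obtain ⟨t, ht, hta⟩ := hex
      obtain ⟨g, hg⟩ := ih t ht a
      refine ⟨fun ω => (1 / (pm i : ℝ)) * (ind (DD (l t)) ω * g ω), ?_⟩
      show Rep a ((1 / (pm i : ℝ)) • ∑ t ∈ range n, (φ t a) ∘ₗ cc.T (l t)) _
      rw [sum_eq_single t (fun r hr hrt => by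
          rw [sum_single_of_succ hs a ht hta r hr hrt, LinearMap.zero_comp])
        (fun h => absurd (mem_range.mpr ht) h)]
      exact (hg.comp (l t)).smul (by positivity) hm
    · push Not at hex
      refine ⟨fun _ => 0, ?_⟩
      show Rep a ((1 / (pm i : ℝ)) • ∑ t ∈ range n, (φ t a) ∘ₗ cc.T (l t)) _
      rw [sum_eq_zero (fun t ht => by rw [hex t (mem_range.mp ht), LinearMap.zero_comp]), smul_zero]
      exact Rep.zero a

/-- the weights -/
def WW : Set (CS → ℝ) := {w | ∃ v φ, K cc v φ ∧ ∃ (S : Finset ℕ) (g : ℕ → CS → ℝ),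
  (∀ a, Rep a (φ a) (g a)) ∧ w = fun ω => ∑ a ∈ S, g a ω}

lemma ev_rep {φ : Fam VI} {g : ℕ → CS → ℝ} (hg : ∀ a, Rep a (φ a) (g a)) (S : Finset ℕ) (U : VI) :
    ev φ S U = ∫ ω, (∑ a ∈ S, g a ω) * U.1 ω ∂cm := by
  unfold ev
  rw [sum_congr rfl (fun a _ => (hg a).2.2.2.2 U), ← integral_finsetSum]
  · apply integral_congr_ae
    refine Eventually.of_forall (fun ω => ?_)
    simp only
    rw [sum_mul]
  · intro a _
    exact (hg a).integrable (VI.int U)

lemma WW_exists {v : Option ℕ} {φ : Fam VI} (h : K cc v φ) (S : Finset ℕ) :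
    ∃ w ∈ WW, ∀ U : VI, ev φ S U = ∫ ω, w ω * U.1 ω ∂cm := by
  choose g hg using K_rep h
  exact ⟨_, ⟨v, φ, h, S, g, hg, rfl⟩, fun U => ev_rep hg S U⟩

lemma WW_bw {w : CS → ℝ} (hw : w ∈ WW) : BW w := by
  obtain ⟨v, φ, h, S, g, hg, rfl⟩ := hw
  refine ⟨Finset.measurable_fun_sum S (fun a _ => (hg a).1),
    fun ω => sum_nonneg (fun a _ => (hg a).2.1 ω), ∑ a ∈ S, 2 ^ a,
    fun ω => sum_le_sum (fun a _ => (hg a).2.2.1 ω)⟩

lemma K_one : K cc none (Pi.single 0 (bfun 0 Set.univ)) :=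
  K.base 0 _ ⟨Set.univ, MeasurableSet.univ, by simp, rfl⟩

lemma WW_one : (fun _ => (1 : ℝ)) ∈ WW := by
  refine ⟨none, _, K_one, {0}, fun a => if a = 0 then (fun ω => 2 ^ 0 * ind Set.univ ω)
    else fun _ => 0, ?_, ?_⟩
  · intro a
    by_cases h : a = 0
    · subst h
      simp only [if_true, Pi.single_eq_same]
      exact Rep.base 0 MeasurableSet.univ (by simp)
    · simp only [h, if_false, Pi.single_eq_of_ne h]
      exact Rep.zero a
  · funext ω
    simp [ind]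

lemma WW_int {w : CS → ℝ} (hw : w ∈ WW) : ∫ ω, w ω ∂cm ≤ 2 := by
  obtain ⟨v, φ, h, S, g, hg, rfl⟩ := hw
  rw [integral_finsetSum]
  · have h1 : ∀ a ∈ S, ∫ ω, g a ω ∂cm ≤ (1 / 2 : ℝ) ^ a := by
      intro a _
      refine (hg a).2.2.2.1.trans (le_of_eq ?_)
      rw [← mul_pow]
      norm_num
    calc ∑ a ∈ S, ∫ ω, g a ω ∂cm ≤ ∑ a ∈ S, (1 / 2 : ℝ) ^ a := sum_le_sum h1
      _ ≤ ∑' n : ℕ, (1 / 2 : ℝ) ^ n :=
        summable_geometric_two.sum_le_tsum S (fun a _ => by positivity)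
      _ = 2 := tsum_geometric_two
  · intro a _
    have := (hg a).integrable (U := fun _ => 1) (integrable_const 1)
    simpa using this

/-- squares of elements of `L²` -/
noncomputable def sqV (x : HH cm) : VI := ⟨fun ω => (x ω) ^ 2, integrable_sq_HH x⟩

lemma sqV_pos (x : HH cm) : sqV x ∈ cc.pos := fun _ => sq_nonneg _

lemma sum_pow_range_le (L : ℕ) (S : Finset ℕ) (hS : ∀ a ∈ S, a < L) :
    ∑ a ∈ S, (2 : ℝ) ^ a ≤ 2 ^ L := by
  have h1 : ∑ a ∈ S, (2 : ℝ) ^ a ≤ ∑ a ∈ range L, (2 : ℝ) ^ a :=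
    sum_le_sum_of_subset_of_nonneg (fun a ha => mem_range.mpr (hS a ha))
      (fun _ _ _ => by positivity)
  have h2 : ∑ a ∈ range L, (2 : ℝ) ^ a = 2 ^ L - 1 := by
    rw [geom_sum_eq (by norm_num)]
    ring
  linarith

/-- upper estimate by the integral -/
lemma ev_le_integral {φ : Fam VI} {g : ℕ → CS → ℝ} (hg : ∀ a, Rep a (φ a) (g a)) (L : ℕ)
    (S : Finset ℕ) (hS : ∀ a ∈ S, a < L) (A : Set CS) (_hA : MeasurableSet A) (U : CS → ℝ)
    (hU : Integrable U cm) (hU0 : ∀ ω, 0 ≤ U ω) :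
    ∫ ω in A, (∑ a ∈ S, g a ω) * U ω ∂cm ≤ 2 ^ L * ∫ ω in A, U ω ∂cm := by
  rw [← integral_const_mul]
  apply integral_mono_of_nonneg
  · exact Eventually.of_forall (fun ω =>
      mul_nonneg (sum_nonneg (fun a _ => (hg a).2.1 ω)) (hU0 ω))
  · exact (hU.const_mul _).integrableOn
  · refine Eventually.of_forall (fun ω => ?_)
    refine mul_le_mul_of_nonneg_right ?_ (hU0 ω)
    exact (sum_le_sum (fun a _ => (hg a).2.2.1 ω)).trans (sum_pow_range_le L S hS)

lemma WW_oc (x : HH cm) (hx : ∃ c, ∀ w ∈ WW, ‖mw cm w x‖ ≤ c) (ε : ℝ) (hε : 0 < ε) :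
    ∃ δ, 0 < δ ∧ ∀ A, MeasurableSet A → cm.real A ≤ δ → ∀ w ∈ WW,
      ∫ ω in A, w ω * (x ω) ^ 2 ∂cm ≤ ε := by
  obtain ⟨c, hc⟩ := hx
  have hbd : Bd cc (sqV x) (c ^ 2) := by
    intro v φ h S
    obtain ⟨w, hw, hev⟩ := WW_exists h S
    rw [hev]
    have h1 : ∫ ω, w ω * (sqV x).1 ω ∂cm = ‖mw cm w x‖ ^ 2 := (mw_norm_sq (WW_bw hw) x).symm
    rw [h1]
    exact pow_le_pow_left₀ (norm_nonneg _) (hc w hw) 2
  obtain ⟨L, hL⟩ := hbd.tail (sqV_pos x) (half_pos hε)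
  obtain ⟨δ, hδ, hA⟩ := exists_small_setIntegral (integrable_sq_HH x) (ε / (2 * 2 ^ L))
    (by positivity)
  refine ⟨δ, hδ, fun A hAm hμ w hw => ?_⟩
  obtain ⟨v, φ, h, S, g, hg, rfl⟩ := hw
  have hsplit : ∀ ω, (∑ a ∈ S, g a ω) * (x ω) ^ 2 =
      (∑ a ∈ S.filter (fun a => a < L), g a ω) * (x ω) ^ 2 +
        (∑ a ∈ S.filter (fun a => ¬ a < L), g a ω) * (x ω) ^ 2 := by
    intro ω
    rw [← add_mul, sum_filter_add_sum_filter_not]
  have hint : ∀ S' : Finset ℕ, Integrable (fun ω => (∑ a ∈ S', g a ω) * (x ω) ^ 2) cm := by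
    intro S'
    have : (fun ω => (∑ a ∈ S', g a ω) * (x ω) ^ 2) = fun ω => ∑ a ∈ S', (g a ω * (x ω) ^ 2) := by
      funext ω
      rw [sum_mul]
    rw [this]
    exact integrable_finsetSum _ (fun a _ => (hg a).integrable (integrable_sq_HH x))
  simp only [hsplit]
  rw [integral_add (hint _).integrableOn (hint _).integrableOn]
  have h1 := ev_le_integral hg L (S.filter (fun a => a < L)) (fun a ha => (mem_filter.mp ha).2) A
    hAm _ (integrable_sq_HH x) (fun ω => sq_nonneg _)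
  have h2 : 2 ^ L * ∫ ω in A, (x ω) ^ 2 ∂cm ≤ ε / 2 := by
    have h3 : 2 ^ L * ∫ ω in A, (x ω) ^ 2 ∂cm ≤ 2 ^ L * (ε / (2 * 2 ^ L)) :=
      mul_le_mul_of_nonneg_left (hA A hμ) (by positivity)
    have h4 : (2 : ℝ) ^ L * (ε / (2 * 2 ^ L)) = ε / 2 := by field_simp
    linarith
  have h3 : ∫ ω in A, (∑ a ∈ S.filter (fun a => ¬ a < L), g a ω) * (x ω) ^ 2 ∂cm ≤ ε / 2 := by
    have h4 := hL v φ h (S.filter (fun a => ¬ a < L))
      (fun a ha => not_lt.mp (mem_filter.mp ha).2)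
    rw [ev_rep hg] at h4
    refine le_trans ?_ h4
    exact setIntegral_le_integral (hint _) (Eventually.of_forall (fun ω =>
      mul_nonneg (sum_nonneg (fun a _ => (hg a).2.1 ω)) (sq_nonneg _)))
  linarith

/-- the system of weights -/
noncomputable def ws : WSys cm where
  W := WW
  bw := fun _ hw => WW_bw hw
  one_mem := WW_one
  c1 := 2
  int_le := fun _ hw => WW_int hw
  oc := WW_oc

lemma ev_sqV_eq {v : Option ℕ} {φ : Fam VI} (h : K cc v φ) (S : Finset ℕ) :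
    ∃ w ∈ ws.W, ∀ x : HH cm, ev φ S (sqV x) = ‖mw cm w x‖ ^ 2 := by
  obtain ⟨w, hw, hev⟩ := WW_exists h S
  refine ⟨w, hw, fun x => ?_⟩
  rw [hev, mw_norm_sq (WW_bw hw)]
  rfl

lemma ev_sqV_le {v : Option ℕ} {φ : Fam VI} (h : K cc v φ) (S : Finset ℕ) (x : ws.E) :
    ev φ S (sqV (WSys.toH x)) ≤ ‖x‖ ^ 2 := by
  obtain ⟨w, hw, hev⟩ := ev_sqV_eq h S
  rw [hev]
  exact pow_le_pow_left₀ (norm_nonneg _) (mw_le_norm hw x) 2

lemma norm_sq_le_of_Bd {x : ws.E} {c : ℝ} (h : Bd cc (sqV (WSys.toH x)) c) : ‖x‖ ^ 2 ≤ c := by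
  have hc := h.nonneg
  have h1 : ‖x‖ ≤ √c := by
    refine E_norm_le (fun w hw => ?_)
    apply Real.le_sqrt_of_sq_le
    obtain ⟨v, φ, hφ, S, g, hg, rfl⟩ := hw
    rw [mw_norm_sq (WW_bw ⟨v, φ, hφ, S, g, hg, rfl⟩)]
    have := h v φ hφ S
    rw [ev_rep hg] at this
    exact this
  calc ‖x‖ ^ 2 ≤ (√c) ^ 2 := pow_le_pow_left₀ (norm_nonneg _) h1 2
    _ = c := Real.sq_sqrt hc

lemma ev_congr {v : Option ℕ} {φ : Fam VI} (h : K cc v φ) (S : Finset ℕ) {U W : VI}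
    (hUW : U.1 =ᵐ[cm] W.1) : ev φ S U = ev φ S W := by
  obtain ⟨w, _, hev⟩ := WW_exists h S
  rw [hev, hev]
  apply integral_congr_ae
  filter_upwards [hUW] with ω hω
  rw [hω]

lemma ind_DD_eq (l : ℕ) (ω : CS) : ind (DD l) ω = (1 - rad l ω) / 2 := by
  by_cases h : ω l = true
  · rw [ind_of_mem (A := DD l) h]
    unfold rad rs
    rw [if_pos h]
    norm_num
  · rw [ind_of_notMem (A := DD l) h]
    unfold rad rs
    rw [if_neg h]
    norm_num

/-- hypothesis H4 -/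
lemma H4 {w : Option ℕ} {φ : Fam VI} (h : K cc w φ) (a : ℕ) (U : VI) :
    Tendsto (fun l => φ a (cc.T l U)) atTop (𝓝 (φ a U / 2)) := by
  obtain ⟨g, hg⟩ := K_rep h a
  have hint : Integrable (fun ω => g ω * U.1 ω) cm := hg.integrable (VI.int U)
  have h1 : ∀ l, φ a (cc.T l U) = (1 / 2) * (φ a U) -
      (1 / 2) * ∫ ω, rad l ω * (g ω * U.1 ω) ∂cm := by
    intro l
    have hint2 : Integrable (fun ω => rad l ω * (g ω * U.1 ω)) cm :=
      hint.bdd_mul (c := 1) (rad_measurable l).aestronglyMeasurable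
        (Eventually.of_forall (fun ω => by rw [Real.norm_eq_abs, rad_abs]))
    rw [hg.2.2.2.2, hg.2.2.2.2, ← integral_const_mul, ← integral_const_mul, ← integral_sub
      (hint.const_mul _) (hint2.const_mul _)]
    apply integral_congr_ae
    refine Eventually.of_forall (fun ω => ?_)
    have h2 : (cc.T l U).1 ω = ind (DD l) ω * U.1 ω := TT_apply l U ω
    simp only
    rw [h2, ind_DD_eq]
    ring
  simp only [h1]
  have h3 := (rad_tendsto _ hint).const_mul (1 / 2 : ℝ)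
  have h4 : Tendsto (fun l => (1 / 2) * (φ a U) - (1 / 2) * ∫ ω, rad l ω * (g ω * U.1 ω) ∂cm)
      atTop (𝓝 ((1 / 2) * (φ a U) - (1 / 2) * 0)) := tendsto_const_nhds.sub h3
  have h5 : (1 / 2) * (φ a U) - (1 / 2 : ℝ) * 0 = φ a U / 2 := by ring
  rw [← h5]
  exact h4

end Run7.h921
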