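import Mathlib

/-!
Diagonal parts of operators.
-/

set_option autoImplicit false

namespace Run7.h921

lemma diag_aux {X : Type*} [NormedAddCommGroup X] [NormedSpace ℝ X] (M : ℕ → X →L[ℝ] X)
    (hM : ∀ n x, M n (M n x) = M n x) (hMM : ∀ n m, n ≠ m → ∀ x, M n (M m x) = 0)
    (hR : ∀ n x, ‖(2 : ℝ) • M n x - x‖ ≤ ‖x‖) (Q : X →L[ℝ] X) (S : Finset ℕ) :
    ∃ Q' : X →L[ℝ] X, ‖Q'‖ ≤ ‖Q‖ ∧ (∀ n x, M n (Q' (M n x)) = M n (Q (M n x))) ∧
      (∀ n ∈ S, ∀ x, Q' (M n x) = M n (Q' (M n x))) := by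
  classical
  induction S using Finset.induction_on with
  | empty => exact ⟨Q, le_rfl, fun _ _ => rfl, fun n hn => absurd hn (Finset.notMem_empty n)⟩
  | insert k S hk ih =>
    obtain ⟨Q', h1, h2, h3⟩ := ih
    let R : X →L[ℝ] X := (2 : ℝ) • M k - ContinuousLinearMap.id ℝ X
    have hRx : ∀ x, R x = (2 : ℝ) • M k x - x := fun x => rfl
    let Q'' : X →L[ℝ] X := (1 / 2 : ℝ) • (Q' + R.comp (Q'.comp R))
    have hQ'' : ∀ x, Q'' x = (1 / 2 : ℝ) • (Q' x + R (Q' (R x))) := fun x => rfl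
    have hRk : ∀ x, R (M k x) = M k x := by
      intro x
      rw [hRx, hM, two_smul]
      abel
    have hRn : ∀ n, n ≠ k → ∀ x, R (M n x) = -M n x := by
      intro n hn x
      rw [hRx, hMM k n (Ne.symm hn), smul_zero, zero_sub]
    have hkR : ∀ x, M k (R x) = M k x := by
      intro x
      rw [hRx, map_sub, map_smul, hM, two_smul]
      abel
    have hnR : ∀ n, n ≠ k → ∀ x, M n (R x) = -M n x := by
      intro n hn x
      rw [hRx, map_sub, map_smul, hMM n k hn, smul_zero, zero_sub]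
    have hhalf : ∀ y : X, (1 / 2 : ℝ) • (y + y) = y := by
      intro y
      rw [← two_smul ℝ y, smul_smul]
      norm_num
    have hdiag : ∀ n x, M n (Q'' (M n x)) = M n (Q' (M n x)) := by
      intro n x
      rw [hQ'', map_smul, map_add]
      by_cases hn : n = k
      · subst hn
        rw [hRk, hkR, hhalf]
      · rw [hRn n hn, hnR n hn, map_neg, map_neg, neg_neg, hhalf]
    refine ⟨Q'', ?_, fun n x => (hdiag n x).trans (h2 n x), ?_⟩
    · apply ContinuousLinearMap.opNorm_le_bound _ (norm_nonneg _)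
      intro x
      rw [hQ'', norm_smul]
      have e1 : ‖Q' x‖ ≤ ‖Q‖ * ‖x‖ :=
        (Q'.le_opNorm x).trans (mul_le_mul_of_nonneg_right h1 (norm_nonneg _))
      have e2 : ‖R (Q' (R x))‖ ≤ ‖Q‖ * ‖x‖ := by
        refine (hR k _).trans ?_
        refine (Q'.le_opNorm _).trans ?_
        exact mul_le_mul h1 (hR k x) (norm_nonneg _) (norm_nonneg _)
      have e3 : ‖Q' x + R (Q' (R x))‖ ≤ 2 * (‖Q‖ * ‖x‖) := by
        refine (norm_add_le _ _).trans ?_
        linarith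
      have e4 : ‖(1 / 2 : ℝ)‖ = 1 / 2 := by norm_num
      rw [e4]
      linarith
    · intro n hn x
      rw [hdiag]
      by_cases hnk : n = k
      · subst hnk
        rw [hQ'', hRk, hRx]
        rw [add_sub_cancel, smul_smul]
        norm_num
      · have hnS : n ∈ S := (Finset.mem_insert.mp hn).resolve_left hnk
        have e1 := h3 n hnS x
        rw [hQ'', hRn n hnk, map_neg, map_neg]
        have e2 : R (Q' (M n x)) = -(Q' (M n x)) := by
          rw [e1, hRn n hnk]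
        rw [e2, neg_neg, hhalf]
        exact e1

lemma diag_norm_le {X : Type*} [NormedAddCommGroup X] [NormedSpace ℝ X] (M : ℕ → X →L[ℝ] X)
    (hM : ∀ n x, M n (M n x) = M n x) (hMM : ∀ n m, n ≠ m → ∀ x, M n (M m x) = 0)
    (hR : ∀ n x, ‖(2 : ℝ) • M n x - x‖ ≤ ‖x‖)
    (Q : X →L[ℝ] X) (S : Finset ℕ) (x : X) (hS : ‖∑ n ∈ S, M n x‖ ≤ ‖x‖) :
    ‖∑ n ∈ S, M n (Q (M n x))‖ ≤ ‖Q‖ * ‖x‖ := by
  obtain ⟨Q', h1, h2, h3⟩ := diag_aux M hM hMM hR Q S
  have e1 : ∑ n ∈ S, M n (Q (M n x)) = Q' (∑ n ∈ S, M n x) := by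
    rw [map_sum]
    refine Finset.sum_congr rfl (fun n hn => ?_)
    rw [← h2, ← h3 n hn]
  rw [e1]
  exact (Q'.le_opNorm _).trans (mul_le_mul h1 hS (norm_nonneg _) (norm_nonneg _))

end Run7.h921
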