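import Pool.Agent.Run7.h921.Concrete
import Pool.Agent.Run7.h921.Diag

/-!
Normalised disjoint sequences satisfy the hypotheses of the combinatorial theorem.
-/

set_option autoImplicit false
set_option linter.unusedSectionVars false

open MeasureTheory Filter Topology Finset

namespace Run7.h921

/-- disjointness in the lattice is disjointness almost everywhere -/
lemma disj_ae {x y : ws.E} (h : |x| ⊓ |y| = 0) : ∀ᵐ ω ∂cm, WSys.toH x ω * WSys.toH y ω = 0 := by
  have h1 : |WSys.toH x| ⊓ |WSys.toH y| = 0 := by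
    rw [← toH_abs, ← toH_abs, ← toH_inf, h, toH_zero]
  have h2 := Lp.coeFn_inf |WSys.toH x| |WSys.toH y|
  rw [h1] at h2
  filter_upwards [h2, Lp.coeFn_zero ℝ 2 cm, HH.abs_ae (WSys.toH x), HH.abs_ae (WSys.toH y)]
    with ω h3 h4 h5 h6
  rw [h4, Pi.inf_apply, h5, h6] at h3
  have h7 : (0 : ℝ) = min |WSys.toH x ω| |WSys.toH y ω| := h3
  rcases min_choice |WSys.toH x ω| |WSys.toH y ω| with h8 | h8
  · rw [h8] at h7
    rw [abs_eq_zero.mp h7.symm, zero_mul]
  · rw [h8] at h7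
    rw [abs_eq_zero.mp h7.symm, mul_zero]

/-- A normalised disjoint sequence in function form. -/
structure DS (u : ℕ → ws.E) : Prop where
  norm_one : ∀ n, ‖u n‖ = 1
  disj : ∀ n m, n ≠ m → ∀ᵐ ω ∂cm, WSys.toH (u n) ω * WSys.toH (u m) ω = 0

lemma u_meas (u : ℕ → ws.E) (n : ℕ) : Measurable (WSys.toH (u n) : CS → ℝ) :=
  (Lp.stronglyMeasurable _).measurable

/-- the disjoint supports -/
def AA (u : ℕ → ws.E) (n : ℕ) : Set CS :=
  {ω | WSys.toH (u n) ω ≠ 0} ∩ ⋂ m ∈ range n, {ω | WSys.toH (u m) ω = 0}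

lemma AA_meas (u : ℕ → ws.E) (n : ℕ) : MeasurableSet (AA u n) := by
  refine MeasurableSet.inter ?_ ?_
  · have := measurableSet_eq_fun (u_meas u n) (measurable_const (a := (0 : ℝ)))
    exact this.compl
  · exact (range n).measurableSet_biInter (fun m _ =>
      measurableSet_eq_fun (u_meas u m) (measurable_const (a := (0 : ℝ))))

lemma AA_disj (u : ℕ → ws.E) {n m : ℕ} (h : n < m) {ω : CS} (hn : ω ∈ AA u n) (hm : ω ∈ AA u m) :
    False := by
  have h1 : WSys.toH (u n) ω ≠ 0 := hn.1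
  have h2 := hm.2
  rw [Set.mem_iInter₂] at h2
  exact h1 (h2 n (mem_range.mpr h))

lemma AA_disj' (u : ℕ → ws.E) {n m : ℕ} (h : n ≠ m) {ω : CS} (hn : ω ∈ AA u n)
    (hm : ω ∈ AA u m) : False := by
  rcases lt_or_gt_of_ne h with h1 | h1
  · exact AA_disj u h1 hn hm
  · exact AA_disj u h1 hm hn

/-- all the almost everywhere statements in one -/
lemma DS.ae {u : ℕ → ws.E} (h : DS u) : ∀ᵐ ω ∂cm, ∀ n m, n ≠ m →
    WSys.toH (u n) ω * WSys.toH (u m) ω = 0 := by
  rw [ae_all_iff]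
  intro n
  rw [ae_all_iff]
  intro m
  by_cases hnm : n = m
  · exact Eventually.of_forall (fun ω hne => absurd hnm hne)
  · filter_upwards [h.disj n m hnm] with ω hω _
    exact hω

lemma DS.supp {u : ℕ → ws.E} (h : DS u) : ∀ᵐ ω ∂cm, ∀ n m,
    ind (AA u n) ω * WSys.toH (u m) ω = if n = m then WSys.toH (u n) ω else 0 := by
  filter_upwards [h.ae] with ω hω n m
  by_cases hnm : n = m
  · subst hnm
    rw [if_pos rfl]
    by_cases h0 : WSys.toH (u n) ω = 0
    · rw [h0, mul_zero]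
    · have hmem : ω ∈ AA u n := by
        refine ⟨h0, ?_⟩
        rw [Set.mem_iInter₂]
        intro m hm
        have hne : n ≠ m := by
          have := mem_range.mp hm
          omega
        have h1 := hω n m hne
        exact (mul_eq_zero.mp h1).resolve_left h0
      rw [ind_of_mem hmem, one_mul]
  · rw [if_neg hnm]
    by_cases hmem : ω ∈ AA u n
    · have h0 : WSys.toH (u n) ω ≠ 0 := hmem.1
      have h1 := hω n m hnm
      rw [(mul_eq_zero.mp h1).resolve_left h0, mul_zero]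
    · rw [ind_of_notMem hmem, zero_mul]

/-- the functions `F n` -/
noncomputable def FF (u : ℕ → ws.E) (n : ℕ) : VI :=
  ⟨fun ω => ind (AA u n) ω * (WSys.toH (u n) ω) ^ 2,
    integrable_bmul_sq (ind_bm (AA_meas u n)) _⟩

lemma FF_apply (u : ℕ → ws.E) (n : ℕ) (ω : CS) :
    (FF u n).1 ω = ind (AA u n) ω * (WSys.toH (u n) ω) ^ 2 := rfl

lemma FF_ae {u : ℕ → ws.E} (h : DS u) (n : ℕ) : (FF u n).1 =ᵐ[cm] (sqV (WSys.toH (u n))).1 := by
  filter_upwards [h.supp] with ω hω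
  have h1 := hω n n
  rw [if_pos rfl] at h1
  rw [FF_apply]
  show _ = (WSys.toH (u n) ω) ^ 2
  calc ind (AA u n) ω * (WSys.toH (u n) ω) ^ 2 =
      (ind (AA u n) ω * WSys.toH (u n) ω) * WSys.toH (u n) ω := by ring
    _ = (WSys.toH (u n) ω) ^ 2 := by rw [h1]; ring

lemma ind_nonneg (A : Set CS) (ω : CS) : 0 ≤ ind A ω := by
  by_cases h : ω ∈ A
  · rw [ind_of_mem h]; exact zero_le_one
  · rw [ind_of_notMem h]

lemma FF_pos (u : ℕ → ws.E) (n : ℕ) : FF u n ∈ cc.pos := fun ω =>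
  mul_nonneg (ind_nonneg (AA u n) ω) (sq_nonneg _)

lemma VI_sum_apply (t : Finset ℕ) (a : ℕ → ℝ) (F : ℕ → VI) (ω : CS) :
    (∑ n ∈ t, a n • F n : VI).1 ω = ∑ n ∈ t, a n * (F n).1 ω := by
  induction t using Finset.induction_on with
  | empty => rfl
  | insert k t hk ih =>
    rw [sum_insert hk, sum_insert hk]
    show (a k • F k).1 ω + (∑ n ∈ t, a n • F n : VI).1 ω = _
    rw [ih]
    rfl

/-- the tails of the supports -/
def BB (u : ℕ → ws.E) (N : ℕ) : Set CS := ⋃ n : ℕ, ⋃ _ : N ≤ n, AA u n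

lemma BB_meas (u : ℕ → ws.E) (N : ℕ) : MeasurableSet (BB u N) :=
  MeasurableSet.iUnion (fun n => MeasurableSet.iUnion (fun _ => AA_meas u n))

lemma BB_small (u : ℕ → ws.E) (δ : ℝ) (hδ : 0 < δ) : ∃ N, cm.real (BB u N) ≤ δ := by
  have h1 : Tendsto (fun N : ℕ => cm (BB u N)) atTop (𝓝 (cm (⋂ N : ℕ, BB u N))) := by
    apply tendsto_measure_iInter_atTop (fun k => (BB_meas u k).nullMeasurableSet)
    · intro k k' hkk' ω hω
      simp only [BB, Set.mem_iUnion] at hω ⊢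
      obtain ⟨n, hn, hω⟩ := hω
      exact ⟨n, hkk'.trans hn, hω⟩
    · exact ⟨0, measure_ne_top _ _⟩
  have h2 : (⋂ N : ℕ, BB u N) = ∅ := by
    ext ω
    simp only [Set.mem_iInter, Set.mem_empty_iff_false, iff_false]
    intro h
    have h3 := h 0
    simp only [BB, Set.mem_iUnion] at h3
    obtain ⟨n, _, hn⟩ := h3
    have h4 := h (n + 1)
    simp only [BB, Set.mem_iUnion] at h4
    obtain ⟨m, hm, hm'⟩ := h4
    exact AA_disj u (by omega : n < m) hn hm'
  rw [h2, measure_empty] at h1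
  obtain ⟨k, hk⟩ := (h1.eventually (gt_mem_nhds (ENNReal.ofReal_pos.mpr hδ))).exists
  exact ⟨k, ENNReal.toReal_le_of_le_ofReal hδ.le hk.le⟩

lemma Cone_supp (u : ℕ → ws.E) {N : ℕ} {U : VI} (h : Cone (FF u) N U) :
    ∀ ω, ω ∉ BB u N → U.1 ω = 0 := by
  intro ω hω
  obtain ⟨M, a, _, ha1, _, hU⟩ := h
  rw [hU, VI_sum_apply]
  apply sum_eq_zero
  intro n _
  by_cases hn : n < N
  · rw [ha1 n hn, zero_mul]
  · have : ω ∉ AA u n := by
      intro hmem
      apply hω
      simp only [BB, Set.mem_iUnion]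
      exact ⟨n, not_lt.mp hn, hmem⟩
    rw [FF_apply, ind_of_notMem this]
    ring

lemma FF_h2 (u : ℕ → ws.E) (L : ℕ) (ε : ℝ) (hε : 0 < ε) :
    ∃ N, ∀ U, Cone (FF u) N U → Bd cc U 1 → WinL cc U L ε := by
  obtain ⟨k, hk⟩ := exists_pow_lt_of_lt_one (show (0 : ℝ) < ε / 2 ^ L by positivity)
    (show (1 / 2 : ℝ) < 1 by norm_num)
  obtain ⟨N, hN⟩ := BB_small u ((1 / 4) ^ k) (by positivity)
  refine ⟨N, fun U hU hbd w φ hφ S hS => ?_⟩
  have hUpos : ∀ ω, 0 ≤ U.1 ω := hU.pos (C := cc) (FF_pos u)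
  have hsupp := Cone_supp u hU
  -- the integral is small
  have h1 : (2 : ℝ) ^ k * ∫ ω, U.1 ω ∂cm ≤ 1 := by
    have hK : K cc none (Pi.single k (bfun k (BB u N))) :=
      K.base k _ ⟨BB u N, BB_meas u N, hN, rfl⟩
    have h2 := hbd _ _ hK {k}
    have h3 : ev (Pi.single k (bfun k (BB u N))) {k} U = 2 ^ k * ∫ ω in BB u N, U.1 ω ∂cm := by
      unfold ev
      rw [sum_singleton, Pi.single_eq_same, bfun_apply]
    rw [h3] at h2
    have h4 : ∫ ω in BB u N, U.1 ω ∂cm = ∫ ω, U.1 ω ∂cm := by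
      rw [← integral_indicator (BB_meas u N)]
      apply integral_congr_ae
      refine Eventually.of_forall (fun ω => ?_)
      by_cases h : ω ∈ BB u N
      · rw [Set.indicator_of_mem h]
      · rw [Set.indicator_of_notMem h, hsupp ω h]
    rw [h4] at h2
    exact h2
  choose g hg using K_rep hφ
  rw [ev_rep hg]
  have h2 := ev_le_integral hg L S hS Set.univ MeasurableSet.univ U.1 (VI.int U) hUpos
  rw [setIntegral_univ, setIntegral_univ] at h2
  refine h2.trans ?_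
  have hI : ∫ ω, U.1 ω ∂cm ≤ (1 / 2) ^ k := by
    have h3 : (0 : ℝ) < 2 ^ k := by positivity
    rw [one_div, inv_pow, ← one_div, le_div_iff₀ h3]
    linarith
  have h5 : (2 : ℝ) ^ L * ∫ ω, U.1 ω ∂cm ≤ 2 ^ L * (ε / 2 ^ L) :=
    mul_le_mul_of_nonneg_left (hI.trans hk.le) (by positivity)
  have h6 : (2 : ℝ) ^ L * (ε / 2 ^ L) = ε := by field_simp
  linarith

lemma DS.data {u : ℕ → ws.E} (h : DS u) : Data cc (FF u) where
  pos := FF_pos u
  bd n w φ hφ S := by
    rw [ev_congr hφ S (FF_ae h n)]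
    have := ev_sqV_le hφ S (u n)
    rw [h.norm_one, one_pow] at this
    exact this
  big n := by
    by_contra hcon
    push Not at hcon
    have hbd : Bd cc (sqV (WSys.toH (u n))) (1 / 2) := by
      intro w φ hφ S
      rw [← ev_congr hφ S (FF_ae h n)]
      exact (hcon w φ S hφ).le
    have := norm_sq_le_of_Bd hbd
    rw [h.norm_one] at this
    norm_num at this
  h2 := FF_h2 u

lemma toH_sum_ae (t : Finset ℕ) (v : ℕ → ws.E) :
    (WSys.toH (∑ n ∈ t, v n) : CS → ℝ) =ᵐ[cm] fun ω => ∑ n ∈ t, WSys.toH (v n) ω := by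
  induction t using Finset.induction_on with
  | empty =>
    rw [sum_empty, toH_zero]
    filter_upwards [Lp.coeFn_zero ℝ 2 cm] with ω h
    rw [h, sum_empty]
    rfl
  | insert k t hk ih =>
    rw [sum_insert hk, toH_add]
    filter_upwards [ih, Lp.coeFn_add (WSys.toH (v k)) (WSys.toH (∑ n ∈ t, v n))] with ω h1 h2
    rw [h2, Pi.add_apply, h1, sum_insert hk]

lemma toH_smul_ae (c : ℝ) (v : ws.E) :
    (WSys.toH (c • v) : CS → ℝ) =ᵐ[cm] fun ω => c * WSys.toH v ω := by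
  rw [toH_smul]
  filter_upwards [Lp.coeFn_smul c (WSys.toH v)] with ω h
  rw [h, Pi.smul_apply, smul_eq_mul]

/-- square of a sum of disjoint numbers -/
lemma sq_sum_disj (t : Finset ℕ) (s : ℕ → ℝ) (h : ∀ n m, n ≠ m → s n * s m = 0) :
    (∑ n ∈ t, s n) ^ 2 = ∑ n ∈ t, (s n) ^ 2 := by
  induction t using Finset.induction_on with
  | empty => simp
  | insert k t hk ih =>
    rw [sum_insert hk, sum_insert hk, ← ih]
    have h1 : s k * ∑ n ∈ t, s n = 0 := by
      rw [mul_sum]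
      apply sum_eq_zero
      intro n hn
      exact h k n (fun h' => hk (h' ▸ hn))
    have h2 : (s k + ∑ n ∈ t, s n) ^ 2 = (s k) ^ 2 + 2 * (s k * ∑ n ∈ t, s n) +
      (∑ n ∈ t, s n) ^ 2 := by ring
    rw [h2, h1]
    ring

end Run7.h921
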