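import Pool.Agent.Run7.h921.FinalA

/-!
No projection onto the closed span of a disjoint sequence.
-/

set_option autoImplicit false
set_option linter.unusedSectionVars false

open MeasureTheory Filter Topology Finset

namespace Run7.h921

/-- the band projections -/
noncomputable def MM (u : ℕ → ws.E) (n : ℕ) : ws.E →L[ℝ] ws.E := mulE ws (ind (AA u n))

lemma MM_ae (u : ℕ → ws.E) (n : ℕ) (x : ws.E) :
    WSys.toH (MM u n x) =ᵐ[cm] fun ω => ind (AA u n) ω * WSys.toH x ω :=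
  mulE_ae (ind_bm (AA_meas u n)) x

lemma ind_mul_self (A : Set CS) (ω : CS) : ind A ω * ind A ω = ind A ω := by
  by_cases h : ω ∈ A
  · rw [ind_of_mem h, one_mul]
  · rw [ind_of_notMem h, zero_mul]

lemma MM_idem (u : ℕ → ws.E) (n : ℕ) (x : ws.E) : MM u n (MM u n x) = MM u n x := by
  apply toH_inj
  apply Lp.ext
  filter_upwards [MM_ae u n (MM u n x), MM_ae u n x] with ω h1 h2
  rw [h1, h2, ← mul_assoc, ind_mul_self]

lemma MM_orth (u : ℕ → ws.E) (n m : ℕ) (h : n ≠ m) (x : ws.E) : MM u n (MM u m x) = 0 := by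
  apply toH_inj
  apply Lp.ext
  rw [toH_zero]
  filter_upwards [MM_ae u n (MM u m x), MM_ae u m x, Lp.coeFn_zero ℝ 2 cm] with ω h1 h2 h3
  rw [h1, h2, h3]
  by_cases hn : ω ∈ AA u n
  · by_cases hm : ω ∈ AA u m
    · exact absurd (AA_disj' u h hn hm) id
    · rw [ind_of_notMem hm, zero_mul, mul_zero]
      rfl
  · rw [ind_of_notMem hn, zero_mul]
    rfl

lemma MM_refl (u : ℕ → ws.E) (n : ℕ) (x : ws.E) : ‖(2 : ℝ) • MM u n x - x‖ ≤ ‖x‖ := by
  apply E_norm_solid
  rw [toH_sub]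
  filter_upwards [Lp.coeFn_sub (WSys.toH ((2 : ℝ) • MM u n x)) (WSys.toH x),
    toH_smul_ae 2 (MM u n x), MM_ae u n x] with ω h1 h2 h3
  rw [h1, Pi.sub_apply, h2, h3]
  by_cases hn : ω ∈ AA u n
  · rw [ind_of_mem hn]
    apply le_of_eq
    congr 1
    ring
  · rw [ind_of_notMem hn]
    apply le_of_eq
    rw [zero_mul, mul_zero, zero_sub, abs_neg]

lemma sum_ind_le (u : ℕ → ws.E) (t : Finset ℕ) (ω : CS) :
    ∑ n ∈ t, ind (AA u n) ω ≤ 1 := by
  by_cases h : ∃ n ∈ t, ω ∈ AA u n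
  · obtain ⟨n, hn, hω⟩ := h
    rw [sum_eq_single_of_mem n hn (fun m _ hm => ind_of_notMem (fun hm' =>
      AA_disj' u hm hm' hω))]
    rw [ind_of_mem hω]
  · push Not at h
    rw [sum_eq_zero (fun n hn => ind_of_notMem (h n hn))]
    exact zero_le_one

lemma MM_sum_le (u : ℕ → ws.E) (t : Finset ℕ) (x : ws.E) : ‖∑ n ∈ t, MM u n x‖ ≤ ‖x‖ := by
  apply E_norm_solid
  have h1 : ∀ᵐ ω ∂cm, ∀ n, WSys.toH (MM u n x) ω = ind (AA u n) ω * WSys.toH x ω := by
    rw [ae_all_iff]
    exact fun n => MM_ae u n x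
  filter_upwards [toH_sum_ae t (fun n => MM u n x), h1] with ω h2 h3
  rw [h2, sum_congr rfl (fun n _ => h3 n), ← sum_mul, abs_mul]
  have h4 : |∑ n ∈ t, ind (AA u n) ω| ≤ 1 := by
    rw [abs_of_nonneg (sum_nonneg (fun n _ => ind_nonneg _ _))]
    exact sum_ind_le u t ω
  calc |∑ n ∈ t, ind (AA u n) ω| * |WSys.toH x ω| ≤ 1 * |WSys.toH x ω| :=
        mul_le_mul_of_nonneg_right h4 (abs_nonneg _)
    _ = _ := one_mul _

lemma MM_u {u : ℕ → ws.E} (h : DS u) (n m : ℕ) : MM u n (u m) = if n = m then u n else 0 := by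
  apply toH_inj
  apply Lp.ext
  filter_upwards [MM_ae u n (u m), h.supp, Lp.coeFn_zero ℝ 2 cm] with ω h1 h2 h3
  rw [h1, h2 n m]
  by_cases hnm : n = m
  · rw [if_pos hnm, if_pos hnm]
  · rw [if_neg hnm, if_neg hnm, toH_zero, h3]
    rfl

lemma u_ne {u : ℕ → ws.E} (h : DS u) (n : ℕ) : u n ≠ 0 := by
  intro h0
  have := h.norm_one n
  rw [h0, norm_zero] at this
  exact zero_ne_one this

lemma toHu_ne {u : ℕ → ws.E} (h : DS u) (n : ℕ) : ‖WSys.toH (u n)‖ ≠ 0 := by
  intro h0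
  apply u_ne h n
  apply toH_inj
  rw [toH_zero]
  exact norm_eq_zero.mp h0

/-- the coordinate functionals -/
noncomputable def GG (u : ℕ → ws.E) (P : ws.E →L[ℝ] ws.E) (n : ℕ) : ws.E →L[ℝ] ℝ :=
  (1 / ‖WSys.toH (u n)‖ ^ 2) • (JL ws (WSys.toH (u n))).comp P

lemma GG_apply (u : ℕ → ws.E) (P : ws.E →L[ℝ] ws.E) (n : ℕ) (v : ws.E) :
    GG u P n v = (1 / ‖WSys.toH (u n)‖ ^ 2) * inner ℝ (WSys.toH (u n)) (WSys.toH (P v)) := rfl

lemma coord {u : ℕ → ws.E} (h : DS u) (P : ws.E →L[ℝ] ws.E)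
    (hP : ∀ v, P v ∈ (Submodule.span ℝ (Set.range u)).topologicalClosure) (n : ℕ) (v : ws.E) :
    MM u n (P v) = (GG u P n v) • u n := by
  -- the range of M_n on Y
  have h1 : (Submodule.span ℝ (Set.range u)).topologicalClosure ≤
      Submodule.comap (MM u n : ws.E →ₗ[ℝ] ws.E) (Submodule.span ℝ {u n}) := by
    apply Submodule.topologicalClosure_minimal
    · rw [Submodule.span_le]
      rintro _ ⟨m, rfl⟩
      show MM u n (u m) ∈ Submodule.span ℝ {u n}
      rw [MM_u h]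
      split_ifs
      · exact Submodule.mem_span_singleton_self _
      · exact Submodule.zero_mem _
    · have hcl : IsClosed ((Submodule.span ℝ {u n} : Submodule ℝ ws.E) : Set ws.E) :=
        Submodule.closed_of_finiteDimensional _
      exact hcl.preimage (MM u n).continuous
  have h2 : MM u n (P v) ∈ Submodule.span ℝ {u n} := h1 (hP v)
  obtain ⟨c, hc⟩ := Submodule.mem_span_singleton.mp h2
  rw [← hc]
  congr 1
  rw [GG_apply]
  have h3 : inner ℝ (WSys.toH (u n)) (WSys.toH (P v)) =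
      inner ℝ (WSys.toH (u n)) (WSys.toH (MM u n (P v))) := by
    rw [inner_eq, inner_eq]
    apply integral_congr_ae
    filter_upwards [h.supp, MM_ae u n (P v)] with ω h4 h5
    have h6 := h4 n n
    rw [if_pos rfl] at h6
    rw [h5]
    calc WSys.toH (u n) ω * WSys.toH (P v) ω =
          (ind (AA u n) ω * WSys.toH (u n) ω) * WSys.toH (P v) ω := by rw [h6]
      _ = _ := by ring
  rw [h3, ← hc, toH_smul, inner_smul_right, real_inner_self_eq_norm_sq]
  have := toHu_ne h n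
  field_simp

lemma GG_u {u : ℕ → ws.E} (h : DS u) (P : ws.E →L[ℝ] ws.E) (n : ℕ) (hP : P (u n) = u n) :
    GG u P n (u n) = 1 := by
  rw [GG_apply, hP, real_inner_self_eq_norm_sq]
  have := toHu_ne h n
  field_simp

/-- the heart of the matter -/
theorem no_projection {u : ℕ → ws.E} (h : DS u) (P : ws.E →L[ℝ] ws.E)
    (hP : ∀ v, P v ∈ (Submodule.span ℝ (Set.range u)).topologicalClosure)
    (hPu : ∀ n, P (u n) = u n) : False := by
  classical
  -- the levels kappa
  have hκ : ∀ n, ∃ k : ℕ, ∀ l, k ≤ l → |GG u P n (mulE ws (rad l) (u n))| ≤ 1 / 2 := by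
    intro n
    obtain ⟨k, hk⟩ := Metric.tendsto_atTop.mp (E_rad_tendsto (GG u P n) (u n)) (1 / 2) (by norm_num)
    refine ⟨k, fun l hl => ?_⟩
    have := hk l hl
    rw [Real.dist_eq, sub_zero] at this
    exact this.le
  choose κ hκ using hκ
  set M : ℝ := 16 * ‖P‖ ^ 2 + 1 with hM
  have hM0 : 0 < M := by positivity
  obtain ⟨A, a, l, c, ha, hl, hc, hbd, w, φ, S, hφ, hev⟩ :=
    abstract_main h.data (fun w φ hφ b n => H4 hφ b _) κ M hM0
  -- the test vector
  set zn : ℕ → ws.E := fun n => mulE ws (fun ω => 1 + rad (l n) ω) (u n) with hzn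
  have hbm : ∀ n, BM (fun ω => 1 + rad (l n) ω) := fun n => (BM.const 1).add (rad_bm (l n))
  set z : ws.E := ∑ n ∈ range A, √(a n) • zn n with hz
  -- almost everywhere formulas
  have hzn_ae : ∀ᵐ ω ∂cm, ∀ n, WSys.toH (zn n) ω = (1 + rad (l n) ω) * WSys.toH (u n) ω := by
    rw [ae_all_iff]
    exact fun n => mulE_ae (hbm n) (u n)
  have hsm_ae : ∀ᵐ ω ∂cm, ∀ n, WSys.toH (√(a n) • zn n) ω = √(a n) * WSys.toH (zn n) ω := by
    rw [ae_all_iff]
    exact fun n => toH_smul_ae _ _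
  have hz_ae : ∀ᵐ ω ∂cm, WSys.toH z ω =
      ∑ n ∈ range A, √(a n) * ((1 + rad (l n) ω) * WSys.toH (u n) ω) := by
    filter_upwards [toH_sum_ae (range A) (fun n => √(a n) • zn n), hsm_ae, hzn_ae] with ω h1 h2 h3
    rw [hz, h1]
    refine sum_congr rfl (fun n _ => ?_)
    rw [h2, h3]
  -- norm of z
  have hznorm : ‖z‖ ^ 2 ≤ 4 * c := by
    apply norm_sq_le_of_Bd
    intro w φ hφ S
    have h1 : (sqV (WSys.toH z)).1 =ᵐ[cm]
        ((4 : ℝ) • ∑ n ∈ range A, a n • (FF u n - cc.T (l n) (FF u n)) : VI).1 := by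
      filter_upwards [hz_ae, h.ae, h.supp] with ω h1 h2 h3
      show (WSys.toH z ω) ^ 2 = 4 * (∑ n ∈ range A, a n • (FF u n - cc.T (l n) (FF u n)) : VI).1 ω
      rw [h1, VI_sum_apply, sq_sum_disj _ _ (fun n m hnm => by
        have := h2 n m hnm
        calc √(a n) * ((1 + rad (l n) ω) * WSys.toH (u n) ω) *
            (√(a m) * ((1 + rad (l m) ω) * WSys.toH (u m) ω)) =
            √(a n) * (1 + rad (l n) ω) * √(a m) * (1 + rad (l m) ω) *
              (WSys.toH (u n) ω * WSys.toH (u m) ω) := by ring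
          _ = 0 := by rw [this, mul_zero]), mul_sum]
      refine sum_congr rfl (fun n _ => ?_)
      have h4 : (FF u n - cc.T (l n) (FF u n) : VI).1 ω =
          (FF u n).1 ω - ind (DD (l n)) ω * (FF u n).1 ω := by
        show (FF u n).1 ω - (cc.T (l n) (FF u n)).1 ω = _
        have : (cc.T (l n) (FF u n)).1 ω = ind (DD (l n)) ω * (FF u n).1 ω := TT_apply _ _ _
        rw [this]
      have h5 : (FF u n).1 ω = (WSys.toH (u n) ω) ^ 2 := by
        have h6 := h3 n n
        rw [if_pos rfl] at h6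
        rw [FF_apply]
        calc ind (AA u n) ω * (WSys.toH (u n) ω) ^ 2 =
            (ind (AA u n) ω * WSys.toH (u n) ω) * WSys.toH (u n) ω := by ring
          _ = (WSys.toH (u n) ω) ^ 2 := by rw [h6]; ring
      rw [h4, h5, ind_DD_eq, mul_pow, mul_pow, Real.sq_sqrt (ha n)]
      have h6 : (1 + rad (l n) ω) ^ 2 = 2 + 2 * rad (l n) ω := by
        have := rad_mul_self (l n) ω
        nlinarith
      rw [h6]
      ring
    rw [ev_congr hφ S h1, ev_smul]
    have := hbd w φ hφ S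
    linarith
  -- the image of z
  set γ : ℕ → ℝ := fun n => GG u P n (zn n) with hγ
  have hγ1 : ∀ n, n < A → 1 / 2 ≤ γ n := by
    intro n hn
    have h1 : zn n = u n + mulE ws (rad (l n)) (u n) := by
      simp only [hzn]
      rw [mulE_add_fun (BM.const 1) (rad_bm (l n)), mulE_one]
    have h2 : γ n = 1 + GG u P n (mulE ws (rad (l n)) (u n)) := by
      simp only [hγ]
      rw [h1, map_add, GG_u h P n (hPu n)]
    have h3 := (abs_le.mp (hκ n (l n) (hl n hn))).1
    rw [h2]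
    linarith
  have hMz : ∀ n, n < A → MM u n z = √(a n) • zn n := by
    intro n hn
    apply toH_inj
    apply Lp.ext
    filter_upwards [MM_ae u n z, hz_ae, h.supp, toH_smul_ae (√(a n)) (zn n), hzn_ae]
      with ω h1 h2 h3 h4 h5
    rw [h1, h2, h4, h5 n, mul_sum, sum_eq_single n]
    · have h6 := h3 n n
      rw [if_pos rfl] at h6
      calc ind (AA u n) ω * (√(a n) * ((1 + rad (l n) ω) * WSys.toH (u n) ω)) =
          √(a n) * ((1 + rad (l n) ω) * (ind (AA u n) ω * WSys.toH (u n) ω)) := by ring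
        _ = _ := by rw [h6]
    · intro m _ hm
      have h6 := h3 n m
      rw [if_neg (Ne.symm hm)] at h6
      calc ind (AA u n) ω * (√(a m) * ((1 + rad (l m) ω) * WSys.toH (u m) ω)) =
          √(a m) * ((1 + rad (l m) ω) * (ind (AA u n) ω * WSys.toH (u m) ω)) := by ring
        _ = 0 := by rw [h6]; ring
    · intro h'
      exact absurd (mem_range.mpr hn) h'
  have hDz : ∑ n ∈ range A, MM u n (P (MM u n z)) = ∑ n ∈ range A, (√(a n) * γ n) • u n := by
    refine sum_congr rfl (fun n hn => ?_)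
    rw [coord h P hP, hMz n (mem_range.mp hn), map_smul, smul_eq_mul]
  set y : ws.E := ∑ n ∈ range A, (√(a n) * γ n) • u n with hy
  have hynorm : ‖y‖ ≤ ‖P‖ * ‖z‖ := by
    rw [← hDz]
    exact diag_norm_le (MM u) (MM_idem u) (fun n m hnm x => MM_orth u n m hnm x) (MM_refl u) P
      (range A) z (MM_sum_le u _ z)
  -- lower estimate for y
  have hy_low : M * c / 4 < ‖y‖ ^ 2 := by
    refine lt_of_lt_of_le ?_ (ev_sqV_le hφ S y)
    have h1 : (1 / 4 : ℝ) * ev φ S (∑ n ∈ range A, a n • FF u n) ≤ ev φ S (sqV (WSys.toH y)) := by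
      rw [← ev_smul]
      obtain ⟨w, hw, hevw⟩ := WW_exists hφ S
      rw [hevw, hevw]
      obtain ⟨hwm, hw0, cw, hcw⟩ := WW_bw hw
      apply integral_mono_ae
      · exact (VI.int _).bdd_mul (c := cw) hwm.aestronglyMeasurable
          (Eventually.of_forall (fun ω => by
            rw [Real.norm_eq_abs, abs_of_nonneg (hw0 ω)]; exact hcw ω))
      · exact (VI.int _).bdd_mul (c := cw) hwm.aestronglyMeasurable
          (Eventually.of_forall (fun ω => by
            rw [Real.norm_eq_abs, abs_of_nonneg (hw0 ω)]; exact hcw ω))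
      · have hsm : ∀ᵐ ω ∂cm, ∀ n, WSys.toH ((√(a n) * γ n) • u n) ω =
            (√(a n) * γ n) * WSys.toH (u n) ω := by
          rw [ae_all_iff]
          exact fun n => toH_smul_ae _ _
        filter_upwards [toH_sum_ae (range A) (fun n => (√(a n) * γ n) • u n), hsm, h.ae]
          with ω h1 h2 h3
        refine mul_le_mul_of_nonneg_left ?_ (hw0 ω)
        show (1 / 4 : ℝ) * (∑ n ∈ range A, a n • FF u n : VI).1 ω ≤ (WSys.toH y ω) ^ 2
        rw [hy, h1, VI_sum_apply, sum_congr rfl (fun n _ => h2 n),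
          sq_sum_disj _ _ (fun n m hnm => by
            have := h3 n m hnm
            calc √(a n) * γ n * WSys.toH (u n) ω * (√(a m) * γ m * WSys.toH (u m) ω) =
              √(a n) * γ n * √(a m) * γ m * (WSys.toH (u n) ω * WSys.toH (u m) ω) := by ring
              _ = 0 := by rw [this, mul_zero]), mul_sum]
        refine sum_le_sum (fun n hn => ?_)
        rw [mul_pow, mul_pow, Real.sq_sqrt (ha n), FF_apply]
        have h4 := hγ1 n (mem_range.mp hn)
        have h5 : (1 / 4 : ℝ) ≤ γ n ^ 2 := by nlinarith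
        have h6 : ind (AA u n) ω * (WSys.toH (u n) ω) ^ 2 ≤ (WSys.toH (u n) ω) ^ 2 := by
          have h7 : ind (AA u n) ω ≤ 1 := (le_abs_self _).trans (ind_abs_le _ _)
          have h8 : 0 ≤ (WSys.toH (u n) ω) ^ 2 := sq_nonneg _
          nlinarith
        have h7 : 0 ≤ ind (AA u n) ω * (WSys.toH (u n) ω) ^ 2 :=
          mul_nonneg (ind_nonneg _ _) (sq_nonneg _)
        calc 1 / 4 * (a n * (ind (AA u n) ω * (WSys.toH (u n) ω) ^ 2)) =
            a n * (1 / 4 * (ind (AA u n) ω * (WSys.toH (u n) ω) ^ 2)) := by ring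
          _ ≤ a n * (γ n ^ 2 * (WSys.toH (u n) ω) ^ 2) := by
              refine mul_le_mul_of_nonneg_left ?_ (ha n)
              exact mul_le_mul h5 h6 h7 (sq_nonneg _)
          _ = a n * γ n ^ 2 * (WSys.toH (u n) ω) ^ 2 := by ring
    linarith
  -- conclusion
  have h1 : ‖y‖ ^ 2 ≤ ‖P‖ ^ 2 * ‖z‖ ^ 2 := by
    rw [← mul_pow]
    exact pow_le_pow_left₀ (norm_nonneg _) hynorm 2
  have h2 : ‖P‖ ^ 2 * ‖z‖ ^ 2 ≤ ‖P‖ ^ 2 * (4 * c) :=
    mul_le_mul_of_nonneg_left hznorm (by positivity)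
  have h3 : M * c / 4 < ‖P‖ ^ 2 * (4 * c) := hy_low.trans_le (h1.trans h2)
  rw [hM] at h3
  nlinarith

end Run7.h921
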