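import Pool.Agent.Run7.h921.Comb

/-!
Averages: the James-type lemma, rapidly increasing sequences.
-/

set_option autoImplicit false

open Finset Filter Topology

namespace Run7.h921

variable {V : Type*} [AddCommGroup V] [Module ℝ V] {C : Ctx V}

/-- a nonnegative combination of `F n`, `N ≤ n < M` -/
def ConeM (F : ℕ → V) (N M : ℕ) (U : V) : Prop :=
  ∃ a : ℕ → ℝ, (∀ n, 0 ≤ a n) ∧ (∀ n, n < N → a n = 0) ∧ (∀ n, M ≤ n → a n = 0) ∧
    U = ∑ n ∈ range M, a n • F n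

/-- a nonnegative combination of `F n`, `N ≤ n` -/
def Cone (F : ℕ → V) (N : ℕ) (U : V) : Prop := ∃ M, ConeM F N M U

lemma ConeM.mono {F : ℕ → V} {N M N' M' : ℕ} {U : V} (h : ConeM F N M U) (hN : N' ≤ N)
    (hM : M ≤ M') : ConeM F N' M' U := by
  obtain ⟨a, h0, h1, h2, h3⟩ := h
  refine ⟨a, h0, fun n hn => h1 n (by omega), fun n hn => h2 n (by omega), ?_⟩
  rw [h3]
  refine sum_subset (range_mono hM) (fun n _ hn => ?_)
  rw [h2 n (by simpa using hn), zero_smul]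

lemma Cone.mono {F : ℕ → V} {N N' : ℕ} {U : V} (h : Cone F N U) (hN : N' ≤ N) : Cone F N' U := by
  obtain ⟨M, hM⟩ := h
  exact ⟨M, hM.mono hN le_rfl⟩

lemma ConeM.add {F : ℕ → V} {N M : ℕ} {U W : V} (h : ConeM F N M U) (h' : ConeM F N M W) :
    ConeM F N M (U + W) := by
  obtain ⟨a, h0, h1, h2, h3⟩ := h
  obtain ⟨b, g0, g1, g2, g3⟩ := h'
  refine ⟨fun n => a n + b n, fun n => add_nonneg (h0 n) (g0 n), fun n hn => ?_, fun n hn => ?_, ?_⟩
  · simp [h1 n hn, g1 n hn]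
  · simp [h2 n hn, g2 n hn]
  · rw [h3, g3, ← sum_add_distrib]
    exact sum_congr rfl (fun n _ => by rw [add_smul])

lemma Cone.add {F : ℕ → V} {N : ℕ} {U W : V} (h : Cone F N U) (h' : Cone F N W) :
    Cone F N (U + W) := by
  obtain ⟨M, hM⟩ := h
  obtain ⟨M', hM'⟩ := h'
  exact ⟨max M M', (hM.mono le_rfl (le_max_left _ _)).add (hM'.mono le_rfl (le_max_right _ _))⟩

lemma ConeM.zero (F : ℕ → V) (N M : ℕ) : ConeM F N M 0 :=
  ⟨fun _ => 0, fun _ => le_rfl, fun _ _ => rfl, fun _ _ => rfl, by simp⟩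

lemma ConeM.smul {F : ℕ → V} {N M : ℕ} {U : V} (h : ConeM F N M U) {c : ℝ} (hc : 0 ≤ c) :
    ConeM F N M (c • U) := by
  obtain ⟨a, h0, h1, h2, h3⟩ := h
  refine ⟨fun n => c * a n, fun n => mul_nonneg hc (h0 n), fun n hn => ?_, fun n hn => ?_, ?_⟩
  · simp [h1 n hn]
  · simp [h2 n hn]
  · rw [h3, smul_sum]
    exact sum_congr rfl (fun n _ => by rw [smul_smul])

lemma Cone.smul {F : ℕ → V} {N : ℕ} {U : V} (h : Cone F N U) {c : ℝ} (hc : 0 ≤ c) :
    Cone F N (c • U) := by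
  obtain ⟨M, hM⟩ := h
  exact ⟨M, hM.smul hc⟩

lemma Cone.sum {F : ℕ → V} {N : ℕ} (U : ℕ → V) (k : ℕ) (h : ∀ r, r < k → Cone F N (U r)) :
    Cone F N (∑ r ∈ range k, U r) := by
  induction k with
  | zero => exact ⟨0, by simpa using ConeM.zero F N 0⟩
  | succ k ih =>
    rw [sum_range_succ]
    exact (ih (fun r hr => h r (by omega))).add (h k (by omega))

lemma Cone.single {F : ℕ → V} {N n : ℕ} (h : N ≤ n) : Cone F N (F n) := by
  classical
  refine ⟨n + 1, fun k => if k = n then 1 else 0, ?_, ?_, ?_, ?_⟩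
  · intro k
    dsimp only
    split_ifs <;> norm_num
  · intro k hk
    have : k ≠ n := by omega
    simp [this]
  · intro k hk
    have : k ≠ n := by omega
    simp [this]
  · simp [ite_smul]

lemma ConeM.pos {F : ℕ → V} (hF : ∀ n, F n ∈ C.pos) {N M : ℕ} {U : V} (h : ConeM F N M U) :
    U ∈ C.pos := by
  obtain ⟨a, h0, h1, h2, h3⟩ := h
  rw [h3]
  exact pos_sum _ _ (fun n _ => C.pos_smul _ (h0 n) _ (hF n))

lemma Cone.pos {F : ℕ → V} (hF : ∀ n, F n ∈ C.pos) {N : ℕ} {U : V} (h : Cone F N U) :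
    U ∈ C.pos := by
  obtain ⟨M, hM⟩ := h
  exact hM.pos hF

/-- The hypotheses on the sequence `F`. -/
structure Data (C : Ctx V) (F : ℕ → V) : Prop where
  pos : ∀ n, F n ∈ C.pos
  bd : ∀ n, Bd C (F n) 1
  big : ∀ n, ∃ w φ S, K C w φ ∧ (1 / 2 : ℝ) ≤ ev φ S (F n)
  h2 : ∀ (L : ℕ) (ε : ℝ), 0 < ε → ∃ N, ∀ U, Cone F N U → Bd C U 1 → WinL C U L ε

/-- dependent choice -/
lemma chain {σ τ : Type*} (P : σ → Prop) (R : σ → σ → τ → Prop) (s0 : σ) (h0 : P s0)
    (h : ∀ s, P s → ∃ s' t, P s' ∧ R s s' t) :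
    ∃ (x : ℕ → σ) (y : ℕ → τ), x 0 = s0 ∧ ∀ n, P (x n) ∧ R (x n) (x (n + 1)) (y n) := by
  choose g t hg hR using h
  let G : {s // P s} → {s // P s} := fun s => ⟨g s.1 s.2, hg s.1 s.2⟩
  let z : ℕ → {s // P s} := fun n => G^[n] ⟨s0, h0⟩
  have hz : ∀ n, z (n + 1) = G (z n) := fun n => Function.iterate_succ_apply' _ _ _
  refine ⟨fun n => (z n).1, fun n => t (z n).1 (z n).2, rfl, fun n => ⟨(z n).2, ?_⟩⟩
  have := hR (z n).1 (z n).2
  show R (z n).1 (z (n + 1)).1 _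
  rw [hz]
  exact this

/-- `χ` is the sum of `q` successive functionals of the norming set, living in `[L, L')` -/
def Q (C : Ctx V) (q L L' : ℕ) (χ : Fam V) : Prop :=
  ∃ (w : ℕ → Option ℕ) (Φ : ℕ → Fam V), (∀ t, t < q → K C (w t) (Φ t)) ∧
    (∀ s t, s < t → t < q → FSucc (Φ s) (Φ t)) ∧
    (∀ t, t < q → ∀ a, Φ t a ≠ 0 → L ≤ a ∧ a < L') ∧ χ = fun a => ∑ t ∈ range q, Φ t a

lemma Q.zero (L : ℕ) : Q C 0 L L 0 :=
  ⟨fun _ => none, fun _ => 0, fun t ht => absurd ht (Nat.not_lt_zero _),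
    fun s t _ ht => absurd ht (Nat.not_lt_zero _), fun t ht => absurd ht (Nat.not_lt_zero _), by
      funext a; simp⟩

lemma Q.wide {q L L' L'' : ℕ} {χ : Fam V} (h : Q C q L L' χ) (hL : L' ≤ L'') : Q C q L L'' χ := by
  obtain ⟨w, Φ, h1, h2, h3, h4⟩ := h
  exact ⟨w, Φ, h1, h2, fun t ht a ha => ⟨(h3 t ht a ha).1, (h3 t ht a ha).2.trans_le hL⟩, h4⟩

lemma Q.add {q q' L L' L'' : ℕ} {χ χ' : Fam V} (h : Q C q L L' χ) (h' : Q C q' L' L'' χ')
    (hL : L ≤ L') (hL' : L' ≤ L'') : Q C (q + q') L L'' (χ + χ') := by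
  obtain ⟨w, Φ, h1, h2, h3, h4⟩ := h
  obtain ⟨w', Φ', h1', h2', h3', h4'⟩ := h'
  refine ⟨fun t => if t < q then w t else w' (t - q), fun t => if t < q then Φ t else Φ' (t - q),
    ?_, ?_, ?_, ?_⟩
  · intro t ht
    by_cases htq : t < q
    · simpa [htq] using h1 t htq
    · simpa [htq] using h1' (t - q) (by omega)
  · intro s t hst ht a b ha hb
    by_cases htq : t < q
    · have hsq : s < q := by omega
      simp only [htq, hsq, if_true] at ha hb
      exact h2 s t hst htq a b ha hb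
    · by_cases hsq : s < q
      · simp only [htq, hsq, if_true, if_false] at ha hb
        have e1 := h3 s hsq a ha
        have e2 := h3' (t - q) (by omega) b hb
        omega
      · simp only [htq, hsq, if_false] at ha hb
        exact h2' (s - q) (t - q) (by omega) (by omega) a b ha hb
  · intro t ht a ha
    by_cases htq : t < q
    · simp only [htq, if_true] at ha
      have e1 := h3 t htq a ha
      omega
    · simp only [htq, if_false] at ha
      have e1 := h3' (t - q) (by omega) a ha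
      omega
  · funext a
    rw [Pi.add_apply, h4, h4', sum_range_add]
    dsimp only
    congr 1
    · refine sum_congr rfl (fun t ht => ?_)
      rw [if_pos (mem_range.mp ht)]
    · refine sum_congr rfl (fun t _ => ?_)
      have : ¬ (q + t < q) := by omega
      rw [if_neg this, Nat.add_sub_cancel_left]

lemma Q.sum {q : ℕ} (k : ℕ) (L : ℕ → ℕ) (hL : Monotone L) (χ : ℕ → Fam V)
    (h : ∀ r, r < k → Q C q (L r) (L (r + 1)) (χ r)) :
    Q C (k * q) (L 0) (L k) (∑ r ∈ range k, χ r) := by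
  induction k with
  | zero => simpa using Q.zero (C := C) (L 0)
  | succ k ih =>
    rw [sum_range_succ, Nat.succ_mul]
    exact (ih (fun r hr => h r (by omega))).add (h k (by omega)) (hL (Nat.zero_le _))
      (hL (Nat.le_succ _))

lemma Q.posF {q L L' : ℕ} {χ : Fam V} (h : Q C q L L' χ) (a : ℕ) {U : V} (hU : U ∈ C.pos) :
    0 ≤ χ a U := by
  obtain ⟨w, Φ, h1, h2, h3, h4⟩ := h
  rw [h4]
  simp only [LinearMap.sum_apply]
  exact sum_nonneg (fun t ht => (h1 t (mem_range.mp ht)).pos a U hU)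

lemma Q.ev_mono_set {q L L' : ℕ} {χ : Fam V} (h : Q C q L L' χ) {S S' : Finset ℕ} (hS : S ⊆ S')
    {U : V} (hU : U ∈ C.pos) : ev χ S U ≤ ev χ S' U :=
  sum_le_sum_of_subset_of_nonneg hS (fun a _ _ => h.posF a hU)

lemma Q.ev_nonneg {q L L' : ℕ} {χ : Fam V} (h : Q C q L L' χ) (S : Finset ℕ)
    {U : V} (hU : U ∈ C.pos) : 0 ≤ ev χ S U :=
  sum_nonneg (fun a _ => h.posF a hU)

lemma Q.one {w : Option ℕ} {φ : Fam V} (h : K C w φ) {L L' : ℕ}
    (hs : ∀ a, φ a ≠ 0 → L ≤ a ∧ a < L') : Q C 1 L L' φ :=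
  ⟨fun _ => w, fun _ => φ, fun _ _ => h, fun s t hst ht => by omega, fun _ _ => hs, by
    funext a; simp⟩

lemma ev_sum_fam (k : ℕ) (χ : ℕ → Fam V) (S : Finset ℕ) (U : V) :
    ev (∑ r ∈ range k, χ r) S U = ∑ r ∈ range k, ev (χ r) S U := by
  unfold ev
  rw [sum_comm]
  refine sum_congr rfl (fun a _ => ?_)
  rw [Finset.sum_apply, LinearMap.sum_apply]

lemma Bd.Q_le {i q L L' : ℕ} (hi : Even i) (hq : q ≤ pn i) {χ : Fam V} (h : Q C q L L' χ)
    {U : V} {c : ℝ} (hb : Bd C U c) (S : Finset ℕ) : ev χ S U ≤ pm i * c := by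
  obtain ⟨w, Φ, h1, h2, h3, h4⟩ := h
  have h5 : χ = ∑ t ∈ range q, Φ t := by
    rw [h4]; funext a; rw [Finset.sum_apply]
  rw [h5, ev_sum_fam]
  exact hb.avg hi hq w Φ h1 h2 S

lemma james {F : ℕ → V} (hD : Data C F) (k : ℕ) (hk : 1 ≤ k) (ε : ℝ) (hε : 0 < ε) (N L0 : ℕ) :
    ∃ (W : ℕ → V) (L : ℕ → ℕ), Monotone L ∧ L0 ≤ L 0 ∧ (∀ r, r < k → Cone F N (W r)) ∧
      (∀ r, r < k → Bd C (W r) 1) ∧ (∀ r, r < k → Win C (W r) (L r) (L (r + 1)) ε) ∧
      ∃ w φ S, K C w φ ∧ (1 / 2 : ℝ) < ev φ S ((1 / (k : ℝ)) • ∑ r ∈ range k, W r) := by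
  classical
  by_contra hcon
  push Not at hcon
  have hk' : (0 : ℝ) < k := by exact_mod_cast hk
  -- the statement S(d)
  have claim : ∀ d : ℕ, ∀ N' ≥ N, ∀ L' ≥ L0, ∃ (W : V) (L'' : ℕ) (χ : Fam V) (S : Finset ℕ),
      L' ≤ L'' ∧ Cone F N' W ∧ Bd C W 1 ∧ Win C W L' L'' ε ∧ Q C (k ^ d) L' L'' χ ∧
      (2 : ℝ) ^ d / 4 ≤ ev χ S W := by
    intro d
    induction d with
    | zero =>
      intro N' hN' L' hL'
      set δ := min ε (1 / 8) with hδ
      have hδ0 : 0 < δ := lt_min hε (by norm_num)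
      obtain ⟨N1, hN1⟩ := hD.h2 L' δ hδ0
      set n := max N' N1 with hn
      have hcone : Cone F N1 (F n) := Cone.single (le_max_right _ _)
      have hcone' : Cone F N' (F n) := Cone.single (le_max_left _ _)
      have hwl := hN1 _ hcone (hD.bd n)
      obtain ⟨L1, hL1⟩ := (hD.bd n).tail (hD.pos n) hδ0
      have hwr : WinR C (F n) L1 δ := hL1
      have hwin : Win C (F n) L' (max L' L1) δ := ⟨hwl, hwr.mono (le_max_right _ _)⟩
      obtain ⟨w, φ, S, hφ, hbig⟩ := hD.big n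
      refine ⟨F n, max L' L1, (Set.Ico L' (max L' L1)).indicator φ, S, le_max_left _ _, hcone',
        hD.bd n, hwin.mono_eps (min_le_left _ _), ?_, ?_⟩
      · rw [pow_zero]
        refine Q.one (hφ.restr _) (fun a ha => ?_)
        exact (indicator_ne_zero ha).1
      · rw [ev_indicator]
        have h1 := Win.ev_le hφ (le_max_left L' L1) hwin S
        have h2 : δ ≤ 1 / 8 := min_le_right _ _
        have h3 : (S.filter (fun a => a ∈ Set.Ico L' (max L' L1))) =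
            (S.filter (fun a => L' ≤ a ∧ a < max L' L1)) := by
          ext a; simp [Set.mem_Ico]
        rw [h3, pow_zero]
        linarith
    | succ d ih =>
      intro N' hN' L' hL'
      obtain ⟨N1, hN1⟩ := hD.h2 L' ε hε
      set N'' := max N' N1 with hN''
      obtain ⟨L, y, hL0, hLy⟩ := chain (σ := ℕ) (τ := V × Fam V × Finset ℕ)
        (fun L1 => L0 ≤ L1)
        (fun L1 L2 y => L1 ≤ L2 ∧ Cone F N'' y.1 ∧ Bd C y.1 1 ∧ Win C y.1 L1 L2 ε ∧
          Q C (k ^ d) L1 L2 y.2.1 ∧ (2 : ℝ) ^ d / 4 ≤ ev y.2.1 y.2.2 y.1) L' hL' (by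
          intro L1 hL1
          obtain ⟨W, L'', χ, S, h1, h2, h3, h4, h5, h6⟩ := ih N'' (hN'.trans (le_max_left _ _)) L1 hL1
          exact ⟨L'', (W, χ, S), hL1.trans h1, h1, h2, h3, h4, h5, h6⟩)
      have hmono : Monotone L := monotone_nat_of_le_succ (fun r => (hLy r).2.1)
      have hcon' := hcon (fun r => (y r).1) L hmono (by rw [hL0]; exact hL')
        (fun r _ => ((hLy r).2.2.1).mono (hN'.trans (le_max_left _ _)))
        (fun r _ => (hLy r).2.2.2.1) (fun r _ => (hLy r).2.2.2.2.1)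
      set X : V := (2 / (k : ℝ)) • ∑ r ∈ range k, (y r).1 with hX
      have hXbd : Bd C X 1 := by
        intro w φ hφ S
        have := hcon' w φ S hφ
        rw [ev_smul] at this
        rw [hX, ev_smul]
        have e : 2 / (k : ℝ) * ev φ S (∑ r ∈ range k, (y r).1) =
          2 * (1 / (k : ℝ) * ev φ S (∑ r ∈ range k, (y r).1)) := by ring
        rw [e]
        linarith
      have hXcone : Cone F N'' X :=
        (Cone.sum _ k (fun r _ => (hLy r).2.2.1)).smul (by positivity)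
      have hXpos : X ∈ C.pos := hXcone.pos hD.pos
      have hwl := hN1 X (hXcone.mono (le_max_right _ _)) hXbd
      obtain ⟨L1, hL1⟩ := hXbd.tail hXpos hε
      have hwr : WinR C X L1 ε := hL1
      have hypos : ∀ r, (y r).1 ∈ C.pos := fun r => (hLy r).2.2.1.pos hD.pos
      have hQ := Q.sum k L hmono (fun r => (y r).2.1) (fun r _ => (hLy r).2.2.2.2.2.1)
      set S' : Finset ℕ := (range k).biUnion (fun r => (y r).2.2) with hS'
      have hLk : L' ≤ L k := by rw [← hL0]; exact hmono (Nat.zero_le _)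
      refine ⟨X, max (L k) L1, ∑ r ∈ range k, (y r).2.1, S', hLk.trans (le_max_left _ _),
        hXcone.mono (le_max_left _ _), hXbd, ⟨hwl, hwr.mono (le_max_right _ _)⟩, ?_, ?_⟩
      · rw [pow_succ, mul_comm, ← hL0]
        exact hQ.wide (le_max_left _ _)
      · rw [ev_sum_fam]
        have hr : ∀ r ∈ range k, (2 / (k : ℝ)) * (2 ^ d / 4) ≤ ev (y r).2.1 S' X := by
          intro r hr
          rw [hX, ev_smul, ev_sum]
          refine mul_le_mul_of_nonneg_left ?_ (by positivity)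
          have hQr := (hLy r).2.2.2.2.2.1
          refine (hLy r).2.2.2.2.2.2.trans ?_
          refine (hQr.ev_mono_set (S' := S') ?_ (hypos r)).trans ?_
          · exact subset_biUnion_of_mem (fun r => (y r).2.2) hr
          · exact single_le_sum (f := fun r' => ev (y r).2.1 S' (y r').1)
              (fun r' _ => hQr.ev_nonneg S' (hypos r')) hr
        have hsum := sum_le_sum hr
        rw [sum_const, card_range, nsmul_eq_mul] at hsum
        refine le_trans (le_of_eq ?_) hsum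
        rw [pow_succ]
        field_simp
  obtain ⟨i, hi, hki, hmi⟩ := james_param k
  obtain ⟨W, L'', χ, S, _, _, hbd, _, hQ, hev⟩ := claim (2 * pm i) N le_rfl L0 le_rfl
  have h1 := hbd.Q_le hi hki hQ S
  have h2 : (4 * pm i : ℝ) < 2 ^ (2 * pm i) := by exact_mod_cast hmi
  linarith

/-- averages of long windowed sequences are small on functionals of small weight -/
lemma lemB (k : ℕ) (hk : 0 < k) (X : ℕ → V) (L : ℕ → ℕ) (hL : Monotone L) (ε : ℝ) (hε : 0 ≤ ε)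
    (hpos : ∀ r, r < k → X r ∈ C.pos) (hbd : ∀ r, r < k → Bd C (X r) 1)
    (hwin : ∀ r, r < k → Win C (X r) (L r) (L (r + 1)) ε) {i : ℕ} {φ : Fam V}
    (h : K C (some i) φ) (hki : pn i * pm i ≤ k) (S : Finset ℕ) :
    ev φ S ((1 / (k : ℝ)) • ∑ r ∈ range k, X r) ≤ 2 / pm i + 2 * ε := by
  obtain ⟨n, w, ψ, Jc, hn, hψ, hJc, hcard, hsum⟩ := split_lemma h X L hL (range k) 1 ε zero_le_one
    hε (fun s hs => hpos s (mem_range.mp hs)) (fun s hs => hbd s (mem_range.mp hs))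
    (fun s hs => hwin s (mem_range.mp hs)) S
  have h1 : ∑ t ∈ range n, ∑ s ∈ Jc t, ev (ψ t) S (X s) ≤ k := by
    have h2 : ∑ t ∈ range n, ∑ s ∈ Jc t, ev (ψ t) S (X s) ≤
        ∑ t ∈ range n, ((Jc t).card : ℝ) := by
      refine sum_le_sum (fun t ht => ?_)
      have : ∑ s ∈ Jc t, ev (ψ t) S (X s) ≤ ∑ s ∈ Jc t, (1 : ℝ) :=
        sum_le_sum (fun s hs => hbd s (mem_range.mp (hJc t hs)) _ _ (hψ t (mem_range.mp ht)) S)
      simpa using this
    have h3 : ∑ t ∈ range n, ((Jc t).card : ℝ) ≤ (range k).card := by exact_mod_cast hcard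
    rw [card_range] at h3
    linarith
  rw [ev_smul, ev_sum]
  have hk' : (0 : ℝ) < k := by exact_mod_cast hk
  have hm : (0 : ℝ) < pm i := by exact_mod_cast pm_pos i
  rw [card_range] at hsum
  have h4 : (1 / (pm i : ℝ)) * ∑ t ∈ range n, ∑ s ∈ Jc t, ev (ψ t) S (X s) ≤
      (1 / (pm i : ℝ)) * k := mul_le_mul_of_nonneg_left h1 (by positivity)
  have h5 : (pn i : ℝ) ≤ k / pm i := by
    rw [le_div_iff₀ hm]
    exact_mod_cast hki
  have h6 : ∑ r ∈ range k, ev φ S (X r) ≤ k * (2 / pm i + 2 * ε) := by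
    have h7 : (k : ℝ) * (2 / pm i + 2 * ε) = k / pm i + 2 * ε * k + (1 / pm i) * k := by ring
    rw [h7]
    linarith
  calc (1 / (k : ℝ)) * ∑ r ∈ range k, ev φ S (X r) ≤ (1 / (k : ℝ)) * (k * (2 / pm i + 2 * ε)) :=
        mul_le_mul_of_nonneg_left h6 (by positivity)
    _ = 2 / pm i + 2 * ε := by field_simp

/-- the blocks of a rapidly increasing sequence -/
lemma ublock {F : ℕ → V} (hD : Data C F) (ε : ℝ) (hε : 0 < ε) (hε8 : ε ≤ 1 / 8) (ι N L0 : ℕ) :
    ∃ (U : V) (L1 : ℕ), L0 ≤ L1 ∧ Cone F N U ∧ Bd C U 1 ∧ Win C U L0 L1 ε ∧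
      (∀ i φ, i ≤ ι → K C (some i) φ → ∀ S, ev φ S U ≤ 2 / pm i + 2 * ε) ∧
      ∃ w φ S, K C w φ ∧ (∀ a, φ a ≠ 0 → L0 ≤ a ∧ a < L1) ∧ (1 / 4 : ℝ) ≤ ev φ S U := by
  classical
  set k := pn ι * pm ι with hk
  have hk0 : 0 < k := Nat.mul_pos (pn_pos _) (pm_pos _)
  have hk' : (0 : ℝ) < k := by exact_mod_cast hk0
  obtain ⟨W, L, hL, hL0, hc, hb, hw, w, φ, S, hφ, hev⟩ := james hD k hk0 ε hε N L0
  have hWpos : ∀ r, r < k → W r ∈ C.pos := fun r hr => (hc r hr).pos hD.pos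
  set U : V := (1 / (k : ℝ)) • ∑ r ∈ range k, W r with hU
  have hLk : L0 ≤ L k := hL0.trans (hL (Nat.zero_le _))
  have haux : ∀ (φ : Fam V) (S : Finset ℕ) (c : ℝ), (∀ r, r < k → ev φ S (W r) ≤ c) →
      ev φ S U ≤ c := by
    intro φ S c h
    rw [hU, ev_smul, ev_sum]
    have : ∑ r ∈ range k, ev φ S (W r) ≤ ∑ r ∈ range k, c :=
      sum_le_sum (fun r hr => h r (mem_range.mp hr))
    rw [sum_const, card_range, nsmul_eq_mul] at this
    calc (1 / (k : ℝ)) * ∑ r ∈ range k, ev φ S (W r) ≤ (1 / (k : ℝ)) * (k * c) :=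
          mul_le_mul_of_nonneg_left this (by positivity)
      _ = c := by field_simp
  have hUbd : Bd C U 1 := fun w φ hφ S => haux φ S 1 (fun r hr => hb r hr w φ hφ S)
  have hUwin : Win C U L0 (L k) ε := by
    constructor
    · intro w φ hφ S hS
      refine haux φ S ε (fun r hr => (hw r hr).1 w φ hφ S (fun a ha => ?_))
      exact (hS a ha).trans_le (hL0.trans (hL (Nat.zero_le _)))
    · intro w φ hφ S hS
      refine haux φ S ε (fun r hr => (hw r hr).2 w φ hφ S (fun a ha => ?_))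
      exact (hL (by omega : r + 1 ≤ k)).trans (hS a ha)
  refine ⟨U, L k, hLk, (Cone.sum _ k hc).smul (by positivity), hUbd, hUwin, ?_, w,
    (Set.Ico L0 (L k)).indicator φ, S, hφ.restr _, fun a ha => (indicator_ne_zero ha).1, ?_⟩
  · intro i φ hi hφ S
    refine lemB k hk0 W L hL ε hε.le hWpos hb hw hφ ?_ S
    exact Nat.mul_le_mul (pn_mono hi) (pm_mono hi)
  · rw [ev_indicator]
    have h1 := Win.ev_le hφ hLk hUwin S
    have h3 : (S.filter (fun a => a ∈ Set.Ico L0 (L k))) =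
        (S.filter (fun a => L0 ≤ a ∧ a < L k)) := by
      ext a; simp [Set.mem_Ico]
    rw [h3]
    linarith

end Run7.h921
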