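import Pool.Agent.Run7.h921.Params

/-!
The norming sets: families of functionals on an abstract ordered vector space.
-/

set_option autoImplicit false

open Finset Filter Topology

namespace Run7.h921

/-- families of functionals indexed by the levels -/
abbrev Fam (V : Type*) [AddCommGroup V] [Module ℝ V] := ℕ → (V →ₗ[ℝ] ℝ)

/-- The data: positive cone, cut operators, base functionals of each level. -/
structure Ctx (V : Type*) [AddCommGroup V] [Module ℝ V] where
  pos : Set V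
  T : ℕ → V →ₗ[ℝ] V
  B : ℕ → Set (V →ₗ[ℝ] ℝ)
  pos_zero : (0 : V) ∈ pos
  pos_add : ∀ U ∈ pos, ∀ W ∈ pos, U + W ∈ pos
  pos_smul : ∀ a : ℝ, 0 ≤ a → ∀ U ∈ pos, a • U ∈ pos
  T_pos : ∀ l, ∀ U ∈ pos, T l U ∈ pos
  T_sub : ∀ l, ∀ U ∈ pos, U - T l U ∈ pos
  T_idem : ∀ l U, T l (T l U) = T l U
  B_pos : ∀ l, ∀ f ∈ B l, ∀ U ∈ pos, 0 ≤ f U
  B_zero : ∀ l, 0 ∈ B l

variable {V : Type*} [AddCommGroup V] [Module ℝ V]

/-- `φ` lives before `ψ` -/
def FSucc (φ ψ : Fam V) : Prop := ∀ a b, φ a ≠ 0 → ψ b ≠ 0 → a < b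

/-- The norming set. -/
inductive K (C : Ctx V) : Option ℕ → Fam V → Prop
  | base (l : ℕ) (f : V →ₗ[ℝ] ℝ) (hf : f ∈ C.B l) : K C none (Pi.single l f)
  | ord (i n : ℕ) (hi : Even i) (hn : n ≤ pn i) (w : ℕ → Option ℕ) (φ : ℕ → Fam V)
      (h : ∀ t, t < n → K C (w t) (φ t)) (hs : ∀ s t, s < t → t < n → FSucc (φ s) (φ t)) :
      K C (some i) (fun a => (1 / (pm i : ℝ)) • ∑ t ∈ range n, φ t a)
  | spec (i n : ℕ) (hi : ¬ Even i) (hn : n ≤ pn i) (l : ℕ → ℕ) (φ : ℕ → Fam V)
      (h : ∀ t, t < n → K C (some (code i ((List.range t).map l))) (φ t))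
      (hs : ∀ s t, s < t → t < n → FSucc (φ s) (φ t)) :
      K C (some i) (fun a => (1 / (pm i : ℝ)) • ∑ t ∈ range n, (φ t a) ∘ₗ C.T (l t))

/-- evaluation of a family over a finite set of levels -/
def ev (φ : Fam V) (S : Finset ℕ) (U : V) : ℝ := ∑ a ∈ S, φ a U

/-- all functionals are bounded by `c` at `U` -/
def Bd (C : Ctx V) (U : V) (c : ℝ) : Prop := ∀ w φ, K C w φ → ∀ S, ev φ S U ≤ c

variable {C : Ctx V}

lemma Bd.nonneg {U : V} {c : ℝ} (h : Bd C U c) : 0 ≤ c := by
  have := h none (Pi.single 0 0) (K.base 0 0 (C.B_zero 0)) ∅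
  simpa [ev] using this

lemma Bd.mono {U : V} {c c' : ℝ} (h : Bd C U c) (hc : c ≤ c') : Bd C U c' :=
  fun w φ hφ S => (h w φ hφ S).trans hc

lemma ev_add (φ : Fam V) (S : Finset ℕ) (U W : V) : ev φ S (U + W) = ev φ S U + ev φ S W := by
  simp [ev, sum_add_distrib]

lemma ev_sub (φ : Fam V) (S : Finset ℕ) (U W : V) : ev φ S (U - W) = ev φ S U - ev φ S W := by
  simp [ev, sum_sub_distrib]

lemma ev_smul (φ : Fam V) (S : Finset ℕ) (a : ℝ) (U : V) : ev φ S (a • U) = a * ev φ S U := by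
  simp [ev, mul_sum]

lemma ev_zero (φ : Fam V) (S : Finset ℕ) : ev φ S 0 = 0 := by
  simp [ev]

lemma ev_sum {ι : Type*} (φ : Fam V) (S : Finset ℕ) (J : Finset ι) (U : ι → V) :
    ev φ S (∑ s ∈ J, U s) = ∑ s ∈ J, ev φ S (U s) := by
  unfold ev
  rw [sum_comm]
  simp [map_sum]

lemma pos_sum {ι : Type*} (J : Finset ι) (U : ι → V) (h : ∀ s ∈ J, U s ∈ C.pos) :
    ∑ s ∈ J, U s ∈ C.pos := by
  classical
  induction J using Finset.induction_on with
  | empty => simpa using C.pos_zero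
  | insert a s ha ih =>
    rw [sum_insert ha]
    exact C.pos_add _ (h a (mem_insert_self _ _)) _ (ih (fun s hs => h s (mem_insert_of_mem hs)))

lemma K.pos {w : Option ℕ} {φ : Fam V} (h : K C w φ) : ∀ a, ∀ U ∈ C.pos, 0 ≤ φ a U := by
  induction h with
  | base l f hf =>
    intro a U hU
    by_cases h : a = l
    · subst h
      simpa using C.B_pos _ f hf U hU
    · simp [Pi.single_eq_of_ne h]
  | ord i n hi hn w φ h hs ih =>
    intro a U hU
    simp only [LinearMap.smul_apply, LinearMap.sum_apply, smul_eq_mul]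
    exact mul_nonneg (by positivity) (sum_nonneg (fun t ht => ih t (mem_range.mp ht) a U hU))
  | spec i n hi hn l φ h hs ih =>
    intro a U hU
    simp only [LinearMap.smul_apply, LinearMap.sum_apply, smul_eq_mul, LinearMap.comp_apply]
    exact mul_nonneg (by positivity)
      (sum_nonneg (fun t ht => ih t (mem_range.mp ht) a _ (C.T_pos _ U hU)))

lemma K.ev_nonneg {w : Option ℕ} {φ : Fam V} (h : K C w φ) (S : Finset ℕ) {U : V}
    (hU : U ∈ C.pos) : 0 ≤ ev φ S U :=
  sum_nonneg (fun a _ => h.pos a U hU)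

lemma K.ev_mono_set {w : Option ℕ} {φ : Fam V} (h : K C w φ) {S S' : Finset ℕ} (hS : S ⊆ S')
    {U : V} (hU : U ∈ C.pos) : ev φ S U ≤ ev φ S' U :=
  sum_le_sum_of_subset_of_nonneg hS (fun a _ _ => h.pos a U hU)

lemma K.ev_mono {w : Option ℕ} {φ : Fam V} (h : K C w φ) (S : Finset ℕ) {U W : V}
    (hU : W - U ∈ C.pos) : ev φ S U ≤ ev φ S W := by
  have := h.ev_nonneg S hU
  rw [ev_sub] at this
  linarith

lemma K.restr {w : Option ℕ} {φ : Fam V} (h : K C w φ) (A : Set ℕ) :
    K C w (A.indicator φ) := by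
  classical
  induction h with
  | base l f hf =>
    have : A.indicator (Pi.single l f) = Pi.single l (if l ∈ A then f else 0) := by
      funext a
      by_cases h : a = l
      · subst h
        by_cases ha : a ∈ A <;> simp [ha]
      · by_cases ha : a ∈ A <;> simp [ha, Pi.single_eq_of_ne h]
    rw [this]
    apply K.base
    split_ifs
    · exact hf
    · exact C.B_zero l
  | ord i n hi hn w φ h hs ih =>
    have : A.indicator (fun a => (1 / (pm i : ℝ)) • ∑ t ∈ range n, φ t a) =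
        (fun a => (1 / (pm i : ℝ)) • ∑ t ∈ range n, A.indicator (φ t) a) := by
      funext a
      by_cases ha : a ∈ A <;> simp [ha]
    rw [this]
    refine K.ord i n hi hn w _ ih ?_
    intro s t hst ht a b ha hb
    exact hs s t hst ht a b (fun h0 => ha (by by_cases haA : a ∈ A <;> simp [haA, h0]))
      (fun h0 => hb (by by_cases hbA : b ∈ A <;> simp [hbA, h0]))
  | spec i n hi hn l φ h hs ih =>
    have : A.indicator (fun a => (1 / (pm i : ℝ)) • ∑ t ∈ range n, (φ t a) ∘ₗ C.T (l t)) =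
        (fun a => (1 / (pm i : ℝ)) • ∑ t ∈ range n, (A.indicator (φ t) a) ∘ₗ C.T (l t)) := by
      funext a
      by_cases ha : a ∈ A <;> simp [ha]
    rw [this]
    refine K.spec i n hi hn l _ ih ?_
    intro s t hst ht a b ha hb
    exact hs s t hst ht a b (fun h0 => ha (by by_cases haA : a ∈ A <;> simp [haA, h0]))
      (fun h0 => hb (by by_cases hbA : b ∈ A <;> simp [hbA, h0]))

lemma ev_indicator (φ : Fam V) (A : Set ℕ) [DecidablePred (· ∈ A)] (S : Finset ℕ) (U : V) :
    ev (A.indicator φ) S U = ev φ (S.filter (· ∈ A)) U := by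
  unfold ev
  rw [sum_filter]
  refine sum_congr rfl (fun a _ => ?_)
  by_cases ha : a ∈ A <;> simp [ha]

/-- one-step decomposition, for upper estimates -/
lemma K.children {i : ℕ} {φ : Fam V} (h : K C (some i) φ) :
    ∃ (n : ℕ) (w : ℕ → Option ℕ) (ψ : ℕ → Fam V), n ≤ pn i ∧ (∀ t, t < n → K C (w t) (ψ t)) ∧
      (∀ s t, s < t → t < n → FSucc (ψ s) (ψ t)) ∧
      ∀ a, ∀ U ∈ C.pos, φ a U ≤ (1 / (pm i : ℝ)) * ∑ t ∈ range n, ψ t a U := by
  cases h with
  | ord _ n hi hn w φ h hs =>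
    refine ⟨n, w, φ, hn, h, hs, fun a U hU => ?_⟩
    simp only [LinearMap.smul_apply, LinearMap.sum_apply, smul_eq_mul]
    exact le_rfl
  | spec _ n hi hn l φ h hs =>
    refine ⟨n, fun t => some (code i ((List.range t).map l)), φ, hn, h, hs, fun a U hU => ?_⟩
    simp only [LinearMap.smul_apply, LinearMap.sum_apply, smul_eq_mul, LinearMap.comp_apply]
    refine mul_le_mul_of_nonneg_left (sum_le_sum (fun t ht => ?_)) (by positivity)
    have := (h t (mem_range.mp ht)).pos a _ (C.T_sub (l t) U hU)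
    rw [map_sub] at this
    linarith

lemma Bd.single {i : ℕ} {φ : Fam V} (h : K C (some i) φ) {U : V} (hU : U ∈ C.pos) {c : ℝ}
    (hb : Bd C U c) (a : ℕ) : φ a U ≤ c / pm i := by
  obtain ⟨n, w, ψ, hn, hψ, hs, hle⟩ := h.children
  refine (hle a U hU).trans ?_
  rw [one_div, div_eq_inv_mul]
  refine mul_le_mul_of_nonneg_left ?_ (by positivity)
  by_cases hex : ∃ t, t < n ∧ ψ t a ≠ 0
  · obtain ⟨t, ht, hta⟩ := hex
    rw [sum_eq_single t]
    · have := hb _ _ (hψ t ht) {a}
      simpa [ev] using this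
    · intro s hs' hst
      have hs'' := mem_range.mp hs'
      have : ψ s a = 0 := by
        by_contra hne
        rcases lt_or_gt_of_ne hst with h1 | h1
        · exact lt_irrefl _ (hs s t h1 ht a a hne hta)
        · exact lt_irrefl _ (hs t s h1 hs'' a a hta hne)
      simp [this]
    · intro h; exact absurd (mem_range.mpr ht) h
  · push Not at hex
    have : ∑ t ∈ range n, ψ t a U = 0 := by
      apply sum_eq_zero
      intro t ht
      rw [hex t (mem_range.mp ht)]
      simp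
    rw [this]
    exact hb.nonneg

/-- the average of `n` successive functionals of the norming set -/
lemma Bd.avg {i n : ℕ} (hi : Even i) (hn : n ≤ pn i) (w : ℕ → Option ℕ) (φ : ℕ → Fam V)
    (h : ∀ t, t < n → K C (w t) (φ t)) (hs : ∀ s t, s < t → t < n → FSucc (φ s) (φ t))
    {U : V} {c : ℝ} (hb : Bd C U c) (S : Finset ℕ) :
    ∑ t ∈ range n, ev (φ t) S U ≤ pm i * c := by
  have := hb _ _ (K.ord i n hi hn w φ h hs) S
  have h2 : ev (fun a => (1 / (pm i : ℝ)) • ∑ t ∈ range n, φ t a) S U =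
      (1 / (pm i : ℝ)) * ∑ t ∈ range n, ev (φ t) S U := by
    unfold ev
    rw [sum_comm, mul_sum]
    simp [mul_sum]
  rw [h2, one_div, inv_mul_le_iff₀ (by exact_mod_cast pm_pos i)] at this
  exact this

/-- the support of the restriction -/
lemma indicator_ne_zero {φ : Fam V} {A : Set ℕ} {a : ℕ} (h : A.indicator φ a ≠ 0) :
    a ∈ A ∧ φ a ≠ 0 := by
  classical
  by_cases ha : a ∈ A
  · exact ⟨ha, by simpa [ha] using h⟩
  · simp [ha] at h

/-- Tail lemma -/
lemma Bd.tail {U : V} (hU : U ∈ C.pos) {c : ℝ} (hb : Bd C U c) {ε : ℝ} (hε : 0 < ε) :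
    ∃ L : ℕ, ∀ w φ, K C w φ → ∀ S : Finset ℕ, (∀ a ∈ S, L ≤ a) → ev φ S U ≤ ε := by
  classical
  by_contra hcon
  push Not at hcon
  -- choose
  choose w φ hK S hS hgt using hcon
  -- successive choice
  let nxt : ℕ → ℕ := fun L => (S L).sup id + 1 + L
  let pt : ℕ → ℕ := fun k => nxt^[k] 0
  have hpt : ∀ k, pt (k + 1) = nxt (pt k) := fun k => Function.iterate_succ_apply' _ _ _
  let Φ : ℕ → Fam V := fun k => (↑(S (pt k)) : Set ℕ).indicator (φ (pt k))
  have hΦ : ∀ k, K C (w (pt k)) (Φ k) := fun k => (hK (pt k)).restr _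
  have hmono : Monotone pt := monotone_nat_of_le_succ (fun k => by
    rw [hpt]; simp only [nxt]; omega)
  have hlt : ∀ k a, a ∈ S (pt k) → a < pt (k + 1) := by
    intro k a ha
    rw [hpt]
    have : a ≤ (S (pt k)).sup id := Finset.le_sup (f := id) ha
    simp only [nxt]; omega
  have hsucc : ∀ s t, s < t → FSucc (Φ s) (Φ t) := by
    intro s t hst a b ha hb'
    have ha' := (indicator_ne_zero ha).1
    have hb'' := (indicator_ne_zero hb').1
    have h1 : a < pt (s + 1) := hlt s a (by simpa using ha')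
    have h2 : pt t ≤ b := hS (pt t) b (by simpa using hb'')
    have h3 : pt (s + 1) ≤ pt t := hmono hst
    omega
  -- parameter
  obtain ⟨N, hN⟩ := exists_nat_gt (c / ε)
  set i := 2 * N with hi
  have hNi : (N : ℝ) ≤ pm i := by
    have : N ≤ pm i := (by omega : N ≤ i).trans (self_le_pm i)
    exact_mod_cast this
  let S' : Finset ℕ := (range (pn i)).biUnion (fun k => S (pt k))
  have hev : ∀ k, k < pn i → ε < ev (Φ k) S' U := by
    intro k hk
    refine lt_of_lt_of_le (hgt (pt k)) ?_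
    simp only [Φ]
    rw [ev_indicator]
    refine (hK (pt k)).ev_mono_set ?_ hU
    intro a ha
    simp only [mem_filter, S', mem_biUnion, mem_range]
    exact ⟨⟨k, hk, ha⟩, by simpa using ha⟩
  have h1 := hb.avg (i := i) (n := pn i) (by simp [hi]) le_rfl (fun k => w (pt k)) Φ
    (fun t _ => hΦ t) (fun s t hst _ => hsucc s t hst) S'
  have h2 : (pn i : ℝ) * ε ≤ ∑ t ∈ range (pn i), ev (Φ t) S' U := by
    have : ∑ t ∈ range (pn i), ε ≤ ∑ t ∈ range (pn i), ev (Φ t) S' U :=
      sum_le_sum (fun t ht => (hev t (mem_range.mp ht)).le)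
    simpa using this
  have h3 : (8 : ℝ) * (pm i : ℝ) ^ 2 ≤ pn i := by exact_mod_cast pn_ge_pm_sq i
  have hm : (2 : ℝ) ≤ pm i := by exact_mod_cast two_le_pm i
  have h4 : c < ε * N := by
    rw [div_lt_iff₀ hε] at hN
    linarith
  have h5 : (pn i : ℝ) * ε ≤ pm i * c := h2.trans h1
  have h6 : 8 * (pm i : ℝ) ^ 2 * ε ≤ pm i * c := (mul_le_mul_of_nonneg_right h3 hε.le).trans h5
  have h7 : 8 * (pm i : ℝ) * ε ≤ c := by
    have h8 : (pm i : ℝ) * (8 * (pm i : ℝ) * ε) ≤ pm i * c := by nlinarith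
    exact le_of_mul_le_mul_left h8 (by linarith)
  nlinarith

end Run7.h921
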