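import Mathlib

/-!
Multiplication operators on `L²(μ)`.
-/

set_option autoImplicit false

open MeasureTheory Filter Topology

namespace Run7.h921

/-- real `L²` -/
abbrev HH {Ω : Type*} [MeasurableSpace Ω] (μ : Measure Ω) := Lp ℝ 2 μ

/-- bounded measurable -/
def BM {Ω : Type*} [MeasurableSpace Ω] (b : Ω → ℝ) : Prop := Measurable b ∧ ∃ c, ∀ ω, |b ω| ≤ c

variable {Ω : Type*} [MeasurableSpace Ω] {μ : Measure Ω}

lemma BM.memLp {b : Ω → ℝ} (hb : BM b) (x : HH μ) : MemLp (fun ω => b ω * x ω) 2 μ := by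
  obtain ⟨hm, c, hc⟩ := hb
  refine (Lp.memLp x).of_le_mul (c := c)
    (hm.aestronglyMeasurable.mul (Lp.aestronglyMeasurable x)) (Eventually.of_forall (fun ω => ?_))
  rw [norm_mul]
  exact mul_le_mul_of_nonneg_right (hc ω) (norm_nonneg _)

lemma BM.mul {b b' : Ω → ℝ} (hb : BM b) (hb' : BM b') : BM (fun ω => b ω * b' ω) := by
  obtain ⟨hm, c, hc⟩ := hb
  obtain ⟨hm', c', hc'⟩ := hb'
  refine ⟨hm.mul hm', c * c', fun ω => ?_⟩
  rw [abs_mul]
  exact mul_le_mul (hc ω) (hc' ω) (abs_nonneg _) ((abs_nonneg _).trans (hc ω))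

lemma BM.add {b b' : Ω → ℝ} (hb : BM b) (hb' : BM b') : BM (fun ω => b ω + b' ω) := by
  obtain ⟨hm, c, hc⟩ := hb
  obtain ⟨hm', c', hc'⟩ := hb'
  exact ⟨hm.add hm', c + c', fun ω => (abs_add_le _ _).trans (add_le_add (hc ω) (hc' ω))⟩

lemma BM.const (c : ℝ) : BM (fun _ : Ω => c) := ⟨measurable_const, |c|, fun _ => le_rfl⟩

lemma BM.indicator {A : Set Ω} (hA : MeasurableSet A) {b : Ω → ℝ} (hb : BM b) :
    BM (A.indicator b) := by
  obtain ⟨hm, c, hc⟩ := hb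
  refine ⟨hm.indicator hA, |c|, fun ω => ?_⟩
  by_cases h : ω ∈ A
  · rw [Set.indicator_of_mem h]
    exact (hc ω).trans (le_abs_self _)
  · rw [Set.indicator_of_notMem h, abs_zero]
    exact abs_nonneg _

open Classical in
/-- multiplication by a bounded measurable function (zero if it is not one) -/
noncomputable def mulL (μ : Measure Ω) (b : Ω → ℝ) : HH μ →L[ℝ] HH μ :=
  if hb : BM b then
    LinearMap.mkContinuous
      { toFun := fun x => (hb.memLp x).toLp _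
        map_add' := by
          intro x y
          apply Lp.ext
          filter_upwards [(hb.memLp (x + y)).coeFn_toLp, (hb.memLp x).coeFn_toLp,
            (hb.memLp y).coeFn_toLp, Lp.coeFn_add x y,
            Lp.coeFn_add ((hb.memLp x).toLp _) ((hb.memLp y).toLp _)] with ω h1 h2 h3 h4 h5
          rw [h1, h5, Pi.add_apply, h2, h3, h4, Pi.add_apply, mul_add]
        map_smul' := by
          intro a x
          apply Lp.ext
          filter_upwards [(hb.memLp (a • x)).coeFn_toLp, (hb.memLp x).coeFn_toLp,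
            Lp.coeFn_smul a x,
            Lp.coeFn_smul a ((hb.memLp x).toLp _)] with ω h1 h2 h4 h5
          rw [h1, RingHom.id_apply, h5, Pi.smul_apply, h2, h4, Pi.smul_apply, smul_eq_mul,
            smul_eq_mul]
          ring } (Classical.choose hb.2) (by
      intro x
      apply Lp.norm_le_mul_norm_of_ae_le_mul
      filter_upwards [(hb.memLp x).coeFn_toLp] with ω h1
      change ‖((hb.memLp x).toLp _) ω‖ ≤ _
      rw [h1, norm_mul]
      exact mul_le_mul_of_nonneg_right (Classical.choose_spec hb.2 ω) (norm_nonneg _))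
  else 0

lemma mulL_ae {b : Ω → ℝ} (hb : BM b) (x : HH μ) : mulL μ b x =ᵐ[μ] fun ω => b ω * x ω := by
  unfold mulL
  rw [dif_pos hb]
  exact (hb.memLp x).coeFn_toLp

lemma mulL_norm_le {b : Ω → ℝ} (hb : BM b) {c : ℝ} (hc : ∀ ω, |b ω| ≤ c) (x : HH μ) :
    ‖mulL μ b x‖ ≤ c * ‖x‖ := by
  apply Lp.norm_le_mul_norm_of_ae_le_mul
  filter_upwards [mulL_ae hb x] with ω h1
  rw [h1, norm_mul]
  exact mul_le_mul_of_nonneg_right (hc ω) (norm_nonneg _)

lemma mulL_comp {b b' : Ω → ℝ} (hb : BM b) (hb' : BM b') (x : HH μ) :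
    mulL μ b (mulL μ b' x) = mulL μ (fun ω => b ω * b' ω) x := by
  apply Lp.ext
  filter_upwards [mulL_ae hb (mulL μ b' x), mulL_ae hb' x, mulL_ae (hb.mul hb') x]
    with ω h1 h2 h3
  rw [h1, h2, h3, mul_assoc]

lemma mulL_congr {b b' : Ω → ℝ} (hb : BM b) (hb' : BM b') (x : HH μ)
    (h : ∀ᵐ ω ∂μ, b ω * x ω = b' ω * x ω) : mulL μ b x = mulL μ b' x := by
  apply Lp.ext
  filter_upwards [mulL_ae hb x, mulL_ae hb' x, h] with ω h1 h2 h3
  rw [h1, h2, h3]

lemma mulL_one (x : HH μ) : mulL μ (fun _ => 1) x = x := by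
  apply Lp.ext
  filter_upwards [mulL_ae (BM.const 1) x] with ω h1
  rw [h1, one_mul]

lemma mulL_add_fun {b b' : Ω → ℝ} (hb : BM b) (hb' : BM b') (x : HH μ) :
    mulL μ (fun ω => b ω + b' ω) x = mulL μ b x + mulL μ b' x := by
  apply Lp.ext
  filter_upwards [mulL_ae hb x, mulL_ae hb' x, mulL_ae (hb.add hb') x,
    Lp.coeFn_add (mulL μ b x) (mulL μ b' x)] with ω h1 h2 h3 h4
  rw [h3, h4, Pi.add_apply, h1, h2, add_mul]

lemma inner_eq (x y : HH μ) : inner ℝ x y = ∫ ω, x ω * y ω ∂μ := by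
  rw [L2.inner_def]
  refine integral_congr_ae (Eventually.of_forall (fun ω => ?_))
  simp [mul_comm]

lemma integrable_mul_HH (x y : HH μ) : Integrable (fun ω => x ω * y ω) μ := by
  have := L2.integrable_inner (𝕜 := ℝ) x y
  refine this.congr (Eventually.of_forall (fun ω => ?_))
  simp [mul_comm]

lemma integrable_sq_HH (x : HH μ) : Integrable (fun ω => (x ω) ^ 2) μ :=
  (Lp.memLp x).integrable_sq

lemma integrable_bmul_sq {b : Ω → ℝ} (hb : BM b) (x : HH μ) :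
    Integrable (fun ω => b ω * (x ω) ^ 2) μ := by
  obtain ⟨hm, c, hc⟩ := hb
  exact (integrable_sq_HH x).bdd_mul hm.aestronglyMeasurable (Eventually.of_forall hc)

lemma norm_sq_eq (x : HH μ) : ‖x‖ ^ 2 = ∫ ω, (x ω) ^ 2 ∂μ := by
  rw [← real_inner_self_eq_norm_sq, inner_eq]
  refine integral_congr_ae (Eventually.of_forall (fun ω => ?_))
  simp only
  ring

lemma mulL_selfadj {b : Ω → ℝ} (hb : BM b) (x y : HH μ) :
    inner ℝ (mulL μ b x) y = inner ℝ x (mulL μ b y) := by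
  rw [inner_eq, inner_eq]
  apply integral_congr_ae
  filter_upwards [mulL_ae hb x, mulL_ae hb y] with ω h1 h2
  rw [h1, h2]
  ring

/-- weights: bounded measurable nonnegative -/
def BW (w : Ω → ℝ) : Prop := Measurable w ∧ (∀ ω, 0 ≤ w ω) ∧ ∃ c, ∀ ω, w ω ≤ c

lemma BW.bm {w : Ω → ℝ} (hw : BW w) : BM w := by
  obtain ⟨hm, h0, c, hc⟩ := hw
  exact ⟨hm, c, fun ω => by rw [abs_of_nonneg (h0 ω)]; exact hc ω⟩

lemma BW.sqrt {w : Ω → ℝ} (hw : BW w) : BM (fun ω => √(w ω)) := by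
  obtain ⟨hm, h0, c, hc⟩ := hw
  refine ⟨hm.sqrt, √c, fun ω => ?_⟩
  rw [abs_of_nonneg (Real.sqrt_nonneg _)]
  exact Real.sqrt_le_sqrt (hc ω)

/-- multiplication by the square root of the weight -/
noncomputable def mw (μ : Measure Ω) (w : Ω → ℝ) : HH μ →L[ℝ] HH μ := mulL μ (fun ω => √(w ω))

lemma mw_ae {w : Ω → ℝ} (hw : BW w) (x : HH μ) : mw μ w x =ᵐ[μ] fun ω => √(w ω) * x ω :=
  mulL_ae hw.sqrt x

lemma mw_norm_sq {w : Ω → ℝ} (hw : BW w) (x : HH μ) :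
    ‖mw μ w x‖ ^ 2 = ∫ ω, w ω * (x ω) ^ 2 ∂μ := by
  rw [norm_sq_eq]
  apply integral_congr_ae
  filter_upwards [mw_ae hw x] with ω h1
  rw [h1, mul_pow, Real.sq_sqrt (hw.2.1 ω)]

lemma mw_solid {w : Ω → ℝ} {x y : HH μ} (hw : BW w) (h : ∀ᵐ ω ∂μ, |x ω| ≤ |y ω|) :
    ‖mw μ w x‖ ≤ ‖mw μ w y‖ := by
  apply Lp.norm_le_norm_of_ae_le
  filter_upwards [mw_ae hw x, mw_ae hw y, h] with ω h1 h2 h3
  rw [h1, h2, norm_mul, norm_mul]
  exact mul_le_mul_of_nonneg_left h3 (norm_nonneg _)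

lemma mw_mulL {w b : Ω → ℝ} (hw : BW w) (hb : BM b) (x : HH μ) :
    mw μ w (mulL μ b x) = mulL μ b (mw μ w x) := by
  unfold mw
  rw [mulL_comp hw.sqrt hb, mulL_comp hb hw.sqrt]
  congr 1
  congr 1
  funext ω
  ring

lemma mw_mw {w : Ω → ℝ} (hw : BW w) (x : HH μ) :
    mw μ w (mw μ w x) = mulL μ w x := by
  unfold mw
  rw [mulL_comp hw.sqrt hw.sqrt]
  congr 1
  congr 1
  funext ω
  exact Real.mul_self_sqrt (hw.2.1 ω)

/-- orthogonality of disjointly supported elements -/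
lemma mw_add_sq {w : Ω → ℝ} (hw : BW w) {x y : HH μ} (h : ∀ᵐ ω ∂μ, x ω * y ω = 0) :
    ‖mw μ w (x + y)‖ ^ 2 = ‖mw μ w x‖ ^ 2 + ‖mw μ w y‖ ^ 2 := by
  rw [mw_norm_sq hw, mw_norm_sq hw, mw_norm_sq hw,
    ← integral_add (integrable_bmul_sq hw.bm x) (integrable_bmul_sq hw.bm y)]
  apply integral_congr_ae
  filter_upwards [Lp.coeFn_add x y, h] with ω h1 h2
  rw [h1, Pi.add_apply]
  have : (x ω + y ω) ^ 2 = (x ω) ^ 2 + (y ω) ^ 2 + 2 * (x ω * y ω) := by ring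
  rw [this, h2]
  ring

end Run7.h921
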