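import Mathlib

/-!
Parameters of the mixed-Tsirelson-type norming sets used for problem MP_8b637a_an.
-/

set_option autoImplicit false

namespace Run7.h921

/-- The pair (m_j, nu_j). -/
def mn : ℕ → ℕ × ℕ
  | 0 => (2, 1)
  | j + 1 =>
    ((8 * (mn j).1 ^ 2 * (2 * (mn j).2) ^ (2 * (mn j).1 + 1)) ^ 2,
      8 * (mn j).1 ^ 2 * (2 * (mn j).2) ^ (2 * (mn j).1 + 1))

/-- m_j -/
def pm (j : ℕ) : ℕ := (mn j).1
/-- nu_j -/
def pnu (j : ℕ) : ℕ := (mn j).2
/-- n_j -/
def pn (j : ℕ) : ℕ := 8 * (pm j) ^ 2 * (2 * pnu j) ^ (2 * pm j + 1)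

lemma pm_zero : pm 0 = 2 := rfl
lemma pnu_zero : pnu 0 = 1 := rfl
lemma pm_succ (j : ℕ) : pm (j + 1) = (pn j) ^ 2 := rfl
lemma pnu_succ (j : ℕ) : pnu (j + 1) = pn j := rfl

lemma pm_pnu_pos (j : ℕ) : 2 ≤ pm j ∧ j + 1 ≤ pnu j := by
  induction j with
  | zero => simp [pm_zero, pnu_zero]
  | succ j ih =>
    obtain ⟨h1, h2⟩ := ih
    have hnu : 1 ≤ pnu j := by omega
    have h3 : 2 * pnu j ≤ (2 * pnu j) ^ (2 * pm j + 1) := by
      calc 2 * pnu j = (2 * pnu j) ^ 1 := by ring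
        _ ≤ _ := Nat.pow_le_pow_right (by omega) (by omega)
    have h4 : 0 < 8 * (pm j) ^ 2 := by positivity
    have h5 : 2 * pnu j ≤ pn j := by
      unfold pn
      nlinarith
    constructor
    · rw [pm_succ]
      nlinarith
    · rw [pnu_succ]
      omega

lemma two_le_pm (j : ℕ) : 2 ≤ pm j := (pm_pnu_pos j).1
lemma succ_le_pnu (j : ℕ) : j + 1 ≤ pnu j := (pm_pnu_pos j).2
lemma one_le_pnu (j : ℕ) : 1 ≤ pnu j := le_trans (by omega) (succ_le_pnu j)

lemma pn_ge_pnu (j : ℕ) : pnu j ≤ pn j := by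
  have hnu : 1 ≤ pnu j := one_le_pnu j
  have hm : 2 ≤ pm j := two_le_pm j
  have h3 : 2 * pnu j ≤ (2 * pnu j) ^ (2 * pm j + 1) := by
    calc 2 * pnu j = (2 * pnu j) ^ 1 := by ring
      _ ≤ _ := Nat.pow_le_pow_right (by omega) (by omega)
  have h4 : 0 < 8 * (pm j) ^ 2 := by positivity
  unfold pn
  nlinarith

lemma pn_ge_pm_sq (j : ℕ) : 8 * (pm j) ^ 2 ≤ pn j := by
  unfold pn
  have hnu : 1 ≤ pnu j := one_le_pnu j
  have : 1 ≤ (2 * pnu j) ^ (2 * pm j + 1) := Nat.one_le_pow _ _ (by omega)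
  nlinarith [Nat.zero_le (8 * pm j ^ 2)]

lemma pn_pos (j : ℕ) : 0 < pn j := by
  have := pn_ge_pm_sq j
  have := two_le_pm j
  nlinarith

lemma pm_pos (j : ℕ) : 0 < pm j := by
  have := two_le_pm j
  omega

lemma pm_le_pn (j : ℕ) : pm j ≤ pn j := by
  have := pn_ge_pm_sq j
  have := two_le_pm j
  nlinarith

lemma pn_le_pm_succ (j : ℕ) : pn j ≤ pm (j + 1) := by
  rw [pm_succ]
  have := pn_pos j
  nlinarith

lemma pm_mono : Monotone pm :=
  monotone_nat_of_le_succ (fun j => (pm_le_pn j).trans (pn_le_pm_succ j))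

lemma pm_strictMono : StrictMono pm := by
  apply strictMono_nat_of_lt_succ
  intro j
  have h1 := pn_ge_pm_sq j
  have h2 := two_le_pm j
  have h3 := pn_le_pm_succ j
  nlinarith

lemma pnu_mono : Monotone pnu :=
  monotone_nat_of_le_succ (fun j => by rw [pnu_succ]; exact pn_ge_pnu j)

lemma pn_le_pnu {i j : ℕ} (h : i < j) : pn i ≤ pnu j := by
  rw [← pnu_succ]
  exact pnu_mono h

lemma pn_sq_le_pm {i j : ℕ} (h : i < j) : (pn i) ^ 2 ≤ pm j := by
  rw [← pm_succ]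
  exact pm_mono h

lemma pn_mono : Monotone pn := by
  apply monotone_nat_of_le_succ
  intro j
  exact (pn_le_pm_succ j).trans (pm_le_pn _)

lemma self_le_pm (j : ℕ) : j ≤ pm j := pm_strictMono.le_apply

lemma four_mul_lt_pow (m : ℕ) (hm : 2 ≤ m) : 4 * m < 2 ^ (2 * m) := by
  induction m, hm using Nat.le_induction with
  | base => norm_num
  | succ m hm ih =>
    have : 2 ^ (2 * (m + 1)) = 4 * 2 ^ (2 * m) := by ring
    rw [this]
    omega

lemma james_param (k : ℕ) : ∃ i : ℕ, Even i ∧ k ^ (2 * pm i) ≤ pn i ∧ 4 * pm i < 2 ^ (2 * pm i) := by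
  refine ⟨2 * k, by simp, ?_, four_mul_lt_pow _ (two_le_pm _)⟩
  have h1 := succ_le_pnu (2 * k)
  have h2 : k ≤ 2 * pnu (2 * k) := by omega
  calc k ^ (2 * pm (2 * k)) ≤ (2 * pnu (2 * k)) ^ (2 * pm (2 * k)) := Nat.pow_le_pow_left h2 _
    _ ≤ (2 * pnu (2 * k)) ^ (2 * pm (2 * k) + 1) :=
        Nat.pow_le_pow_right (by omega) (by omega)
    _ ≤ pn (2 * k) := by
        unfold pn
        have : 0 < 8 * pm (2 * k) ^ 2 := by
          have := pm_pos (2 * k)
          positivity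
        nlinarith [Nat.zero_le ((2 * pnu (2 * k)) ^ (2 * pm (2 * k) + 1))]

/-- The coding of the weights of special functionals. -/
def code (i : ℕ) (L : List ℕ) : ℕ := 2 * Nat.pair i (Encodable.encode L) + 2

lemma code_even (i : ℕ) (L : List ℕ) : Even (code i L) := by
  unfold code
  exact ⟨Nat.pair i (Encodable.encode L) + 1, by ring⟩

lemma lt_code (i : ℕ) (L : List ℕ) : i < code i L := by
  unfold code
  have := Nat.left_le_pair i (Encodable.encode L)
  omega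

lemma code_inj {i i' : ℕ} {L L' : List ℕ} (h : code i L = code i' L') : L = L' := by
  unfold code at h
  have h1 : Nat.pair i (Encodable.encode L) = Nat.pair i' (Encodable.encode L') := by omega
  have h2 := (Nat.pair_eq_pair.mp h1).2
  exact Encodable.encode_injective h2

end Run7.h921
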