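import Pool.Agent.Run7.h921.WRefl

/-!
Density of the `L²` functionals in the dual of `E`, and reflexivity of `E`.
-/

set_option autoImplicit false
set_option linter.unusedSectionVars false

open MeasureTheory Filter Topology

namespace Run7.h921

variable {Ω : Type} [MeasurableSpace Ω] {μ : Measure Ω} [IsProbabilityMeasure μ] {s : WSys μ}

lemma exists_level {f : Ω → ℝ} (hf : Measurable f) (δ : ℝ) (hδ : 0 < δ) :
    ∃ k : ℕ, μ.real {ω | (k : ℝ) < |f ω|} ≤ δ := by
  have hm : ∀ k : ℕ, MeasurableSet {ω | (k : ℝ) < |f ω|} := fun k =>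
    measurableSet_lt measurable_const hf.abs
  have h1 : Tendsto (fun k : ℕ => μ {ω | (k : ℝ) < |f ω|}) atTop
      (𝓝 (μ (⋂ k : ℕ, {ω | (k : ℝ) < |f ω|}))) := by
    apply tendsto_measure_iInter_atTop (fun k => (hm k).nullMeasurableSet)
    · intro k k' hkk' ω hω
      have : (k : ℝ) ≤ k' := by exact_mod_cast hkk'
      exact lt_of_le_of_lt this hω
    · exact ⟨0, measure_ne_top _ _⟩
  have h2 : (⋂ k : ℕ, {ω | (k : ℝ) < |f ω|}) = ∅ := by
    ext ω
    simp only [Set.mem_iInter, Set.mem_ofPred_eq, Set.mem_empty_iff_false, iff_false, not_forall,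
      not_lt]
    obtain ⟨k, hk⟩ := exists_nat_ge |f ω|
    exact ⟨k, hk⟩
  rw [h2, measure_empty] at h1
  obtain ⟨k, hk⟩ := (h1.eventually (gt_mem_nhds (ENNReal.ofReal_pos.mpr hδ))).exists
  exact ⟨k, ENNReal.toReal_le_of_le_ofReal hδ.le hk.le⟩

lemma bl_norm_le (l : s.E →L[ℝ] ℝ) {b : Ω → ℝ} (hb : BM b) {c : ℝ} (hc0 : 0 ≤ c)
    (hc : ∀ ω, |b ω| ≤ c) : |bl l b| ≤ ‖l‖ * (c * ‖oneE s‖) := by
  unfold bl
  refine (l.le_opNorm _).trans ?_
  exact mul_le_mul_of_nonneg_left (mulE_norm_le hb hc0 hc _) (norm_nonneg _)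

lemma bl_sum (l : s.E →L[ℝ] ℝ) (t : Finset ℤ) (c : ℤ → ℝ) (B : ℤ → Set Ω)
    (hB : ∀ j, MeasurableSet (B j)) :
    BM (fun ω => ∑ j ∈ t, c j * ind (B j) ω) ∧
    bl l (fun ω => ∑ j ∈ t, c j * ind (B j) ω) = ∑ j ∈ t, c j * bl l (ind (B j)) := by
  classical
  induction t using Finset.induction_on with
  | empty => simpa using ⟨BM.const 0, bl_zero l⟩
  | insert a t ha ih =>
    simp only [Finset.sum_insert ha]
    have h1 : BM (fun ω => c a * ind (B a) ω) := (BM.const (c a)).mul (ind_bm (hB a))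
    refine ⟨h1.add ih.1, ?_⟩
    rw [bl_add l h1 ih.1, ih.2, bl_smul l (c a) (ind_bm (hB a))]

lemma bl_bounded_zero (l : s.E →L[ℝ] ℝ) (h : ∀ B, MeasurableSet B → bl l (ind B) = 0)
    {b : Ω → ℝ} (hb : BM b) : bl l b = 0 := by
  classical
  obtain ⟨c, hc⟩ := hb.2
  have key : ∀ η : ℝ, 0 < η → |bl l b| ≤ ‖l‖ * (η * ‖oneE s‖) := by
    intro η hη
    set K : ℤ := ⌈|c| / η⌉ + 1 with hK
    let B : ℤ → Set Ω := fun j => {ω | ⌊b ω / η⌋ = j}
    have hB : ∀ j, MeasurableSet (B j) := fun j =>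
      (Int.measurable_floor.comp (hb.1.div_const η)) (measurableSet_singleton j)
    obtain ⟨hs1, hs2⟩ := bl_sum l (Finset.Icc (-K) K) (fun j => η * j) B hB
    have hval : ∀ ω, ∑ j ∈ Finset.Icc (-K) K, (η * (j : ℝ)) * ind (B j) ω = η * ⌊b ω / η⌋ := by
      intro ω
      rw [Finset.sum_eq_single ⌊b ω / η⌋]
      · rw [ind_of_mem (A := B ⌊b ω / η⌋) rfl, mul_one]
      · intro j _ hj
        rw [ind_of_notMem (A := B j) (fun h' => hj h'.symm), mul_zero]
      · intro hnot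
        exfalso
        apply hnot
        rw [Finset.mem_Icc]
        have h1 : |b ω / η| ≤ |c| / η := by
          rw [abs_div, abs_of_pos hη]
          exact div_le_div_of_nonneg_right ((hc ω).trans (le_abs_self c)) hη.le
        have h2 := abs_le.mp h1
        have h3 : |c| / η ≤ ⌈|c| / η⌉ := Int.le_ceil _
        constructor
        · rw [Int.le_floor]
          rw [hK]
          push_cast
          linarith [h2.1]
        · have h4 : (⌊b ω / η⌋ : ℝ) ≤ b ω / η := Int.floor_le _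
          have h5 : (⌊b ω / η⌋ : ℝ) ≤ (K : ℝ) := by
            rw [hK]
            push_cast
            linarith [h2.2]
          exact_mod_cast h5
    have hzero : bl l (fun ω => ∑ j ∈ Finset.Icc (-K) K, (η * (j : ℝ)) * ind (B j) ω) = 0 := by
      rw [hs2]
      exact Finset.sum_eq_zero (fun j _ => by rw [h (B j) (hB j), mul_zero])
    have hst : BM (fun ω => η * (⌊b ω / η⌋ : ℝ)) := by
      have : (fun ω => ∑ j ∈ Finset.Icc (-K) K, (η * (j : ℝ)) * ind (B j) ω) =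
        fun ω => η * (⌊b ω / η⌋ : ℝ) := funext hval
      rw [← this]
      exact hs1
    have hst0 : bl l (fun ω => η * (⌊b ω / η⌋ : ℝ)) = 0 := by
      rw [← hzero]
      congr 1
      exact (funext hval).symm
    have hdiff : BM (fun ω => b ω + (-1) * (η * (⌊b ω / η⌋ : ℝ))) :=
      hb.add ((BM.const (-1)).mul hst)
    have e1 : bl l (fun ω => b ω + (-1) * (η * (⌊b ω / η⌋ : ℝ))) = bl l b := by
      rw [bl_add l hb ((BM.const (-1)).mul hst), bl_smul l (-1) hst, hst0, mul_zero, add_zero]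
    rw [← e1]
    apply bl_norm_le l hdiff hη.le
    intro ω
    have h4 : (⌊b ω / η⌋ : ℝ) ≤ b ω / η := Int.floor_le _
    have h5 : b ω / η < (⌊b ω / η⌋ : ℝ) + 1 := Int.lt_floor_add_one _
    rw [le_div_iff₀ hη] at h4
    rw [div_lt_iff₀ hη] at h5
    rw [abs_le]
    constructor <;> nlinarith
  by_contra hne
  have hpos : 0 < |bl l b| := abs_pos.mpr hne
  set M := ‖l‖ * ‖oneE s‖ + 1 with hM
  have hM0 : 0 < M := by positivity
  have h1 := key (|bl l b| / (2 * M)) (by positivity)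
  have h2 : ‖l‖ * (|bl l b| / (2 * M) * ‖oneE s‖) = (‖l‖ * ‖oneE s‖) * |bl l b| / (2 * M) := by
    ring
  rw [h2, le_div_iff₀ (by positivity)] at h1
  nlinarith

/-- a functional vanishing on indicator functions is zero -/
lemma eq_zero_of_ind (l : s.E →L[ℝ] ℝ) (h : ∀ B, MeasurableSet B → bl l (ind B) = 0) (x : s.E) :
    l x = 0 := by
  by_contra hne
  have hpos : 0 < |l x| := abs_pos.mpr hne
  obtain ⟨δ, hδ, hoc⟩ := claimA l (|l x| / (2 * (‖x‖ + 1))) (by positivity)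
  have hf : Measurable (WSys.toH x : Ω → ℝ) := (Lp.stronglyMeasurable _).measurable
  obtain ⟨k, hk⟩ := exists_level (μ := μ) hf δ hδ
  set B : Set Ω := {ω | (k : ℝ) < |WSys.toH x ω|} with hB
  have hBm : MeasurableSet B := measurableSet_lt measurable_const hf.abs
  have hb : BM (fun ω => ind Bᶜ ω * WSys.toH x ω) := by
    refine ⟨(ind_bm hBm.compl).1.mul hf, k, fun ω => ?_⟩
    dsimp only
    by_cases hω : ω ∈ B
    · rw [ind_of_notMem (A := Bᶜ) (by simpa using hω), zero_mul, abs_zero]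
      exact Nat.cast_nonneg k
    · rw [ind_of_mem (A := Bᶜ) (by simpa using hω), one_mul]
      exact not_lt.mp hω
  have h1 : mulE s (ind Bᶜ) x = mulE s (fun ω => ind Bᶜ ω * WSys.toH x ω) (oneE s) := by
    apply toH_inj
    apply Lp.ext
    filter_upwards [mulE_ae (ind_bm hBm.compl) x, mulE_oneE_ae (s := s) hb] with ω h1 h2
    rw [h1, h2]
  have h2 : l (mulE s (ind Bᶜ) x) = 0 := by
    rw [h1]
    exact bl_bounded_zero l h hb
  have h3 : l x = l (mulE s (ind B) x) := by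
    conv_lhs => rw [← mulE_compl hBm x]
    rw [map_add, h2, add_zero]
  have h4 := hoc B hBm hk x
  rw [← h3] at h4
  have h5 : |l x| / (2 * (‖x‖ + 1)) * ‖x‖ ≤ |l x| / (2 * (‖x‖ + 1)) * (‖x‖ + 1) :=
    mul_le_mul_of_nonneg_left (by linarith) (by positivity)
  have h6 : |l x| / (2 * (‖x‖ + 1)) * (‖x‖ + 1) = |l x| / 2 := by
    have : ‖x‖ + 1 ≠ 0 := by positivity
    field_simp
  linarith

/-- the functional on `E` given by an element of `L²` -/
noncomputable def JL (s : WSys μ) (g : HH μ) : s.E →L[ℝ] ℝ := (innerSL ℝ g).comp (toHL s)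

lemma JL_apply (g : HH μ) (x : s.E) : JL s g x = inner ℝ g (WSys.toH x) := rfl

/-- density of the `L²` functionals -/
lemma dense_JL (l : s.E →L[ℝ] ℝ) (ε : ℝ) (hε : 0 < ε) :
    ∃ g : HH μ, ∀ x, |l x - JL s g x| ≤ ε * ‖x‖ := by
  obtain ⟨h, hh, hint, hden⟩ := exists_density l
  obtain ⟨δ, hδ, hoc⟩ := claimA l ε hε
  obtain ⟨k, hk⟩ := exists_level (μ := μ) hh δ hδ
  set B : Set Ω := {ω | (k : ℝ) < |h ω|} with hB
  have hBm : MeasurableSet B := measurableSet_lt measurable_const hh.abs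
  have hb : BM (fun ω => ind Bᶜ ω * h ω) := by
    refine ⟨(ind_bm hBm.compl).1.mul hh, k, fun ω => ?_⟩
    dsimp only
    by_cases hω : ω ∈ B
    · rw [ind_of_notMem (A := Bᶜ) (by simpa using hω), zero_mul, abs_zero]
      exact Nat.cast_nonneg k
    · rw [ind_of_mem (A := Bᶜ) (by simpa using hω), one_mul]
      exact not_lt.mp hω
  set g : HH μ := mulL μ (fun ω => ind Bᶜ ω * h ω) (oneH μ) with hg
  have hgae : (g : Ω → ℝ) =ᵐ[μ] fun ω => ind Bᶜ ω * h ω := by
    filter_upwards [mulL_ae hb (oneH μ), oneH_ae (μ := μ)] with ω h1 h2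
    rw [h1, h2, mul_one]
  set l' : s.E →L[ℝ] ℝ := l.comp (mulE s (ind Bᶜ)) - JL s g with hl'
  have hl'0 : ∀ A, MeasurableSet A → bl l' (ind A) = 0 := by
    intro A hA
    have h1 : bl l' (ind A) = l (mulE s (ind Bᶜ) (mulE s (ind A) (oneE s))) -
        inner ℝ g (WSys.toH (mulE s (ind A) (oneE s))) := rfl
    rw [h1, mulE_comp (ind_bm hBm.compl) (ind_bm hA)]
    have h2 : l (mulE s (fun ω => ind Bᶜ ω * ind A ω) (oneE s)) = bl l (ind (Bᶜ ∩ A)) := by
      unfold bl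
      congr 2
      congr 1
      funext ω
      by_cases h3 : ω ∈ Bᶜ <;> by_cases h4 : ω ∈ A
      · rw [ind_of_mem h3, ind_of_mem h4, ind_of_mem (A := Bᶜ ∩ A) ⟨h3, h4⟩, one_mul]
      · rw [ind_of_notMem h4, ind_of_notMem (A := Bᶜ ∩ A) (fun h => h4 h.2), mul_zero]
      · rw [ind_of_notMem h3, ind_of_notMem (A := Bᶜ ∩ A) (fun h => h3 h.1), zero_mul]
      · rw [ind_of_notMem h3, ind_of_notMem (A := Bᶜ ∩ A) (fun h => h3 h.1), zero_mul]
    rw [h2, hden _ (hBm.compl.inter hA), inner_eq, ← integral_indicator (hBm.compl.inter hA),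
      sub_eq_zero]
    apply integral_congr_ae
    filter_upwards [hgae, mulE_oneE_ae (s := s) (ind_bm hA)] with ω h5 h6
    rw [h5, h6]
    by_cases h3 : ω ∈ Bᶜ <;> by_cases h4 : ω ∈ A
    · rw [ind_of_mem h3, ind_of_mem h4, Set.indicator_of_mem (s := Bᶜ ∩ A) ⟨h3, h4⟩]
      ring
    · rw [ind_of_notMem h4, Set.indicator_of_notMem (s := Bᶜ ∩ A) (fun h => h4 h.2)]
      ring
    · rw [ind_of_notMem h3, Set.indicator_of_notMem (s := Bᶜ ∩ A) (fun h => h3 h.1)]
      ring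
    · rw [ind_of_notMem h3, Set.indicator_of_notMem (s := Bᶜ ∩ A) (fun h => h3 h.1)]
      ring
  refine ⟨g, fun x => ?_⟩
  have h1 := eq_zero_of_ind l' hl'0 x
  have h2 : l (mulE s (ind Bᶜ) x) = JL s g x := by
    have : l' x = l (mulE s (ind Bᶜ) x) - JL s g x := rfl
    rw [this] at h1
    linarith
  rw [← h2]
  have h3 : l x - l (mulE s (ind Bᶜ) x) = l (mulE s (ind B) x) := by
    conv_lhs => rw [← mulE_compl hBm x]
    rw [map_add]
    have h4 : mulE s (ind Bᶜ) (mulE s (ind B) x + mulE s (ind Bᶜ) x) = mulE s (ind Bᶜ) x := by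
      rw [mulE_compl hBm x]
    rw [h4]
    ring
  rw [h3]
  exact hoc B hBm hk x

/-- reflexivity -/
theorem E_reflexive : Function.Surjective (NormedSpace.inclusionInDoubleDual ℝ s.E) := by
  intro Λ
  -- the Hilbert space functional
  let J : HH μ →L[ℝ] StrongDual ℝ s.E :=
    ((ContinuousLinearMap.compL ℝ s.E (HH μ) ℝ).flip (toHL s)).comp (innerSL ℝ)
  have hJ : ∀ g x, J g x = inner ℝ g (WSys.toH x) := fun g x => rfl
  let T : StrongDual ℝ (HH μ) := Λ.comp J
  set x0 : HH μ := (InnerProductSpace.toDual ℝ (HH μ)).symm T with hx0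
  have hx0' : ∀ g, inner ℝ x0 g = Λ (J g) := by
    intro g
    rw [hx0, InnerProductSpace.toDual_symm_apply]
    rfl
  -- x0 belongs to the space
  have hmem : x0 ∈ s.sub := by
    refine ⟨‖Λ‖, fun w hw => ?_⟩
    have hbw := s.bw w hw
    have h1 : ‖mw μ w x0‖ ^ 2 = Λ (J (mulL μ w x0)) := by
      rw [← hx0', ← mw_mw hbw, ← real_inner_self_eq_norm_sq]
      unfold mw
      rw [mulL_selfadj hbw.sqrt]
    have h2 : ‖J (mulL μ w x0)‖ ≤ ‖mw μ w x0‖ := by
      apply ContinuousLinearMap.opNorm_le_bound _ (norm_nonneg _)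
      intro y
      rw [hJ, ← mw_mw hbw]
      have h3 : inner ℝ (mw μ w (mw μ w x0)) (WSys.toH y) =
          inner ℝ (mw μ w x0) (mw μ w (WSys.toH y)) := by
        unfold mw
        rw [mulL_selfadj hbw.sqrt]
      rw [h3]
      refine (norm_inner_le_norm _ _).trans ?_
      exact mul_le_mul_of_nonneg_left (mw_le_norm hw y) (norm_nonneg _)
    have h3 : ‖mw μ w x0‖ ^ 2 ≤ ‖Λ‖ * ‖mw μ w x0‖ := by
      rw [h1]
      refine (le_abs_self _).trans ((Λ.le_opNorm _).trans ?_)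
      exact mul_le_mul_of_nonneg_left h2 (norm_nonneg Λ)
    by_cases h0 : ‖mw μ w x0‖ = 0
    · rw [h0]; exact norm_nonneg Λ
    · have h4 : 0 < ‖mw μ w x0‖ := lt_of_le_of_ne (norm_nonneg _) (Ne.symm h0)
      rw [pow_two] at h3
      exact le_of_mul_le_mul_right h3 h4
  refine ⟨mkE s x0 hmem, ?_⟩
  ext l
  rw [NormedSpace.dual_def]
  set x : s.E := mkE s x0 hmem with hx
  -- approximation
  by_contra hne
  have hpos : 0 < |l x - Λ l| := abs_pos.mpr (sub_ne_zero.mpr hne)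
  set M := ‖x‖ + ‖Λ‖ + 1 with hM
  have hM0 : 0 < M := by positivity
  obtain ⟨g, hg⟩ := dense_JL l (|l x - Λ l| / (2 * M)) (by positivity)
  set ε := |l x - Λ l| / (2 * M) with hε
  have hε0 : 0 < ε := by positivity
  have h1 : ‖l - J g‖ ≤ ε := by
    apply ContinuousLinearMap.opNorm_le_bound _ hε0.le
    intro y
    exact hg y
  have h2 : |Λ l - Λ (J g)| ≤ ‖Λ‖ * ε := by
    rw [← map_sub]
    exact (Λ.le_opNorm (l - J g)).trans (mul_le_mul_of_nonneg_left h1 (norm_nonneg Λ))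
  have h3 : Λ (J g) = JL s g x := by
    rw [← hx0', JL_apply, real_inner_comm]
    rfl
  have h4 := hg x
  have h5 : |l x - Λ l| ≤ |l x - JL s g x| + |Λ l - Λ (J g)| := by
    rw [h3]
    have : l x - Λ l = (l x - JL s g x) - (Λ l - JL s g x) := by ring
    rw [this]
    exact abs_sub _ _
  have h6 : |l x - Λ l| ≤ ε * (‖x‖ + ‖Λ‖) := by linarith
  have h7 : ε * (2 * M) = |l x - Λ l| := by rw [hε]; field_simp
  nlinarith

end Run7.h921
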