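import Pool.Agent.Run7.h921.WSpace

/-!
Functionals on the space `E`: approximation by `L²` functionals.
-/

set_option autoImplicit false
set_option linter.unusedSectionVars false

open MeasureTheory Filter Topology

namespace Run7.h921

variable {Ω : Type} [MeasurableSpace Ω] {μ : Measure Ω} [IsProbabilityMeasure μ] {s : WSys μ}

/-- the constant function in `L²` -/
noncomputable def oneH (μ : Measure Ω) [IsProbabilityMeasure μ] : HH μ :=
  (memLp_const (1 : ℝ)).toLp (fun _ => (1 : ℝ))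

lemma oneH_ae : (oneH μ : Ω → ℝ) =ᵐ[μ] fun _ => (1 : ℝ) := MemLp.coeFn_toLp _

lemma oneH_mem : oneH μ ∈ s.sub := by
  refine ⟨√s.c1, fun w hw => ?_⟩
  apply Real.le_sqrt_of_sq_le
  rw [mw_norm_sq (s.bw w hw)]
  refine le_trans (le_of_eq ?_) (s.int_le w hw)
  apply integral_congr_ae
  filter_upwards [oneH_ae (μ := μ)] with ω h
  rw [h]
  ring

/-- the constant function in `E` -/
noncomputable def oneE (s : WSys μ) : s.E := mkE s (oneH μ) oneH_mem

lemma mulE_oneE_ae {b : Ω → ℝ} (hb : BM b) : WSys.toH (mulE s b (oneE s)) =ᵐ[μ] b := by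
  filter_upwards [mulE_ae hb (oneE s), oneH_ae (μ := μ)] with ω h1 h2
  rw [h1]
  unfold oneE
  rw [toH_mkE, h2, mul_one]

lemma ind_compl_add (A : Set Ω) : (fun ω => ind A ω + ind Aᶜ ω) = fun _ => 1 := by
  funext ω
  by_cases h : ω ∈ A
  · rw [ind_of_mem h, ind_of_notMem (by simpa using h), add_zero]
  · rw [ind_of_notMem h, ind_of_mem (by simpa using h), zero_add]

lemma mulE_compl {A : Set Ω} (hA : MeasurableSet A) (x : s.E) :
    mulE s (ind A) x + mulE s (ind Aᶜ) x = x := by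
  rw [← mulE_add_fun (ind_bm hA) (ind_bm hA.compl), ind_compl_add, mulE_one]

/-- the gliding hump -/
lemma hump (l : s.E →L[ℝ] ℝ) (ε : ℝ) (hε : 0 < ε)
    (hcon : ∀ δ, 0 < δ → ∃ A, MeasurableSet A ∧ μ.real A ≤ δ ∧
      ∃ x, ε * ‖x‖ < |l (mulE s (ind A) x)|) (N : ℕ) :
    ∀ δ, 0 < δ → ∃ (D : Set Ω) (v : s.E), MeasurableSet D ∧ μ.real D ≤ δ ∧
      mulE s (ind D) v = v ∧ ‖v‖ ^ 2 ≤ N ∧ N * (ε / 2) ≤ l v := by
  induction N with
  | zero =>
    intro δ hδ
    refine ⟨∅, 0, MeasurableSet.empty, ?_, map_zero _, ?_, ?_⟩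
    · rw [measureReal_empty]; exact hδ.le
    · simp
    · simp
  | succ N ih =>
    intro δ hδ
    obtain ⟨A, hA, hμA, x, hx⟩ := hcon (δ / 2) (by linarith)
    have hx0 : 0 < ‖x‖ := by
      rw [norm_pos_iff]
      rintro rfl
      rw [map_zero, map_zero, abs_zero, norm_zero, mul_zero] at hx
      exact lt_irrefl _ hx
    set y : s.E := mulE s (ind A) ((1 / ‖x‖) • x) with hy
    have hyε : ε < |l y| := by
      rw [hy, map_smul, map_smul, smul_eq_mul, abs_mul, abs_of_pos (by positivity)]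
      rw [one_div, ← div_eq_inv_mul, lt_div_iff₀ hx0]
      exact hx
    have hy1 : ‖y‖ ≤ 1 := by
      refine (mulE_ind_norm_le hA _).trans ?_
      rw [norm_smul, norm_div, norm_one, norm_norm]
      rw [one_div, inv_mul_cancel₀ hx0.ne']
    obtain ⟨δ', hδ', hoc⟩ := E_oc y (ε / (2 * (‖l‖ + 1))) (by positivity)
    obtain ⟨D, v, hD, hμD, hDv, hvN, hlv⟩ := ih (min δ' (δ / 2)) (lt_min hδ' (by linarith))
    set y' : s.E := mulE s (ind Dᶜ) y with hy'
    have hy'1 : ‖y'‖ ≤ 1 := (mulE_ind_norm_le hD.compl _).trans hy1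
    have hly : |l (mulE s (ind D) y)| ≤ ε / 2 := by
      have h1 := hoc D hD (hμD.trans (min_le_left _ _))
      have h2 : |l (mulE s (ind D) y)| ≤ ‖l‖ * ‖mulE s (ind D) y‖ := l.le_opNorm _
      refine h2.trans ?_
      have h3 : ‖l‖ * ‖mulE s (ind D) y‖ ≤ (‖l‖ + 1) * (ε / (2 * (‖l‖ + 1))) :=
        mul_le_mul (by linarith) h1 (norm_nonneg _) (by positivity)
      have h4 : (‖l‖ + 1) * (ε / (2 * (‖l‖ + 1))) = ε / 2 := by field_simp
      linarith
    have hly' : ε / 2 ≤ |l y'| := by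
      have h1 : l y = l (mulE s (ind D) y) + l y' := by
        rw [← map_add, hy', mulE_compl hD]
      have h2 : |l y| ≤ |l (mulE s (ind D) y)| + |l y'| := by rw [h1]; exact abs_add_le _ _
      linarith
    obtain ⟨σ, hσ, hσl⟩ : ∃ σ : ℝ, |σ| = 1 ∧ σ * l y' = |l y'| := by
      rcases le_total 0 (l y') with h | h
      · exact ⟨1, abs_one, by rw [one_mul, abs_of_nonneg h]⟩
      · exact ⟨-1, by rw [abs_neg, abs_one], by rw [abs_of_nonpos h]; ring⟩
    -- disjointness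
    have hdisj : ∀ᵐ ω ∂μ, WSys.toH v ω * WSys.toH (σ • y') ω = 0 := by
      have e1 := mulE_ae (ind_bm hD) v
      rw [hDv] at e1
      filter_upwards [e1, Lp.coeFn_smul σ (WSys.toH y'), mulE_ae (ind_bm hD.compl) y]
        with ω h1 h2 h3
      rw [toH_smul, h2, h1, Pi.smul_apply, h3, smul_eq_mul]
      by_cases hω : ω ∈ D
      · rw [ind_of_notMem (A := Dᶜ) (by simpa using hω)]
        ring
      · rw [ind_of_notMem hω]
        ring
    refine ⟨D ∪ A, v + σ • y', hD.union hA, ?_, ?_, ?_, ?_⟩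
    · refine (measureReal_union_le D A).trans ?_
      have := hμD.trans (min_le_right _ _)
      linarith
    · apply toH_inj
      apply Lp.ext
      have e1 := mulE_ae (ind_bm hD) v
      rw [hDv] at e1
      filter_upwards [mulE_ae (ind_bm (hD.union hA)) (v + σ • y'), e1,
        Lp.coeFn_add (WSys.toH v) (WSys.toH (σ • y')),
        Lp.coeFn_smul σ (WSys.toH y'), mulE_ae (ind_bm hD.compl) y,
        mulE_ae (ind_bm hA) ((1 / ‖x‖) • x)]
        with ω h1 h2 h3 h4 h5 h6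
      rw [h1, toH_add, h3, Pi.add_apply, toH_smul, h4, Pi.smul_apply, smul_eq_mul]
      by_cases hω : ω ∈ D ∪ A
      · rw [ind_of_mem hω, one_mul]
      · have hωD : ω ∉ D := fun h => hω (Or.inl h)
        have hωA : ω ∉ A := fun h => hω (Or.inr h)
        rw [h2, h5, h6, ind_of_notMem hωD, ind_of_notMem hωA]
        ring
    · have h1 := E_add_sq_le hdisj
      have h2 : ‖σ • y'‖ ^ 2 ≤ 1 := by
        rw [norm_smul, Real.norm_eq_abs, hσ, one_mul]
        exact pow_le_one₀ (norm_nonneg _) hy'1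
      push_cast
      linarith
    · rw [map_add, map_smul, smul_eq_mul, hσl]
      push_cast
      linarith

/-- functionals are order continuous, uniformly on the ball -/
lemma claimA (l : s.E →L[ℝ] ℝ) (ε : ℝ) (hε : 0 < ε) :
    ∃ δ, 0 < δ ∧ ∀ A, MeasurableSet A → μ.real A ≤ δ → ∀ x, |l (mulE s (ind A) x)| ≤ ε * ‖x‖ := by
  by_contra hcon
  push Not at hcon
  have h := hump l ε hε (by
    intro δ hδ
    obtain ⟨A, hA, hμ, x, hx⟩ := hcon δ hδ
    exact ⟨A, hA, hμ, x, hx⟩)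
  obtain ⟨N, hN⟩ := exists_nat_gt (4 * ‖l‖ ^ 2 / ε ^ 2)
  have hN0 : (0 : ℝ) < N := lt_of_le_of_lt (by positivity) hN
  obtain ⟨D, v, _, _, _, hvN, hlv⟩ := h N 1 one_pos
  have h1 : l v ≤ ‖l‖ * ‖v‖ := (le_abs_self _).trans (l.le_opNorm v)
  have h2 : (N * (ε / 2)) ^ 2 ≤ (‖l‖ * ‖v‖) ^ 2 :=
    pow_le_pow_left₀ (by positivity) (hlv.trans h1) 2
  have h3 : (‖l‖ * ‖v‖) ^ 2 ≤ ‖l‖ ^ 2 * N := by
    rw [mul_pow]
    exact mul_le_mul_of_nonneg_left hvN (by positivity)
  rw [div_lt_iff₀ (by positivity)] at hN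
  have h4 : (N * (ε / 2)) ^ 2 = N * (N * ε ^ 2) / 4 := by ring
  have h5 : (N : ℝ) * (N * ε ^ 2) ≤ N * (4 * ‖l‖ ^ 2) := by nlinarith
  have h6 : (N : ℝ) * ε ^ 2 ≤ 4 * ‖l‖ ^ 2 := le_of_mul_le_mul_left h5 hN0
  linarith

/-- bounded measurable functions, tested against `l` -/
noncomputable def bl (l : s.E →L[ℝ] ℝ) (b : Ω → ℝ) : ℝ := l (mulE s b (oneE s))

lemma bl_add (l : s.E →L[ℝ] ℝ) {b b' : Ω → ℝ} (hb : BM b) (hb' : BM b') :
    bl l (fun ω => b ω + b' ω) = bl l b + bl l b' := by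
  unfold bl
  rw [mulE_add_fun hb hb', map_add]

lemma bl_smul (l : s.E →L[ℝ] ℝ) (c : ℝ) {b : Ω → ℝ} (hb : BM b) :
    bl l (fun ω => c * b ω) = c * bl l b := by
  unfold bl
  rw [← smul_eq_mul, ← map_smul]
  congr 1
  apply toH_inj
  apply Lp.ext
  rw [toH_smul]
  filter_upwards [mulE_oneE_ae (s := s) ((BM.const c).mul hb), mulE_oneE_ae (s := s) hb,
    Lp.coeFn_smul c (WSys.toH (mulE s b (oneE s)))] with ω h1 h2 h3
  rw [h1, h3, Pi.smul_apply, h2, smul_eq_mul]

lemma bl_congr (l : s.E →L[ℝ] ℝ) {b b' : Ω → ℝ} (hb : BM b) (hb' : BM b') (h : b =ᵐ[μ] b') :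
    bl l b = bl l b' := by
  unfold bl
  congr 1
  apply toH_inj
  apply Lp.ext
  filter_upwards [mulE_oneE_ae (s := s) hb, mulE_oneE_ae (s := s) hb', h] with ω h1 h2 h3
  rw [h1, h2, h3]

lemma bl_zero (l : s.E →L[ℝ] ℝ) : bl l (fun _ => 0) = 0 := by
  have := bl_smul l 0 (BM.const (Ω := Ω) 0)
  simpa using this

lemma bl_ind_empty (l : s.E →L[ℝ] ℝ) : bl l (ind ∅) = 0 := by
  have : (ind ∅ : Ω → ℝ) = fun _ => 0 := by
    funext ω; simp [ind]
  rw [this, bl_zero]

lemma bl_ind_union (l : s.E →L[ℝ] ℝ) {A B : Set Ω} (hA : MeasurableSet A) (hB : MeasurableSet B)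
    (h : Disjoint A B) : bl l (ind (A ∪ B)) = bl l (ind A) + bl l (ind B) := by
  rw [← bl_add l (ind_bm hA) (ind_bm hB)]
  congr 1
  funext ω
  by_cases hωA : ω ∈ A
  · have hωB : ω ∉ B := Set.disjoint_left.mp h hωA
    rw [ind_of_mem hωA, ind_of_notMem hωB, ind_of_mem (A := A ∪ B) (Or.inl hωA), add_zero]
  · by_cases hωB : ω ∈ B
    · rw [ind_of_notMem hωA, ind_of_mem hωB, ind_of_mem (A := A ∪ B) (Or.inr hωB), zero_add]
    · rw [ind_of_notMem hωA, ind_of_notMem hωB, ind_of_notMem (by simp [hωA, hωB]), zero_add]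

lemma bl_ind_biUnion (l : s.E →L[ℝ] ℝ) {f : ℕ → Set Ω} (hf : ∀ i, MeasurableSet (f i))
    (hd : Pairwise (Function.onFun Disjoint f)) (t : Finset ℕ) :
    bl l (ind (⋃ i ∈ t, f i)) = ∑ i ∈ t, bl l (ind (f i)) := by
  classical
  induction t using Finset.induction_on with
  | empty => simp [bl_ind_empty]
  | insert a t ha ih =>
    rw [Finset.sum_insert ha, ← ih, Finset.set_biUnion_insert]
    apply bl_ind_union l (hf a) (t.measurableSet_biUnion (fun i _ => hf i))
    rw [Set.disjoint_iUnion₂_right]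
    intro i hi
    exact hd (fun h => ha (h ▸ hi))

open Classical in
/-- the signed measure attached to a functional -/
noncomputable def smeas (l : s.E →L[ℝ] ℝ) : SignedMeasure Ω where
  measureOf' A := if MeasurableSet A then bl l (ind A) else 0
  empty' := by rw [if_pos MeasurableSet.empty, bl_ind_empty]
  not_measurable' A hA := if_neg hA
  m_iUnion' f hf hd := by
    simp only [hf, if_true, MeasurableSet.iUnion hf]
    unfold HasSum
    rw [Metric.tendsto_nhds]
    intro ε hε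
    obtain ⟨δ, hδ, hA⟩ := claimA l (ε / (2 * (‖oneE s‖ + 1))) (by positivity)
    have htop : ∑' i, μ (f i) ≠ ⊤ := by
      rw [← measure_iUnion hd hf]
      exact measure_ne_top _ _
    have h1 := ENNReal.tendsto_tsum_compl_atTop_zero htop
    have h2 : ∀ᶠ t : Finset ℕ in atTop, (∑' i : {i // i ∉ t}, μ (f i)) < ENNReal.ofReal δ :=
      h1.eventually (gt_mem_nhds (ENNReal.ofReal_pos.mpr hδ))
    simp only [SummationFilter.unconditional_filter]
    filter_upwards [h2] with t ht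
    set R : Set Ω := ⋃ i : {i // i ∉ t}, f i with hR
    have hRm : MeasurableSet R := MeasurableSet.iUnion (fun i => hf i)
    have hμR : μ R ≤ ENNReal.ofReal δ := (measure_iUnion_le _).trans ht.le
    have hμR' : μ.real R ≤ δ := ENNReal.toReal_le_of_le_ofReal hδ.le hμR
    have hU : (⋃ i, f i) = (⋃ i ∈ t, f i) ∪ R := by
      ext ω
      simp only [Set.mem_iUnion, Set.mem_union, hR]
      constructor
      · rintro ⟨i, hi⟩
        by_cases hit : i ∈ t
        · exact Or.inl ⟨i, hit, hi⟩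
        · exact Or.inr ⟨⟨i, hit⟩, hi⟩
      · rintro (⟨i, _, hi⟩ | ⟨i, hi⟩)
        · exact ⟨i, hi⟩
        · exact ⟨i, hi⟩
    have hdis : Disjoint (⋃ i ∈ t, f i) R := by
      rw [Set.disjoint_iUnion₂_left]
      intro i hi
      rw [hR, Set.disjoint_iUnion_right]
      rintro ⟨j, hj⟩
      have hij : i ≠ j := fun h => hj (h ▸ hi)
      exact hd hij
    rw [hU, bl_ind_union l (t.measurableSet_biUnion (fun i _ => hf i)) hRm hdis,
      bl_ind_biUnion l hf hd, Real.dist_eq]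
    have h3 : |∑ i ∈ t, bl l (ind (f i)) - (∑ i ∈ t, bl l (ind (f i)) + bl l (ind R))| =
        |bl l (ind R)| := by
      rw [sub_add_cancel_left, abs_neg]
    rw [h3]
    have h4 := hA R hRm hμR' (oneE s)
    refine lt_of_le_of_lt h4 ?_
    have h5 : ε / (2 * (‖oneE s‖ + 1)) * ‖oneE s‖ ≤ ε / (2 * (‖oneE s‖ + 1)) * (‖oneE s‖ + 1) :=
      mul_le_mul_of_nonneg_left (by linarith) (by positivity)
    have h6 : ε / (2 * (‖oneE s‖ + 1)) * (‖oneE s‖ + 1) = ε / 2 := by field_simp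
    linarith

lemma smeas_apply (l : s.E →L[ℝ] ℝ) {A : Set Ω} (hA : MeasurableSet A) :
    smeas l A = bl l (ind A) := by
  classical
  show (if MeasurableSet A then bl l (ind A) else 0) = _
  rw [if_pos hA]

/-- Radon-Nikodym density -/
lemma exists_density (l : s.E →L[ℝ] ℝ) : ∃ h : Ω → ℝ, Measurable h ∧ Integrable h μ ∧
    ∀ A, MeasurableSet A → bl l (ind A) = ∫ ω in A, h ω ∂μ := by
  refine ⟨(smeas l).rnDeriv μ, SignedMeasure.measurable_rnDeriv _ _,
    SignedMeasure.integrable_rnDeriv _ _, fun A hA => ?_⟩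
  have habs : smeas l ≪ᵥ μ.toENNRealVectorMeasure := by
    apply VectorMeasure.AbsolutelyContinuous.mk
    intro A hA h0
    rw [Measure.toENNRealVectorMeasure_apply_measurable hA] at h0
    rw [smeas_apply l hA, ← bl_zero l]
    apply bl_congr l (ind_bm hA) (BM.const 0)
    have : ∀ᵐ ω ∂μ, ω ∉ A := measure_eq_zero_iff_ae_notMem.mp h0
    filter_upwards [this] with ω hω
    exact ind_of_notMem hω
  have h1 := SignedMeasure.withDensityᵥ_rnDeriv_eq (smeas l) μ habs
  rw [← smeas_apply l hA]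
  conv_lhs => rw [← h1]
  rw [withDensityᵥ_apply (SignedMeasure.integrable_rnDeriv _ _) hA]

end Run7.h921
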