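import Pool.Agent.Run7.h921.MulOp

/-!
The Banach lattice determined by a system of weights.
-/

set_option autoImplicit false
set_option linter.unusedSectionVars false

open MeasureTheory Filter Topology

namespace Run7.h921

/-- a system of weights -/
structure WSys {Ω : Type} [MeasurableSpace Ω] (μ : Measure Ω) where
  W : Set (Ω → ℝ)
  bw : ∀ w ∈ W, BW w
  one_mem : (fun _ => (1 : ℝ)) ∈ W
  c1 : ℝ
  int_le : ∀ w ∈ W, ∫ ω, w ω ∂μ ≤ c1
  oc : ∀ x : HH μ, (∃ c, ∀ w ∈ W, ‖mw μ w x‖ ≤ c) → ∀ ε, 0 < ε → ∃ δ, 0 < δ ∧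
    ∀ A, MeasurableSet A → μ.real A ≤ δ → ∀ w ∈ W, ∫ ω in A, w ω * (x ω) ^ 2 ∂μ ≤ ε

variable {Ω : Type} [MeasurableSpace Ω] {μ : Measure Ω}

/-- the underlying subspace of `L²` -/
def WSys.sub (s : WSys μ) : Submodule ℝ (HH μ) where
  carrier := {x | ∃ c, ∀ w ∈ s.W, ‖mw μ w x‖ ≤ c}
  add_mem' := by
    rintro x y ⟨c, hc⟩ ⟨d, hd⟩
    refine ⟨c + d, fun w hw => ?_⟩
    rw [map_add]
    exact (norm_add_le _ _).trans (add_le_add (hc w hw) (hd w hw))
  zero_mem' := ⟨0, fun w _ => by rw [map_zero, norm_zero]⟩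
  smul_mem' := by
    rintro a x ⟨c, hc⟩
    refine ⟨‖a‖ * c, fun w hw => ?_⟩
    rw [map_smul, norm_smul]
    exact mul_le_mul_of_nonneg_left (hc w hw) (norm_nonneg _)

lemma WSys.mem_sub {s : WSys μ} {x : HH μ} : x ∈ s.sub ↔ ∃ c, ∀ w ∈ s.W, ‖mw μ w x‖ ≤ c := Iff.rfl

lemma WSys.solid_mem {s : WSys μ} {x y : HH μ} (hy : y ∈ s.sub) (h : ∀ᵐ ω ∂μ, |x ω| ≤ |y ω|) :
    x ∈ s.sub := by
  obtain ⟨c, hc⟩ := hy
  exact ⟨c, fun w hw => (mw_solid (s.bw w hw) h).trans (hc w hw)⟩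

lemma HH.abs_ae (x : HH μ) : ∀ᵐ ω ∂μ, (|x| : HH μ) ω = |x ω| := Lp.coeFn_abs x

lemma WSys.abs_mem {s : WSys μ} {x : HH μ} (hx : x ∈ s.sub) : |x| ∈ s.sub := by
  refine WSys.solid_mem hx ?_
  filter_upwards [HH.abs_ae x] with ω h
  rw [h, abs_abs]

lemma WSys.sup_mem {s : WSys μ} {x y : HH μ} (hx : x ∈ s.sub) (hy : y ∈ s.sub) :
    x ⊔ y ∈ s.sub := by
  refine WSys.solid_mem (s.sub.add_mem (WSys.abs_mem hx) (WSys.abs_mem hy)) ?_
  filter_upwards [Lp.coeFn_sup x y, Lp.coeFn_add |x| |y|, HH.abs_ae x, HH.abs_ae y]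
    with ω h1 h2 h3 h4
  rw [h1, h2, Pi.add_apply, h3, h4, Pi.sup_apply]
  rw [abs_of_nonneg (a := |x ω| + |y ω|) (add_nonneg (abs_nonneg _) (abs_nonneg _))]
  rcases le_total (x ω) (y ω) with h | h
  · rw [sup_eq_right.mpr h]
    linarith [abs_nonneg (x ω)]
  · rw [sup_eq_left.mpr h]
    linarith [abs_nonneg (y ω)]

lemma WSys.inf_mem {s : WSys μ} {x y : HH μ} (hx : x ∈ s.sub) (hy : y ∈ s.sub) :
    x ⊓ y ∈ s.sub := by
  refine WSys.solid_mem (s.sub.add_mem (WSys.abs_mem hx) (WSys.abs_mem hy)) ?_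
  filter_upwards [Lp.coeFn_inf x y, Lp.coeFn_add |x| |y|, HH.abs_ae x, HH.abs_ae y]
    with ω h1 h2 h3 h4
  rw [h1, h2, Pi.add_apply, h3, h4, Pi.inf_apply]
  rw [abs_of_nonneg (a := |x ω| + |y ω|) (add_nonneg (abs_nonneg _) (abs_nonneg _))]
  rcases le_total (x ω) (y ω) with h | h
  · rw [inf_eq_left.mpr h]
    linarith [abs_nonneg (y ω)]
  · rw [inf_eq_right.mpr h]
    linarith [abs_nonneg (x ω)]

/-- the space -/
def WSys.E (s : WSys μ) : Type := s.sub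

variable {s : WSys μ}

noncomputable instance : AddCommGroup s.E := inferInstanceAs (AddCommGroup s.sub)
noncomputable instance : Module ℝ s.E := inferInstanceAs (Module ℝ s.sub)
noncomputable instance : Lattice s.E :=
  Subtype.lattice (P := fun x : HH μ => x ∈ s.sub) (fun _ _ hx hy => WSys.sup_mem hx hy)
    (fun _ _ hx hy => WSys.inf_mem hx hy)

/-- the inclusion in `L²` -/
def WSys.toH (x : s.E) : HH μ := Subtype.val x

/-- elements of `E` from elements of `L²` -/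
def mkE (s : WSys μ) (x : HH μ) (hx : x ∈ s.sub) : s.E := ⟨x, hx⟩

@[simp] lemma toH_mkE (x : HH μ) (hx : x ∈ s.sub) : WSys.toH (mkE s x hx) = x := rfl

lemma toH_inj {x y : s.E} (h : WSys.toH x = WSys.toH y) : x = y := Subtype.ext h

@[simp] lemma toH_add (x y : s.E) : WSys.toH (x + y) = WSys.toH x + WSys.toH y := rfl
@[simp] lemma toH_sub (x y : s.E) : WSys.toH (x - y) = WSys.toH x - WSys.toH y := rfl
@[simp] lemma toH_neg (x : s.E) : WSys.toH (-x) = -WSys.toH x := rfl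
@[simp] lemma toH_zero : WSys.toH (0 : s.E) = 0 := rfl
@[simp] lemma toH_smul (a : ℝ) (x : s.E) : WSys.toH (a • x) = a • WSys.toH x := rfl
lemma toH_sup (x y : s.E) : WSys.toH (x ⊔ y) = WSys.toH x ⊔ WSys.toH y := rfl
lemma toH_inf (x y : s.E) : WSys.toH (x ⊓ y) = WSys.toH x ⊓ WSys.toH y := rfl
lemma toH_abs (x : s.E) : WSys.toH |x| = |WSys.toH x| := rfl
lemma toH_le {x y : s.E} : x ≤ y ↔ WSys.toH x ≤ WSys.toH y := Iff.rfl
lemma toH_mem (x : s.E) : WSys.toH x ∈ s.sub := Subtype.prop x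

noncomputable instance : Norm s.E := ⟨fun x => ⨆ w : s.W, ‖mw μ w.1 (WSys.toH x)‖⟩

instance : Nonempty s.W := ⟨⟨_, s.one_mem⟩⟩

lemma E_norm_def (x : s.E) : ‖x‖ = ⨆ w : s.W, ‖mw μ w.1 (WSys.toH x)‖ := rfl

lemma E_bdd (x : s.E) : BddAbove (Set.range (fun w : s.W => ‖mw μ w.1 (WSys.toH x)‖)) := by
  obtain ⟨c, hc⟩ := toH_mem x
  exact ⟨c, by rintro _ ⟨w, rfl⟩; exact hc w.1 w.2⟩

lemma mw_le_norm {w : Ω → ℝ} (hw : w ∈ s.W) (x : s.E) : ‖mw μ w (WSys.toH x)‖ ≤ ‖x‖ :=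
  le_ciSup (E_bdd x) (⟨w, hw⟩ : s.W)

lemma E_norm_le {x : s.E} {c : ℝ} (h : ∀ w ∈ s.W, ‖mw μ w (WSys.toH x)‖ ≤ c) : ‖x‖ ≤ c :=
  ciSup_le (fun w => h w.1 w.2)

lemma E_norm_nonneg' (x : s.E) : 0 ≤ ‖x‖ :=
  (norm_nonneg _).trans (mw_le_norm s.one_mem x)

lemma mw_one (x : HH μ) : mw μ (fun _ => 1) x = x := by
  unfold mw
  have : (fun ω : Ω => √((fun _ : Ω => (1 : ℝ)) ω)) = fun _ => 1 := by
    funext ω; exact Real.sqrt_one
  rw [this]
  exact mulL_one x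

lemma toH_norm_le (x : s.E) : ‖WSys.toH x‖ ≤ ‖x‖ := by
  have := mw_le_norm s.one_mem x
  rwa [mw_one] at this

lemma E_core : NormedSpace.Core ℝ s.E where
  norm_nonneg x := E_norm_nonneg' x
  norm_smul c x := by
    apply le_antisymm
    · refine E_norm_le (fun w hw => ?_)
      rw [toH_smul, map_smul, norm_smul]
      exact mul_le_mul_of_nonneg_left (mw_le_norm hw x) (norm_nonneg _)
    · by_cases hc : c = 0
      · subst hc
        rw [norm_zero, zero_mul]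
        exact E_norm_nonneg' _
      · have hc' : 0 < ‖c‖ := norm_pos_iff.mpr hc
        rw [← le_div_iff₀' hc']
        refine E_norm_le (fun w hw => ?_)
        rw [le_div_iff₀' hc', ← norm_smul, ← map_smul, ← toH_smul]
        exact mw_le_norm hw _
  norm_triangle x y := by
    refine E_norm_le (fun w hw => ?_)
    rw [toH_add, map_add]
    exact (norm_add_le _ _).trans (add_le_add (mw_le_norm hw x) (mw_le_norm hw y))
  norm_eq_zero_iff x := by
    constructor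
    · intro h
      have := toH_norm_le x
      rw [h] at this
      apply toH_inj
      rw [toH_zero]
      exact norm_le_zero_iff.mp this
    · rintro rfl
      apply le_antisymm
      · refine E_norm_le (fun w hw => ?_)
        rw [toH_zero, map_zero, norm_zero]
      · exact E_norm_nonneg' _

noncomputable instance : NormedAddCommGroup s.E := NormedAddCommGroup.ofCore (𝕜 := ℝ) E_core

noncomputable instance : NormedSpace ℝ s.E := NormedSpace.ofCore E_core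

instance : IsOrderedAddMonoid s.E where
  add_le_add_left a b h c := by
    rw [toH_le, toH_add, toH_add]
    exact add_le_add_left (toH_le.mp h) _

lemma E_norm_solid {x y : s.E} (h : ∀ᵐ ω ∂μ, |WSys.toH x ω| ≤ |WSys.toH y ω|) : ‖x‖ ≤ ‖y‖ :=
  E_norm_le (fun w hw => (mw_solid (s.bw w hw) h).trans (mw_le_norm hw y))

instance : HasSolidNorm s.E where
  solid x y h := by
    apply E_norm_solid
    rw [toH_le, toH_abs, toH_abs, ← Lp.coeFn_le] at h
    filter_upwards [h, HH.abs_ae (WSys.toH x), HH.abs_ae (WSys.toH y)] with ω h1 h2 h3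
    rwa [h2, h3] at h1

instance : PosSMulMono ℝ s.E where
  smul_le_smul_of_nonneg_left a ha x y h := by
    rw [toH_le, toH_smul, toH_smul, ← Lp.coeFn_le]
    rw [toH_le, ← Lp.coeFn_le] at h
    filter_upwards [h, Lp.coeFn_smul a (WSys.toH x), Lp.coeFn_smul a (WSys.toH y)] with ω h1 h2 h3
    rw [h2, h3, Pi.smul_apply, Pi.smul_apply]
    exact smul_le_smul_of_nonneg_left h1 ha

/-- inclusion as a continuous linear map -/
noncomputable def toHL (s : WSys μ) : s.E →L[ℝ] HH μ :=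
  LinearMap.mkContinuous
    { toFun := WSys.toH
      map_add' := fun x y => toH_add x y
      map_smul' := fun a x => toH_smul a x } 1 (fun x => by
      rw [one_mul]
      exact toH_norm_le x)

@[simp] lemma toHL_apply (x : s.E) : toHL s x = WSys.toH x := rfl

instance : CompleteSpace s.E := by
  apply Metric.complete_of_cauchySeq_tendsto
  intro u hu
  have hu2 : CauchySeq (fun n => toHL s (u n)) := (toHL s).uniformContinuous.comp_cauchySeq hu
  obtain ⟨x, hx⟩ := cauchySeq_tendsto_of_complete hu2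
  -- key estimate
  have key : ∀ ε > 0, ∃ N, ∀ n ≥ N, ∀ w ∈ s.W, ‖mw μ w (WSys.toH (u n) - x)‖ ≤ ε := by
    intro ε hε
    obtain ⟨N, hN⟩ := Metric.cauchySeq_iff.mp hu ε hε
    refine ⟨N, fun n hn w hw => ?_⟩
    have h1 : Tendsto (fun m => ‖mw μ w (WSys.toH (u n) - WSys.toH (u m))‖) atTop
        (𝓝 ‖mw μ w (WSys.toH (u n) - x)‖) := by
      have h2 : Tendsto (fun m => WSys.toH (u n) - WSys.toH (u m)) atTop
          (𝓝 (WSys.toH (u n) - x)) := tendsto_const_nhds.sub hx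
      exact (((mw μ w).continuous.tendsto _).comp h2).norm
    refine le_of_tendsto h1 (eventually_atTop.mpr ⟨N, fun m hm => ?_⟩)
    rw [← toH_sub]
    refine (mw_le_norm hw _).trans ?_
    rw [← dist_eq_norm]
    exact (hN n hn m hm).le
  have hxmem : x ∈ s.sub := by
    obtain ⟨N, hN⟩ := key 1 one_pos
    have h1 : WSys.toH (u N) - x ∈ s.sub := ⟨1, fun w hw => hN N le_rfl w hw⟩
    have h2 := s.sub.sub_mem (toH_mem (u N)) h1
    rwa [sub_sub_cancel] at h2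
  refine ⟨mkE s x hxmem, ?_⟩
  rw [Metric.tendsto_atTop]
  intro ε hε
  obtain ⟨N, hN⟩ := key (ε / 2) (by linarith)
  refine ⟨N, fun n hn => ?_⟩
  rw [dist_eq_norm]
  refine lt_of_le_of_lt (E_norm_le (c := ε / 2) (fun w hw => ?_)) (by linarith)
  exact hN n hn w hw

lemma mw_mulL_le {w b : Ω → ℝ} (hw : BW w) (hb : BM b) {c : ℝ} (hc : ∀ ω, |b ω| ≤ c) (x : HH μ) :
    ‖mw μ w (mulL μ b x)‖ ≤ c * ‖mw μ w x‖ := by
  rw [mw_mulL hw hb]
  exact mulL_norm_le hb hc _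

lemma mulL_mem {b : Ω → ℝ} (hb : BM b) {x : HH μ} (hx : x ∈ s.sub) : mulL μ b x ∈ s.sub := by
  obtain ⟨c, hc⟩ := hb.2
  obtain ⟨d, hd⟩ := hx
  refine ⟨|c| * d, fun w hw => ?_⟩
  refine (mw_mulL_le (s.bw w hw) hb (fun ω => (hc ω).trans (le_abs_self c)) x).trans ?_
  exact mul_le_mul_of_nonneg_left (hd w hw) (abs_nonneg _)

lemma mkE_mulL_norm_le {b : Ω → ℝ} (hb : BM b) {c : ℝ} (hc0 : 0 ≤ c) (hc : ∀ ω, |b ω| ≤ c)
    (x : s.E) : ‖mkE s (mulL μ b (WSys.toH x)) (mulL_mem hb (toH_mem x))‖ ≤ c * ‖x‖ := by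
  refine E_norm_le (fun w hw => ?_)
  rw [toH_mkE]
  refine (mw_mulL_le (s.bw w hw) hb hc _).trans ?_
  exact mul_le_mul_of_nonneg_left (mw_le_norm hw x) hc0

open Classical in
/-- multiplication by bounded functions on `E` -/
noncomputable def mulE (s : WSys μ) (b : Ω → ℝ) : s.E →L[ℝ] s.E :=
  if hb : BM b then
    LinearMap.mkContinuous
      { toFun := fun x => mkE s (mulL μ b (WSys.toH x)) (mulL_mem hb (toH_mem x))
        map_add' := fun x y => toH_inj (by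
          simp only [toH_mkE, toH_add, map_add])
        map_smul' := fun a x => toH_inj (by
          simp only [RingHom.id_apply, toH_mkE, toH_smul, map_smul]) }
      |Classical.choose hb.2| (fun x => mkE_mulL_norm_le hb (abs_nonneg _)
        (fun ω => (Classical.choose_spec hb.2 ω).trans (le_abs_self _)) x)
  else 0

lemma toH_mulE {b : Ω → ℝ} (hb : BM b) (x : s.E) :
    WSys.toH (mulE s b x) = mulL μ b (WSys.toH x) := by
  unfold mulE
  rw [dif_pos hb]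
  rfl

lemma mulE_norm_le {b : Ω → ℝ} (hb : BM b) {c : ℝ} (hc0 : 0 ≤ c) (hc : ∀ ω, |b ω| ≤ c)
    (x : s.E) : ‖mulE s b x‖ ≤ c * ‖x‖ := by
  have h : mulE s b x = mkE s (mulL μ b (WSys.toH x)) (mulL_mem hb (toH_mem x)) :=
    toH_inj (by rw [toH_mulE hb, toH_mkE])
  rw [h]
  exact mkE_mulL_norm_le hb hc0 hc x

lemma mulE_ae {b : Ω → ℝ} (hb : BM b) (x : s.E) :
    WSys.toH (mulE s b x) =ᵐ[μ] fun ω => b ω * WSys.toH x ω := by
  rw [toH_mulE hb]
  exact mulL_ae hb _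

lemma mulE_comp {b b' : Ω → ℝ} (hb : BM b) (hb' : BM b') (x : s.E) :
    mulE s b (mulE s b' x) = mulE s (fun ω => b ω * b' ω) x := by
  apply toH_inj
  rw [toH_mulE hb, toH_mulE hb', toH_mulE (hb.mul hb'), mulL_comp hb hb']

lemma mulE_add_fun {b b' : Ω → ℝ} (hb : BM b) (hb' : BM b') (x : s.E) :
    mulE s (fun ω => b ω + b' ω) x = mulE s b x + mulE s b' x := by
  apply toH_inj
  rw [toH_add, toH_mulE hb, toH_mulE hb', toH_mulE (hb.add hb'), mulL_add_fun hb hb']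

lemma mulE_one (x : s.E) : mulE s (fun _ => 1) x = x := by
  apply toH_inj
  rw [toH_mulE (BM.const 1), mulL_one]

/-- upper 2-estimate for disjoint elements -/
lemma E_add_sq_le {x y : s.E} (h : ∀ᵐ ω ∂μ, WSys.toH x ω * WSys.toH y ω = 0) :
    ‖x + y‖ ^ 2 ≤ ‖x‖ ^ 2 + ‖y‖ ^ 2 := by
  have h0 : 0 ≤ ‖x‖ ^ 2 + ‖y‖ ^ 2 := by positivity
  have : ‖x + y‖ ≤ √(‖x‖ ^ 2 + ‖y‖ ^ 2) := by
    refine E_norm_le (fun w hw => ?_)
    apply Real.le_sqrt_of_sq_le
    rw [toH_add, mw_add_sq (s.bw w hw) h]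
    exact add_le_add (pow_le_pow_left₀ (norm_nonneg _) (mw_le_norm hw x) 2)
      (pow_le_pow_left₀ (norm_nonneg _) (mw_le_norm hw y) 2)
  calc ‖x + y‖ ^ 2 ≤ (√(‖x‖ ^ 2 + ‖y‖ ^ 2)) ^ 2 := pow_le_pow_left₀ (norm_nonneg _) this 2
    _ = _ := Real.sq_sqrt h0

/-- the indicator function -/
noncomputable def ind (A : Set Ω) : Ω → ℝ := A.indicator (fun _ => 1)

lemma ind_bm {A : Set Ω} (hA : MeasurableSet A) : BM (ind A) := BM.indicator hA (BM.const 1)

lemma ind_abs_le (A : Set Ω) (ω : Ω) : |ind A ω| ≤ 1 := by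
  unfold ind
  by_cases h : ω ∈ A <;> simp [h]

lemma ind_of_mem {A : Set Ω} {ω : Ω} (h : ω ∈ A) : ind A ω = 1 := by simp [ind, h]
lemma ind_of_notMem {A : Set Ω} {ω : Ω} (h : ω ∉ A) : ind A ω = 0 := by simp [ind, h]

lemma mulE_ind_norm_le {A : Set Ω} (hA : MeasurableSet A) (x : s.E) :
    ‖mulE s (ind A) x‖ ≤ ‖x‖ := by
  have := mulE_norm_le (ind_bm hA) zero_le_one (ind_abs_le A) x
  rwa [one_mul] at this

/-- order continuity -/
lemma E_oc (x : s.E) (ε : ℝ) (hε : 0 < ε) : ∃ δ, 0 < δ ∧ ∀ A, MeasurableSet A → μ.real A ≤ δ →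
    ‖mulE s (ind A) x‖ ≤ ε := by
  obtain ⟨δ, hδ, h⟩ := s.oc (WSys.toH x) (toH_mem x) (ε ^ 2) (by positivity)
  refine ⟨δ, hδ, fun A hA hμ => E_norm_le (fun w hw => ?_)⟩
  have h1 := h A hA hμ w hw
  have h2 : ‖mw μ w (WSys.toH (mulE s (ind A) x))‖ ^ 2 =
      ∫ ω in A, w ω * (WSys.toH x ω) ^ 2 ∂μ := by
    rw [mw_norm_sq (s.bw w hw), ← integral_indicator hA]
    apply integral_congr_ae
    filter_upwards [mulE_ae (ind_bm hA) x] with ω h3
    rw [h3]
    by_cases hω : ω ∈ A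
    · rw [ind_of_mem hω, Set.indicator_of_mem hω, one_mul]
    · rw [ind_of_notMem hω, Set.indicator_of_notMem hω]
      ring
  rw [← h2] at h1
  exact le_of_sq_le_sq h1 hε.le

end Run7.h921
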